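import Pool.Agent.H30.LP.Vx

/-!
# The numbers of the velocities of the chain and of the targets

`EIx`: rational data of the digits; `Adm`: admissible data. `ndq_cls`: one subclass with the numbers
for all admissible data. `ndq_ae`: at almost every point with good data of arbitrarily small
intervals, for every `e` there are data for which the numbers of the targets are additive and the
number of the velocities of the chain is constant, up to `e r` in the boxes of size `r`.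
-/

set_option autoImplicit false

namespace Pool.LP30

open Finset Real MvPolynomial MeasureTheory Set
open Pool.Agent.H49.Ent Pool.Agent.H32.Dense Pool.STK Pool.KA Pool.KSAT Pool.K2S Pool.PB Pool.S6C
  Pool.GEN Pool.RCD Pool.LA91
open Pool.OWN83 (TwoRelS TRelS rel_clsS)

variable {m : ℕ} {α γ : ∀ J : ℕ, Fam m J → Type}
  {f : ∀ (J : ℕ) (F : Fam m J), F.Ω → α J F} {y : ∀ (J : ℕ) (F : Fam m J), F.Ω → γ J F}
  {S : PCl m}

/-- Rational data: the digits, the levels, the room, the interval, the step. -/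
structure EIx (d : ℕ) where
  N : Fin d → ℚ
  lv : Fin d → ℚ
  σ₀ : ℚ
  a : ℚ
  b : ℚ
  lam : ℚ

instance (d : ℕ) : Countable (EIx d) := by
  have h : Function.Injective (fun i : EIx d => (i.N, i.lv, i.σ₀, i.a, i.b, i.lam)) := by
    rintro ⟨a1, a2, a3, a4, a5, a6⟩ ⟨b1, b2, b3, b4, b5, b6⟩ h
    simp only [Prod.mk.injEq] at h
    obtain ⟨rfl, rfl, rfl, rfl, rfl, rfl⟩ := h
    rfl
  exact h.countable

/-- The extension by `0`. -/
noncomputable def exN {d : ℕ} (N : Fin d → ℚ) (l : ℕ) : ℝ :=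
  if h : l < d then (N ⟨l, h⟩ : ℝ) else 0

theorem exN_lt {d : ℕ} (N : Fin d → ℚ) {l : ℕ} (h : l < d) : exN N l = N ⟨l, h⟩ := dif_pos h

/-- **Admissible data.** -/
structure Adm {n : ℕ} (wh : ℚ → ℝ) (sn : ℕ → ℝ → ℝ) (d : ℕ) (tl : Fin n → ℚ → ℝ) (a b : ℝ)
    (i : EIx d) : Prop where
  ed : EdS wh sn d (exN i.N) (exN i.lv) i.σ₀ i.a i.b i.lam
  tg : TgS wh d (exN i.lv) i.σ₀ i.a i.b i.lam tl
  lam0 : 0 < i.lam
  ha : a ≤ i.a
  hb : (i.b : ℝ) ≤ b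

section

variable {c : ℕ → Fin m} {d : ℕ} {s a b : ℝ} {wh : ℚ → ℝ} {sn : ℕ → ℝ → ℝ} {G : Set ℝ}
  {n : ℕ} {k : Fin n → Fin m} {tl : Fin n → ℚ → ℝ}

/-- **The numbers** for all admissible data. -/
def NdN (S : PCl m) (f : ∀ (J : ℕ) (F : Fam m J), F.Ω → α J F)
    (y : ∀ (J : ℕ) (F : Fam m J), F.Ω → γ J F) (c : ℕ → Fin m) (d : ℕ) (s a b : ℝ) (wh : ℚ → ℝ)
    (sn : ℕ → ℝ → ℝ) {n : ℕ} (k : Fin n → Fin m) (tl : Fin n → ℚ → ℝ)
    (θ₀ : EIx d → ℚ → ℝ) (θ : EIx d → ℚ → ℚ → ℝ) : Prop :=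
  ∀ i, Adm wh sn d tl a b i → TRelS S f y s (vlQ m c d wh sn (exN i.N)) (tgQ m c d k wh tl)
    i.a i.b i.lam (θ₀ i) (θ i)

theorem NdN.sub {S' : PCl m} (hs : ∀ (τ : ℝ) (J : ℕ) (F : Fam m J) (A : F.Ω → Prop),
    S'.St τ J F A → S.St τ J F A) {θ₀ : EIx d → ℚ → ℝ} {θ : EIx d → ℚ → ℚ → ℝ}
    (h : NdN S f y c d s a b wh sn k tl θ₀ θ) : NdN S' f y c d s a b wh sn k tl θ₀ θ :=
  fun i hi => (h i hi).sub hs

/-- The family for admissible data. -/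
theorem Adm.rel (h : VCh S f y c d s a b wh sn G) (hT : TgC S c d wh a b k tl) {i : EIx d}
    (hi : Adm wh sn d tl a b i) : TwoRelS S f y s (vlQ m c d wh sn (exN i.N))
      (tgQ m c d k wh tl) i.a i.b i.lam :=
  rel_V (h.cut hi.ha hi.hb) (by exact_mod_cast hi.lam0) hi.ed (hT.cut hi.ha hi.hb) hi.tg

/-- **One subclass** with the numbers for all admissible data. -/
theorem ndq_cls (h : VCh S f y c d s a b wh sn G) (hT : TgC S c d wh a b k tl) :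
    ∃ S' : PCl m, S'.Ne ∧
      (∀ (τ : ℝ) (J : ℕ) (F : Fam m J) (A : F.Ω → Prop), S'.St τ J F A → S.St τ J F A) ∧
      ∃ (θ₀ : EIx d → ℚ → ℝ) (θ : EIx d → ℚ → ℚ → ℝ),
        NdN S' f y c d s a b wh sn k tl θ₀ θ := by
  classical
  obtain ⟨S', h1, h2, h3⟩ := rel_clsS (ι := {i : EIx d // Adm wh sn d tl a b i}) h.ne h.pos
    (fun _ => Fin d → ℤ) (fun _ => Fin n → ℤ) (fun _ => α) (fun _ => γ) (fun _ => f) (fun _ => y)
    (fun _ => s) (fun i => vlQ m c d wh sn (exN i.1.N)) (fun _ => tgQ m c d k wh tl)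
    (fun i => i.1.a) (fun i => i.1.b) (fun i => i.1.lam) (fun i => i.2.rel h hT)
    (fun i => by exact_mod_cast i.2.lam0)
  choose θ₀ θ hθ using h3
  refine ⟨S', h1, h2, fun i => if hi : Adm wh sn d tl a b i then θ₀ ⟨i, hi⟩ else fun _ => 0,
    fun i => if hi : Adm wh sn d tl a b i then θ ⟨i, hi⟩ else fun _ _ => 0, fun i hi => ?_⟩
  simp only [dif_pos hi]
  exact hθ ⟨i, hi⟩

/-- **Good data on arbitrarily small intervals**: few digits compared with the length. -/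
def CrE {n : ℕ} (wh : ℚ → ℝ) (sn : ℕ → ℝ → ℝ) (d : ℕ) (tl : Fin n → ℚ → ℝ) (a b g : ℝ) : Prop :=
  ∀ ε : ℝ, 0 < ε → ∀ δ₀ : ℝ, 0 < δ₀ → ∃ δ : ℝ, 0 < δ ∧ δ ≤ δ₀ ∧ ∃ i : EIx d,
    Adm wh sn d tl a b i ∧ i.a < g - δ ∧ g + δ < i.b ∧ ∀ w : ℚ, i.a < w → w < i.b →
      ∑ l : Fin d, Real.log 2 * (exN i.N l - (sn l (wh w) - wh w)) ≤ ε * δ

/-- **The data for `e`** at `g`. -/
def GdE {n : ℕ} (wh : ℚ → ℝ) (sn : ℕ → ℝ → ℝ) (d : ℕ) (tl : Fin n → ℚ → ℝ) (a b : ℝ)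
    (θ₀ : EIx d → ℚ → ℝ) (θ : EIx d → ℚ → ℚ → ℝ) (g e : ℝ) (i : EIx d) : Prop :=
  Adm wh sn d tl a b i ∧ i.a < g ∧ g < i.b ∧ ∃ r₀ : ℝ, 0 < r₀ ∧ ∀ r : ℝ, 0 < r → r < r₀ →
    (∀ w v o : ℚ, g - r ≤ w → w ≤ v → v ≤ o → (o : ℝ) ≤ g + r →
      θ i w o - θ i w v - θ i v o ≤ e * r) ∧
    ∀ w v : ℚ, g - r ≤ w → w ≤ v → (v : ℝ) ≤ g + r → θ₀ i w - θ₀ i v ≤ e * r

/-- **Data for all `e`**, at almost every point. -/
theorem ndq_ae (h : VCh S f y c d s a b wh sn G) (hT : TgC S c d wh a b k tl)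
    {θ₀ : EIx d → ℚ → ℝ} {θ : EIx d → ℚ → ℚ → ℝ} (hN : NdN S f y c d s a b wh sn k tl θ₀ θ) :
    ∀ᵐ g : ℝ, CrE wh sn d tl a b g → ∀ e : ℝ, 0 < e → ∃ i, GdE wh sn d tl a b θ₀ θ g e i := by
  have hla : ∀ᵐ g : ℝ, ∀ i : {i : EIx d // Adm wh sn d tl a b i},
      g ∈ Ioo (i.1.a : ℝ) i.1.b → ∀ e : ℝ, 0 < e →
      ∃ r₀ : ℝ, 0 < r₀ ∧ ∀ r : ℝ, 0 < r → r < r₀ →
      ∀ w v o : ℚ, g - r ≤ w → w ≤ v → v ≤ o → (o : ℝ) ≤ g + r →
        θ i.1 w o - θ i.1 w v - θ i.1 v o ≤ e * r := by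
    rw [ae_all_iff]
    intro i
    have hc := h.cut i.2.ha i.2.hb
    exact TRelS.ae hc.ne hc.pos hc.b1.le (by exact_mod_cast i.2.lam0) hc.rn (i.2.rel h hT)
      (hN i.1 i.2)
  have hdr := drop_ae (ι := {i : EIx d // Adm wh sn d tl a b i}) (fun i => (i.1.a : ℝ))
    (fun i => (i.1.b : ℝ)) (fun i => θ₀ i.1) (fun i w v e1 e2 e3 => by
      have hc := h.cut i.2.ha i.2.hb
      exact V_anti hc (by exact_mod_cast i.2.lam0) i.2.ed (hN i.1 i.2).n₀ w v e1 e2 e3)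
    {g | CrE wh sn d tl a b g} (by
      intro g hg ε hε δ₀ hδ₀
      obtain ⟨δ, hδ, hδ1, i, hi, i1, i2, i3⟩ := hg ε hε δ₀ hδ₀
      refine ⟨δ, hδ, hδ1, ⟨i, hi⟩, i1, i2, fun w v e1 e2 e3 => ?_⟩
      have hc := h.cut hi.ha hi.hb
      have e2' : (w : ℝ) ≤ v := by exact_mod_cast e2
      have wa : (i.a : ℝ) < w := by linarith
      have wb : (w : ℝ) < i.b := by linarith
      have va : (i.a : ℝ) < v := by linarith
      have vb : (v : ℝ) < i.b := by linarith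
      have k1 := V_le hc hi.ed wa wb ((hN i hi).n₀ w wa wb)
      have k2 := V_le hc hi.ed va vb ((hN i hi).n₀ v va vb)
      have k3 := i3 w (by exact_mod_cast wa) (by exact_mod_cast wb)
      simp only
      linarith [k1.2, k2.1])
  filter_upwards [hla, hdr] with g h1 h2 hg e he
  obtain ⟨i, i1, i2, r₁, hr₁, H1⟩ := h2 hg e he
  obtain ⟨r₂, hr₂, H2⟩ := h1 i ⟨i1, i2⟩ e he
  exact ⟨i.1, i.2, i1, i2, min r₁ r₂, lt_min hr₁ hr₂, fun r hr hrr =>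
    ⟨H2 r hr (hrr.trans_le (min_le_right _ _)), H1 r hr (hrr.trans_le (min_le_left _ _))⟩⟩

end

end Pool.LP30
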