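import Pool.Agent.H30.LP.Ent
import Pool.Agent.H30.LP.Ndq
import Pool.Agent.H83.OWN.Lvo

/-!
# The near path of the chain over the charts of a window

`paQ`: the heights to the digits `nH` and the velocities to the digits `nV`. `few_pa`: few bits given
the exact positions and more digits of the velocities. `few_tgW`: the velocity of a target over the
charts of the window `b` to the natural digits of the window `o`, given the near path and the record
at `o`. `ful_x`: the exact positions are full given a closed function of an earlier window.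
-/

set_option autoImplicit false

namespace Pool.LP30

open Finset Real MvPolynomial
open Pool.Agent.H49.Ent Pool.Agent.H32.Dense Pool.STK Pool.KA Pool.KSAT Pool.K2S Pool.PB Pool.S6C
  Pool.GEN Pool.RCD Pool.LA91
open Pool.OWN83 (TwoRelS TRelS yX)
open Pool.OWN68 (cl2_vg)

variable {m : ℕ} {U U' : Type} {α β γ : ∀ J : ℕ, Fam m J → Type}
  {f : ∀ (J : ℕ) (F : Fam m J), F.Ω → α J F} {g : ∀ (J : ℕ) (F : Fam m J), F.Ω → β J F}
  {y : ∀ (J : ℕ) (F : Fam m J), F.Ω → γ J F} {S : PCl m}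

/-- **The near path**: heights and velocities over the charts of the window `w`. -/
noncomputable def paQ (m : ℕ) (c : ℕ → Fin m) (d : ℕ) (w : ℝ) (sw nH nV : ℕ → ℝ) :
    Qt m (ℕ → ℕ → ℤ) :=
  qJets m c 0 d 1 (fun _ _ => w) (fun l _ => sw l) (fun l j => if j = 0 then nH l else nV l)

/-- The heights. -/
noncomputable def htQ (m : ℕ) (c : ℕ → Fin m) (d : ℕ) (w : ℝ) (sw nH : ℕ → ℝ) :
    Qt m (ℕ → ℕ → ℤ) :=
  qJets m c 0 d 0 (fun _ _ => w) (fun l _ => sw l) (fun l _ => nH l)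

/-- The heights of a near path. -/
def htO (u : ℕ → ℕ → ℤ) (l j : ℕ) : ℤ := if j = 0 then u l 0 else 0

theorem htO_P {c : ℕ → Fin m} {d : ℕ} {w : ℝ} {sw nH nV : ℕ → ℝ} {K : ℕ} {e : ℝ} {J : ℕ}
    {F : Fam m J} {A : F.Ω → Prop} {u : F.Ω → ℕ → ℕ → ℤ} (hu : (paQ m c d w sw nH nV).P K e J F A u) :
    (htQ m c d w sw nH).P K e J F A (fun ω => htO (u ω)) := by
  refine ⟨fun l l0 hl j' hj' => ?_, fun ω hω l j' hn => ?_⟩
  · obtain rfl : j' = 0 := by omega
    have h1 := hu.1 l l0 hl 0 (by omega)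
    simp only [if_true] at h1
    exact h1
  · show (if j' = 0 then u ω l 0 else 0) = 0
    split_ifs with h
    · exact hu.2 ω hω l 0 fun h1 => hn ⟨h1.1, h1.2.1, by omega⟩
    · rfl

section

variable {c : ℕ → Fin m} {d : ℕ} {s a b lam : ℝ} {wh : ℚ → ℝ} {sn : ℕ → ℝ → ℝ} {G : Set ℝ}

/-- **The near path is few bits** given the exact positions and more digits of the velocities. -/
theorem few_pa (h : VCh S f y c d s a b wh sn G) {N lv : ℕ → ℝ} {σ₀ : ℝ} (hlam : 0 < lam)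
    (hE : EdS wh sn d N lv σ₀ a b lam) {w : ℚ} (hw : a < w) (hwb : (w : ℝ) < b) {nH nV : ℕ → ℝ}
    {φ : ℝ} (hφ : 0 < φ)
    (hH : HtN d (fun l => sn l (wh w)) (wh w) φ (fun l => sn l (wh w)) nH)
    (hV : ∀ l < d, nV l ≤ N l) :
    Few S f (vg ((w : ℝ) + s)) y (vlQ m c d wh sn N w)
      (paQ m c d (wh w) (fun l => sn l (wh w)) nH nV) := by
  obtain ⟨C₀, htm⟩ := h.tm
  obtain ⟨u₁, rd, hrd, hch⟩ := h.ch.ch _ (h.wg w hw hwb).1
  refine h.up hw le_rfl hwb (few_qjets h.pos fun i _ hi j' hj' => ?_)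
  have l1 : (w : ℝ) < w + lam := by linarith
  rcases Nat.eq_zero_or_pos j' with rfl | hj
  · simp only [if_true]
    exact Few0.few h.pos (few0_ofPos h.pos (r := i + 1) (by omega) h.kx
      (few_posJ htm h.pos h.pt h.kn hch hφ hH hi))
  · obtain rfl : j' = 1 := by omega
    simp only [one_ne_zero, if_false]
    refine Few.pre h.pos
      (fun (u : Fin d → ℤ) => ((fun l : Fin i => u ⟨l, by have := l.2; omega⟩), u ⟨i, hi⟩)) ?_
      (few_tgX htm h.pos h.ch h.pt h.kn h.kx (h.wg w hw hwb).1 le_rfl hi.le (k := c i)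
        (w₂ := wh w) (w₃ := wh w) (p₂ := sn i (wh w)) (p₃ := sn i (wh w)) (N₁ := N i)
        (N₂ := nV i) le_rfl le_rfl (N := N) (lv := lv) hE.σ0 (fun l hl => hE.lv0 l (by omega))
        (fun l hl => hE.room w hw hwb l (by omega)) (fun l hl => hE.nat w hw hwb l (by omega))
        (fun l hl => ?_) (fun l hl l' hl' => ?_) (hV i hi) ?_ (fun l hl => ?_))
    · intro K e J F A u hu
      exact ⟨fun l => hu ⟨l, by have := l.2; omega⟩, hu ⟨i, hi⟩⟩
    · rw [min_self]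
      exact hE.r1 w w hw le_rfl hwb l1 l (by omega)
    · rw [min_self]
      exact hE.s1 w w hw le_rfl hwb l1 l (by omega) l' hl'
    · rw [min_self]
      linarith [hE.r2 w w hw le_rfl hwb l1 i hi, hV i hi]
    · rw [min_self]
      linarith [hE.s2 w w hw le_rfl hwb l1 i hi l hl, hV i hi]

/-- **The velocity of a target** over the charts of `b`, given the near path and the record at
`o`. -/
theorem few_tgW {C₀ : ℝ} (htm : TmC S C₀)
    (hpos : ∀ (τ : ℝ) (J : ℕ) (F : Fam m J) (A : F.Ω → Prop), S.St τ J F A → 0 < Pe F.p A)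
    (hW : ChG S c d sn G)
    (hf : ∀ (J : ℕ) (F : Fam m J), ∃ φ : α J F → PtT F, ∀ ω, ptr F J ω = φ (f J F ω))
    (hy : Kn ((range 0).image c) 1 1 y) {b₀ o : ℝ} (ho : o ∈ G) (hbo : b₀ ≤ o) {k : Fin m}
    {tb tt rk : ℝ} (hrk : 0 ≤ rk) (att : Att S ((range d).image c) k o tt rk)
    {nH nV lv : ℕ → ℝ} {σ₀ : ℝ} (hσ : 0 < σ₀) (hlv : ∀ l < d, 0 < lv l)
    (mn : ∀ l < d, sn l b₀ ≤ sn l o)
    (hH : ∀ l < d, sn l o + lv l + σ₀ ≤ nH l) (hV : ∀ l < d, sn l o + lv l + σ₀ ≤ nV l + o)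
    (hr : ∀ l < d, sn l o + lv l + σ₀ ≤ sn l b₀ + (1 - o))
    (hs : ∀ l < d, ∀ l' < l, sn l o + lv l + σ₀ ≤ sn l b₀ + lv l') {N : ℝ} (hN : N + o ≤ tt)
    (htt : tb ≤ tt) (t1 : N + o + σ₀ ≤ tb + (1 - o)) (t2 : ∀ l < d, N + o + σ₀ ≤ tb + lv l) :
    Few S f (vg o) y (paQ m c d b₀ (fun l => sn l b₀) nH nV)
      (qJet m ((range d).image c) k 1 b₀ tb N) := by
  obtain ⟨u₁, rd, hrd, hch⟩ := hW.ch o ho
  refine few0_cut hpos (exs_jet (N := tt - o) (j := 1) hrk att)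
    (few0_jet htm hch.w0 hch.u0 (by push_cast; linarith) _ _ _) ?_
  have e0 : min (1 : ℝ) (1 - o) = 1 - o := min_eq_right (by linarith [hch.w0])
  refine few_jetN (f := f) (y := y) htm hch (k := k) (j := 1) (wv := fun _ _ => b₀)
    (pv := fun l _ => sn l b₀) (Nv := fun l j => if j = 0 then nH l else nV l) (lv := lv)
    (w₁ := o) (w₂ := b₀) (p₁ := tt) (p₂ := tb) (N₁ := tt - o) (N₂ := N) (p₀ := 1) (lam := 1)
    (σ₀ := σ₀) (fun _ _ _ _ _ => hbo) le_rfl hbo hch.u0 le_rfl one_pos hσ (fun l _ hl => hlv l hl)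
    (fun l _ hl j' hj' => ?_) (fun l _ hl j' hj' => ?_) (fun l _ hl j' hj' l' _ hl' => ?_)
    (by linarith) ?_ (fun l _ hl => ?_) hf hy
  · rcases Nat.eq_zero_or_pos j' with rfl | hj
    · simp only [if_true, Nat.cast_zero, zero_mul, add_zero]
      exact hH l hl
    · obtain rfl : j' = 1 := by omega
      simp only [one_ne_zero, if_false, Nat.cast_one, one_mul]
      exact hV l hl
  · rw [e0, min_eq_left (mn l hl)]
    exact hr l hl
  · rw [min_eq_left (mn l hl)]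
    exact hs l hl l' hl'
  · rw [e0, min_eq_right htt]
    push_cast
    linarith
  · rw [min_eq_right htt]
    push_cast
    linarith [t2 l hl]

/-- **The exact positions are full** given a closed function of an earlier window. -/
theorem ful_x
    (hpos : ∀ (τ : ℝ) (J : ℕ) (F : Fam m J) (A : F.Ω → Prop), S.St τ J F A → 0 < Pe F.p A)
    (hW : ChG S c d sn G) {x ox : ℝ} (hx : x ∈ G) (hox : ox ≤ x) {ε : ℝ} (hε : 0 < ε) :
    Bas S (fun J F A => ∀ (V : Type) (z : F.Ω → V), Cl2 (ptr F J) (vg ox J F) A z →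
      ∑ i ∈ range d, (1 - sn i x) * Real.log 2 * J - ε * J ≤
        CH (Pool.Agent.H49.Ent.cond F.p A True) (fun ω => fun l : Fin d => F.X J ω (c l))
          (fun ω => (z ω, F.W ω))) := by
  obtain ⟨u₁, rd, -, hch⟩ := hW.ch x hx
  have hl2 : 0 < Real.log 2 := Real.log_pos one_lt_two
  have hr0 : (0 : ℝ) ≤ d := Nat.cast_nonneg d
  obtain ⟨ρ, hρ⟩ : ∃ ρ : ℝ, ρ = ε / ((d + 1) * Real.log 2) := ⟨_, rfl⟩
  have hρ0 : 0 < ρ := by rw [hρ]; positivity
  have hρε : ρ * ((d + 1) * Real.log 2) = ε := by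
    rw [hρ]
    exact div_mul_cancel₀ _ (by positivity)
  refine Bas.mono 0 ((hch.ful ρ hρ0).and (pos_bas hpos)) ?_
  rintro J - F A ⟨H, hA⟩ V z hz
  obtain ⟨⟨φ', hφ'⟩, ψ, hψ⟩ := cl2_vg (f := fun J F => ptr F J) hox hch.u0.le hz
  have hcl := isLaw_cond F.isLaw hA
  have hJ0 : (0 : ℝ) ≤ J := Nat.cast_nonneg J
  have h1 := H V φ' ψ (fun ω hω => (hφ' ω hω).symm.trans (hψ ω hω))
  rw [CH_finch hcl.nonneg (fun i ω => F.X J ω (c i)) (fun ω => (z ω, F.W ω)) d]
  have h2 : ∑ i ∈ range d, (1 - sn i x) * Real.log 2 * J - ε * J ≤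
      ∑ i ∈ range d, ((1 - sn i x) - ρ) * Real.log 2 * J := by
    have e1 : ∑ i ∈ range d, ((1 - sn i x) - ρ) * Real.log 2 * J =
        ∑ i ∈ range d, (1 - sn i x) * Real.log 2 * J - d * (ρ * Real.log 2 * J) := by
      rw [← nsmul_eq_mul, ← Finset.card_range d, ← Finset.sum_const, Finset.card_range,
        ← Finset.sum_sub_distrib]
      refine Finset.sum_congr rfl fun i _ => ?_
      ring
    rw [e1]
    have e2 : ε * J = d * (ρ * Real.log 2 * J) + ρ * Real.log 2 * J := by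
      rw [← hρε]
      ring
    have e3 : 0 ≤ ρ * Real.log 2 * J := by positivity
    linarith
  refine h2.trans (Finset.sum_le_sum fun i hi => ?_)
  refine (h1 i (Nat.zero_le _) (Finset.mem_range.1 hi)).trans (le_of_eq ?_)
  refine CH_congr hcl.nonneg (fun _ _ _ _ h => (Prod.ext_iff.mp h).1)
    (fun _ _ _ _ h => (Prod.ext_iff.mp h).1) ?_ ?_
  · intro ω ω' hω hω' hh
    simp only [Prod.mk.injEq] at hh ⊢
    refine ⟨hh.1, ?_, hh.2.2⟩
    rw [hψ ω (of_cond_pos hω), hψ ω' (of_cond_pos hω')]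
    exact hh.2.1
  · intro ω ω' hω hω' hh
    simp only [Prod.mk.injEq] at hh ⊢
    refine ⟨hh.1, ?_, hh.2.2⟩
    have h3 := hh.2.1
    rw [hψ ω (of_cond_pos hω), hψ ω' (of_cond_pos hω')] at h3
    exact h3

end

end Pool.LP30
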