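import Pool.Agent.H30.LP.Nib

/-!
# No look-ahead given the near path, almost everywhere

`ni_box`: `NiG` at a point with good numbers. `ni_ae`: in a subclass, at almost every window.
-/

set_option autoImplicit false

namespace Pool.LP30

open Finset Real MvPolynomial
open Pool.Agent.H49.Ent Pool.Agent.H32.Dense Pool.STK Pool.KA Pool.KSAT Pool.K2S Pool.PB Pool.S6C
  Pool.GEN Pool.RCD Pool.LA91
open Pool.OWN83 (TwoRelS TRelS yX kn0_yX ae_shift)
open Pool.OWN68 (cl2_vg)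
open Pool.AVG96 (fl fl_mem fl_mono le_fl whG)

variable {m : ℕ} {S : PCl m} {c : ℕ → Fin m} {d : ℕ} {s a A B g Sg : ℝ} {sn : ℕ → ℝ → ℝ}
  {G : Set ℝ} {n : ℕ} {k : Fin n → Fin m} {T : Fin n → ℝ → ℝ}

section

variable {nH nV lv : ℕ → ℝ} {b x y o wc vc oc E X φ R κ₀ : ℝ}

theorem BoxW.nrD (h : BoxW sn d T G nH nV lv b x y o wc vc oc E X Sg φ R κ₀) {wh : ℚ → ℝ}
    {w oq : ℚ} (hw : wh w = wc) (ho : wh oq = oc) : NrD wh sn d nH nV lv (X / 2) φ w oq := by
  have e1 := h.e1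
  have r1 := h.R1 wc (by simp)
  have r2 := h.R1 oc (by simp)
  exact
  { σ0 := by linarith [h.X0]
    φ0 := h.φ0
    lv0 := h.nr.lv0
    h := fun l hl => by
      rw [ho]
      linarith [h.so hl, h.nr.h l hl, h.X0]
    v := fun l hl => by
      rw [ho]
      linarith [h.fl l hl b (by simp) oc (by simp), h.nr.v l hl, h.X0]
    r := fun l hl => by
      rw [ho, hw]
      linarith [h.sow hl, h.lvk hl, h.X0, h.Rb, h.Rk, h.RX]
    s := fun l hl l' hl' => by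
      rw [ho, hw]
      linarith [h.sow hl, h.nr.s l hl l' hl', h.X0]
    h1 := fun l hl => by linarith [h.nr.kh l hl, h.R2 l hl b (by simp), h.Rk, h.RX, h.X0]
    t0 := fun l hl => by
      rw [hw]
      linarith [h.nr.kh l hl, h.sw hl, h.Rk, h.RX, h.X0, h.Rφ]
    t1 := fun l hl l' hl' => by
      rw [hw]
      linarith [h.nr.kh l hl, h.sw hl, h.Rk, h.RX, h.X0, h.Rφ,
        h.R2 l' (by omega) wc (by simp)] }

theorem BoxW.tgN (h : BoxW sn d T G nH nV lv b x y o wc vc oc E X Sg φ R κ₀) {wh : ℚ → ℝ}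
    {w oq : ℚ} (hw : wh w = wc) (ho : wh oq = oc) :
    TgN wh d lv (X / 2) (fun i w => T i (wh w)) w oq := by
  have e1 := h.e1
  have e2 := h.e2
  have r2 := h.R1 oc (by simp)
  refine ⟨fun i => ?_, fun i l hl => ?_⟩
  · simp only [hw, ho]
    have h1 := h.tu i wc (by simp) oc (by simp) (h.wv.trans h.vo)
    have h2 : Sg * (oc - wc) ≤ Sg * ((o - b) + 4 * E) :=
      mul_le_mul_of_nonneg_left (by linarith [h.oo, h.xw, h.hbx]) h.Sg0
    have h3 : Sg * (o - b) ≤ R := by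
      have : (0 : ℝ) ≤ o - b := by linarith [h.hbx, h.hxy, h.hyo]
      linarith [h.RS]
    linarith [h.RX, h.X0]
  · simp only [hw, ho]
    have h1 := (h.tc i (p := o) (q := oc) (by simp) (by simp) (by linarith [h.oo])).2
    have h2 := (h.tc i (p := wc) (q := b) (by simp) (by simp) (by linarith [h.xw, h.hbx])).2
    linarith [h.nr.t i l hl, h.X0]

end

/-- **The indices** of the real windows `x ≤ y ≤ o`. -/
theorem idx_ex {r η E x y o : ℝ} (hcl : IsClosed G) (HB : Bx0 sn d T G g Sg η (2 * r))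
    (hr : 0 < r) (hη : η ≤ 1) (hE : E = η * (2 * r)) (hE0 : 0 < E) (hEr : 100 * E ≤ r)
    (hA : A ≤ g - 4 * r) (a1 : g - r ≤ x) (a3 : x ≤ y) (a4 : y ≤ o) (a5 : o ≤ g + r) :
    ∃ w v oq : ℚ, x - s - E < w ∧ (w : ℝ) < x - s ∧ y - s < v ∧ (v : ℝ) < y - s + E ∧
      o - s < oq ∧ (oq : ℝ) < o - s + 2 * E ∧ w ≤ v ∧ v ≤ oq ∧
      (whG G A s w ∈ G ∧ (w : ℝ) + s - E ≤ whG G A s w ∧ whG G A s w ≤ w + s) ∧
      (whG G A s v ∈ G ∧ (v : ℝ) + s - E ≤ whG G A s v ∧ whG G A s v ≤ v + s) ∧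
      (whG G A s oq ∈ G ∧ (oq : ℝ) + s - E ≤ whG G A s oq ∧ whG G A s oq ≤ oq + s) ∧
      whG G A s w ≤ whG G A s v ∧ whG G A s v ≤ whG G A s oq ∧
      ∃ x' ∈ G, (oq : ℝ) + s ≤ x' ∧ x' ≤ oq + s + E := by
  obtain ⟨w, w1, w2⟩ := exists_rat_btwn (show x - s - E < x - s by linarith)
  obtain ⟨v, v1, v2⟩ := exists_rat_btwn (show y - s < y - s + E by linarith)
  obtain ⟨oq, o1, o2⟩ := exists_rat_btwn (show max (o - s) v < max (o - s) v + E by linarith)
  have o3 : o - s < oq := (le_max_left _ _).trans_lt o1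
  have o4 : (v : ℝ) < oq := (le_max_right _ _).trans_lt o1
  have o5 : (oq : ℝ) < o - s + 2 * E := by
    have h1 : max (o - s) (v : ℝ) ≤ o - s + E := max_le (by linarith) (by linarith)
    linarith
  have wv : w ≤ v := by
    have : (w : ℝ) ≤ v := by linarith
    exact_mod_cast this
  have vo : v ≤ oq := by exact_mod_cast o4.le
  have ht : (0 : ℝ) < 2 * r := by positivity
  have cw := bx_fl (A := A) (s := s) hcl HB hη ht (by linarith) (w := w)
    (by linarith) (by linarith)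
  have cv := bx_fl (A := A) (s := s) hcl HB hη ht (by linarith) (w := v)
    (by linarith) (by linarith)
  have co := bx_fl (A := A) (s := s) hcl HB hη ht (by linarith) (w := oq)
    (by linarith) (by linarith)
  have cwv := bx_mono (A := A) (s := s) HB hη ht (by linarith) (w := w) (by linarith)
    (by linarith) wv
  have cvo := bx_mono (A := A) (s := s) HB hη ht (by linarith) (w := v) (by linarith)
    (by linarith) vo
  rw [← hE] at cw cv co
  obtain ⟨x', hx', x1', x2'⟩ := HB.gap ((oq : ℝ) + s + E) (by linarith) (by linarith)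
  rw [← hE] at x1'
  exact ⟨w, v, oq, w1, w2, v1, v2, o3, o5, wv, vo, cw, cv, co, cwv, cvo, x', hx', by linarith,
    by linarith⟩

/-- **The box.** -/
theorem mk_box {r η E X φ R R₁ κ₀ b x y o wc vc oc : ℝ} {nH nV lv : ℕ → ℝ}
    (mn : ∀ l < d, ∀ w ∈ G, ∀ v ∈ G, w ≤ v → sn l w ≤ sn l v)
    (HB : Bx0 sn d T G g Sg η (2 * r))
    (HT : ∀ i, ∀ w v : ℝ, g - 2 * r ≤ w → w ≤ v → v ≤ g + 2 * r →
      (v - w) - E ≤ T i v - T i w ∧ T i v - T i w ≤ Sg * (v - w) + E)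
    (hr : 0 < r) (hE : E = η * (2 * r)) (hE0 : 0 < E) (hEr : 100 * E ≤ r) (hX0 : 0 < X)
    (hφ0 : 0 < φ) (hSg : 0 ≤ Sg) (hgG : g ∈ G) (hb : b ∈ G) (a1 : g - r ≤ b) (a2 : b ≤ x)
    (a3 : x ≤ y) (a4 : y ≤ o) (a5 : o ≤ g + r) (gw : wc ∈ G) (go : oc ∈ G) (w1 : wc ≤ x)
    (w2 : x ≤ wc + 2 * E) (v1 : vc ≤ y + E) (v2 : y ≤ vc + E) (o1 : oc ≤ o + 2 * E)
    (o2 : o ≤ oc + E)
    (wv : wc ≤ vc) (vo : vc ≤ oc) (EX : 100 * ((Sg + 1) * E) ≤ X) (RX : X ≤ R)
    (hSr : 8 * ((Sg + 1) * r) ≤ R) (Rk : κ₀ ≤ R) (Rg : 32 * R ≤ 1 - g) (R1 : 32 * R ≤ R₁)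
    (R2 : ∀ l < d, R₁ ≤ 1 - sn l g) (Rφ : 20 * ((d : ℝ) + 1) * φ ≤ X)
    (nr : NrW sn d T nH nV lv b o X κ₀) :
    BoxW sn d T G nH nV lv b x y o wc vc oc E X Sg φ R κ₀ := by
  have hrR : 8 * r ≤ R := by nlinarith
  have hfl : ∀ l < d, ∀ p ∈ G, ∀ q ∈ G, g - 2 * r ≤ p → p ≤ g + 2 * r → g - 2 * r ≤ q →
      q ≤ g + 2 * r → sn l q - q ≤ sn l p - p + E := by
    intro l hl p hp q hq p1 p2 q1 q2
    rw [hE]
    rcases le_total p q with hle | hle
    · linarith [(abs_le.1 (HB.sl p hp q hq p1 hle q2 l hl)).2]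
    · linarith [(abs_le.1 (HB.sl q hq p hp q1 hle p2 l hl)).1]
  have hG3 : ∀ p ∈ ({b, wc, oc} : Set ℝ), p ∈ G ∧ g - 2 * r ≤ p ∧ p ≤ g + 2 * r := by
    rintro p (rfl | rfl | rfl)
    · exact ⟨hb, by linarith, by linarith⟩
    · exact ⟨gw, by linarith, by linarith⟩
    · exact ⟨go, by linarith, by linarith⟩
  have hG6 : ∀ p ∈ ({b, wc, vc, oc, y, o} : Set ℝ), g - 2 * r ≤ p ∧ p ≤ g + 2 * r := by
    rintro p (rfl | rfl | rfl | rfl | rfl | rfl) <;> constructor <;> linarith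
  exact
    { E0 := hE0
      X0 := hX0
      φ0 := hφ0
      Sg0 := hSg
      hbx := a2
      hxy := a3
      hyo := a4
      wx := w1
      xw := w2
      vy := v1
      oo := o1
      oo' := o2
      wv := wv
      vo := vo
      gb := hb
      gw := gw
      go := go
      mn := fun l hl p hp q hq hpq => mn l hl p (hG3 p hp).1 q (hG3 q hq).1 hpq
      fl := fun l hl p hp q hq => hfl l hl p (hG3 p hp).1 q (hG3 q hq).1 (hG3 p hp).2.1
        (hG3 p hp).2.2 (hG3 q hq).2.1 (hG3 q hq).2.2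
      tu := fun i p hp q hq hpq => by
        linarith [(HT i p q (hG6 p hp).1 hpq (hG6 q hq).2).2]
      td := fun i p hp q hq hpq => by
        linarith [(HT i p q (hG6 p hp).1 hpq (hG6 q hq).2).1]
      EX := EX
      RX := RX
      Rb := by linarith
      RS := by
        have h1 : (Sg + 1) * (o - b) ≤ (Sg + 1) * (2 * r) :=
          mul_le_mul_of_nonneg_left (by linarith) (by linarith)
        linarith
      Rk := Rk
      R1 := by
        have h1 : ∀ p : ℝ, p ≤ g + 2 * r → 16 * R ≤ 1 - p := fun p hp => by linarith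
        rintro p (rfl | rfl | rfl | rfl | rfl) <;> exact h1 _ (by linarith)
      R2 := fun l hl p hp => by
        have h1 := hfl l hl g hgG p (hG3 p hp).1 (by linarith) (by linarith) (hG3 p hp).2.1
          (hG3 p hp).2.2
        have h2 := R2 l hl
        have h3 := (hG3 p hp).2.2
        linarith
      Rφ := Rφ
      nr := nr }

theorem NiW.mono {nH nV : ℕ → ℝ} {b x y o κ κ' : ℝ} (hκ : κ ≤ κ')
    (h : NiW S c d k sn T nH nV b x y o κ) : NiW S c d k sn T nH nV b x y o κ' := by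
  obtain ⟨κ₁, hκ₁, e₀, he₀, H⟩ := h
  refine ⟨κ₁, hκ₁, e₀, he₀, fun K => Bas.mono 0 (H K) ?_⟩
  intro J _ F A H V z V' z' hz hz' u u₁ pa hu hu₁ hpa
  have h1 := H V z V' z' hz hz' u u₁ pa hu hu₁ hpa
  have h2 : κ * J ≤ κ' * J := mul_le_mul_of_nonneg_right hκ (Nat.cast_nonneg J)
  linarith

/-- The sum of the losses. -/
theorem sum_lo {x' oc E φ : ℝ} (hE0 : 0 ≤ E) (hφ0 : 0 ≤ φ)
    (h : ∀ i < d, sn i x' - sn i oc ≤ 3 * E) :
    ∑ i ∈ range d, (sn i x' - sn i oc + 8 * ((i : ℝ) + 1) * φ) * Real.log 2 ≤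
      3 * (d * E) + 8 * (((d : ℝ) + 1) ^ 2 * φ) := by
  have hl2 : 0 < Real.log 2 := Real.log_pos one_lt_two
  have hl21 : Real.log 2 ≤ 1 := by
    have := Real.log_two_lt_d9
    linarith
  have hd0 : (0 : ℝ) ≤ d := Nat.cast_nonneg d
  have h1 : ∀ i ∈ range d, (sn i x' - sn i oc + 8 * ((i : ℝ) + 1) * φ) * Real.log 2 ≤
      3 * E + 8 * ((d : ℝ) + 1) * φ := by
    intro i hi
    have hi' := Finset.mem_range.1 hi
    have h2 : ((i : ℝ) + 1) * φ ≤ ((d : ℝ) + 1) * φ := by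
      refine mul_le_mul_of_nonneg_right ?_ hφ0
      have : (i : ℝ) ≤ d := by exact_mod_cast hi'.le
      linarith
    have h3 : sn i x' - sn i oc + 8 * ((i : ℝ) + 1) * φ ≤ 3 * E + 8 * ((d : ℝ) + 1) * φ := by
      linarith [h i hi']
    have h4 : 0 ≤ 3 * E + 8 * ((d : ℝ) + 1) * φ := by positivity
    calc _ ≤ (3 * E + 8 * ((d : ℝ) + 1) * φ) * Real.log 2 :=
          mul_le_mul_of_nonneg_right h3 hl2.le
      _ ≤ (3 * E + 8 * ((d : ℝ) + 1) * φ) * 1 := mul_le_mul_of_nonneg_left hl21 h4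
      _ = _ := mul_one _
  refine (Finset.sum_le_sum h1).trans ?_
  rw [Finset.sum_const, Finset.card_range, nsmul_eq_mul]
  have h5 : 0 ≤ ((d : ℝ) + 1) * φ := by positivity
  nlinarith

/-- A positive lower bound of finitely many positive numbers. -/
theorem fin_lb {D : ℕ} {f : ℕ → ℝ} (h : ∀ l < D, 0 < f l) :
    ∃ R : ℝ, 0 < R ∧ ∀ l < D, R ≤ f l := by
  induction D with
  | zero => exact ⟨1, one_pos, fun l hl => absurd hl (Nat.not_lt_zero l)⟩
  | succ D ih =>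
    obtain ⟨R, h1, h2⟩ := ih fun l hl => h l (by omega)
    refine ⟨min R (f D), lt_min h1 (h D (Nat.lt_succ_self D)), fun l hl => ?_⟩
    rcases Nat.lt_succ_iff_lt_or_eq.1 hl with hl | rfl
    · exact (min_le_left _ _).trans (h2 l hl)
    · exact min_le_right _ _

/-- A positive number below finitely many positive numbers. -/
theorem list_lb (L : List ℝ) (h : ∀ x ∈ L, 0 < x) : ∃ r : ℝ, 0 < r ∧ ∀ x ∈ L, r ≤ x := by
  induction L with
  | nil => exact ⟨1, one_pos, by simp⟩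
  | cons a L ih =>
    obtain ⟨r, h1, h2⟩ := ih fun x hx => h x (List.mem_cons_of_mem a hx)
    refine ⟨min a r, lt_min (h a (by simp)) h1, fun x hx => ?_⟩
    rcases List.mem_cons.1 hx with rfl | hx
    · exact min_le_left _ _
    · exact (min_le_right _ _).trans (h2 x hx)

/-- **No look-ahead given the near path**, at a point with good numbers. -/
theorem ni_box (h : NiC S c d k sn T G s A B) (hA : ∃ u ∈ G, A ≤ u ∧ u ≤ a + s)
    {θ₀ : EIx d → ℚ → ℝ} {θ : EIx d → ℚ → ℚ → ℝ}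
    (hN : NdN S (fun J F => ptr F J) (yX ((range d).image c)) c d s a (B - s) (whG G A s) sn k
      (fun i w => T i (whG G A s w)) θ₀ θ)
    (hgG : g ∈ G) (hAg : A < g) (hgB : g < B) (s1 : ∀ l < d, sn l g < 1) (hSg : 0 ≤ Sg)
    (hsl : SlB sn d T G g Sg) (htg : TgB T g Sg)
    (hgd : ∀ e : ℝ, 0 < e → ∃ i, GdE (whG G A s) sn d (fun i w => T i (whG G A s w)) a (B - s)
      θ₀ θ (g - s) e i) : NiG S c d k sn T G g := by
  intro e he
  have hl2 : 0 < Real.log 2 := Real.log_pos one_lt_two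
  have hl21 : Real.log 2 ≤ 1 := by
    have := Real.log_two_lt_d9
    linarith
  have hd0 : (0 : ℝ) ≤ d := Nat.cast_nonneg d
  have hn0 : (0 : ℝ) ≤ n := Nat.cast_nonneg n
  have hB1 := h.B1
  obtain ⟨i, hadm, ia, ib, r₁, hr₁, hgr⟩ := hgd (e / 16) (by positivity)
  -- the rooms
  obtain ⟨R₁, hR₁, hR₁s⟩ := fin_lb (D := d) (f := fun l => 1 - sn l g) fun l hl => by
    linarith [s1 l hl]
  obtain ⟨Lv, hLv, hLvl⟩ := fin_lb (D := d) (f := exN i.lv) hadm.ed.lv0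
  obtain ⟨R, hR, hRg, hRs⟩ : ∃ R : ℝ, 0 < R ∧ 32 * R ≤ 1 - g ∧ 32 * R ≤ R₁ :=
    ⟨min ((1 - g) / 32) (R₁ / 32), lt_min (by linarith) (by positivity), by
      have := min_le_left ((1 - g) / 32) (R₁ / 32)
      linarith, by
      have := min_le_right ((1 - g) / 32) (R₁ / 32)
      linarith⟩
  obtain ⟨κ₀, hκ₀, hκR, hκL⟩ : ∃ κ₀ : ℝ, 0 < κ₀ ∧ κ₀ ≤ R ∧ κ₀ ≤ Lv / 2 :=
    ⟨min R (Lv / 2), lt_min hR (by positivity), min_le_left _ _, min_le_right _ _⟩
  -- the error of the levels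
  obtain ⟨D, hD⟩ : ∃ D : ℝ, D = ((d : ℝ) + 1) ^ 2 * (n + 1) * (Sg + 1) := ⟨_, rfl⟩
  have hD0 : 0 < D := by rw [hD]; positivity
  obtain ⟨η, hη, hη1, hη2⟩ : ∃ η : ℝ, 0 < η ∧ 200 * η ≤ 1 ∧ 4000 * (D * η) ≤ e := by
    refine ⟨min (1 / 200) (e / (4000 * D)), by positivity, ?_, ?_⟩
    · have := min_le_left (1 / 200) (e / (4000 * D))
      linarith
    · have := min_le_right (1 / 200) (e / (4000 * D))
      have h2 := mul_le_mul_of_nonneg_left this (show (0 : ℝ) ≤ 4000 * D by positivity)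
      rw [mul_div_cancel₀ _ (by positivity)] at h2
      linarith
  obtain ⟨ρ₁, hρ₁, H1⟩ := hsl η hη
  obtain ⟨ρ₂, hρ₂, H2⟩ := htg η hη
  have lam0 : (0 : ℝ) < i.lam := by exact_mod_cast hadm.lam0
  obtain ⟨r₀, hr₀, k1, k2, k3, k4, k5, k6, k7, k8, k9, k10, k11⟩ : ∃ r₀ : ℝ, 0 < r₀ ∧ 2 * r₀ ≤ ρ₁ ∧
      2 * r₀ ≤ ρ₂ ∧ 2 * r₀ ≤ r₁ ∧ 8 * r₀ ≤ g - A ∧ 8 * r₀ ≤ B - g ∧ 8 * r₀ ≤ i.lam ∧
      8 * r₀ ≤ g - s - i.a ∧ 8 * r₀ ≤ i.b - (g - s) ∧ 8 * ((Sg + 1) * r₀) ≤ R ∧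
      8 * (e * r₀) ≤ R ∧ 8 * r₀ ≤ Lv := by
    obtain ⟨r₀, h1, h2⟩ := list_lb [ρ₁ / 2, ρ₂ / 2, r₁ / 2, (g - A) / 8, (B - g) / 8, i.lam / 8,
      (g - s - i.a) / 8, (i.b - (g - s)) / 8, R / (8 * (Sg + 1)), R / (8 * e), Lv / 8] (by
        have x1 : 0 < g - A := by linarith
        have x2 : 0 < B - g := by linarith
        have x3 : 0 < g - s - i.a := by linarith
        have x4 : 0 < i.b - (g - s) := by linarith
        simp only [List.mem_cons, List.not_mem_nil, or_false, forall_eq_or_imp, forall_eq]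
        refine ⟨?_, ?_, ?_, ?_, ?_, ?_, ?_, ?_, ?_, ?_, ?_⟩ <;> positivity)
    simp only [List.mem_cons, List.not_mem_nil, or_false, forall_eq_or_imp, forall_eq] at h2
    obtain ⟨a1, a2, a3, a4, a5, a6, a7, a8, a9, a10, a11⟩ := h2
    refine ⟨r₀, h1, by linarith, by linarith, by linarith, by linarith, by linarith, by linarith,
      by linarith, by linarith, ?_, ?_, by linarith⟩
    · rw [le_div_iff₀ (by positivity)] at a9
      linarith
    · rw [le_div_iff₀ (by positivity)] at a10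
      linarith
  refine ⟨κ₀, hκ₀, r₀, hr₀, fun r hr hrr b hb x y o a1 a2 a3 a4 a5 nH nV lv hNr => ?_⟩
  have HB := H1 (2 * r) (by positivity) (by linarith)
  have HT := H2 (2 * r) (by positivity) (by linarith)
  obtain ⟨X, hX⟩ : ∃ X : ℝ, X = e * r := ⟨_, rfl⟩
  obtain ⟨E, hE⟩ : ∃ E : ℝ, E = η * (2 * r) := ⟨_, rfl⟩
  rw [← hX] at hNr ⊢
  rw [← hE] at HT
  have hX0 : 0 < X := by rw [hX]; positivity
  have hE0 : 0 < E := by rw [hE]; positivity
  have hEr : 100 * E ≤ r := by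
    rw [hE]
    nlinarith
  have hDE : 2000 * (D * E) ≤ X := by
    have h1 := mul_le_mul_of_nonneg_right hη2 hr.le
    have h2 : 2000 * (D * E) = 4000 * (D * η) * r := by rw [hE]; ring
    rw [h2, hX]
    exact h1
  have hXR : 8 * X ≤ R := by
    have h1 : e * r ≤ e * r₀ := mul_le_mul_of_nonneg_left hrr.le he.le
    rw [hX]
    linarith
  have hSr : 8 * ((Sg + 1) * r) ≤ R := by
    have h1 : (Sg + 1) * r ≤ (Sg + 1) * r₀ := mul_le_mul_of_nonneg_left hrr.le (by linarith)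
    linarith
  have hrR : 8 * r ≤ R := by nlinarith
  obtain ⟨φ, hφe⟩ : ∃ φ : ℝ, φ = X / (64 * ((d : ℝ) + 1) ^ 2) := ⟨_, rfl⟩
  have hφ : 64 * (((d : ℝ) + 1) ^ 2 * φ) = X := by
    rw [hφe]
    field_simp
  have hφ0 : 0 < φ := by rw [hφe]; positivity
  have hdφ : 20 * ((d : ℝ) + 1) * φ ≤ X := by
    have h1 : ((d : ℝ) + 1) * φ ≤ ((d : ℝ) + 1) ^ 2 * φ :=
      mul_le_mul_of_nonneg_right (by nlinarith) hφ0.le
    linarith
  have hD1 : (Sg + 1) * E ≤ D * E := by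
    refine mul_le_mul_of_nonneg_right ?_ hE0.le
    rw [hD]
    have h1 : (1 : ℝ) ≤ ((d : ℝ) + 1) ^ 2 * (n + 1) := by nlinarith [sq_nonneg (d : ℝ)]
    nlinarith
  have hD2 : (d : ℝ) * E ≤ D * E := by
    refine mul_le_mul_of_nonneg_right ?_ hE0.le
    rw [hD]
    have h1 : (d : ℝ) + 1 ≤ ((d : ℝ) + 1) ^ 2 * (n + 1) := by nlinarith [sq_nonneg (d : ℝ)]
    nlinarith
  have hD3 : (n : ℝ) * ((Sg + 1) * E) ≤ D * E := by
    have h1 : (n : ℝ) * ((Sg + 1) * E) = (n * (Sg + 1)) * E := by ring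
    rw [h1]
    refine mul_le_mul_of_nonneg_right ?_ hE0.le
    rw [hD]
    have h2 : (n : ℝ) ≤ ((d : ℝ) + 1) ^ 2 * (n + 1) := by nlinarith [sq_nonneg (d : ℝ)]
    exact mul_le_mul_of_nonneg_right h2 (by linarith)
  obtain ⟨w, v, oq, w1, w2, v1, v2, o3, o5, wv, vo, ⟨cw, cw1, cw2⟩, ⟨cv, cv1, cv2⟩,
    ⟨co, co1, co2⟩, cwv, cvo, x', hx', x1', x2'⟩ := idx_ex (s := s) (A := A) (x := x) (y := y)
      (o := o) h.cl HB hr (by linarith) hE hE0 hEr (by linarith) (by linarith) a3 a4 a5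
  have hbox := mk_box (κ₀ := κ₀) (φ := φ) (X := X) (b := b) (x := x) (y := y) (o := o)
    (wc := whG G A s w) (vc := whG G A s v) (oc := whG G A s oq) h.mn HB HT hr hE hE0 hEr hX0 hφ0
    hSg hgG hb a1 a2 a3 a4 a5 cw co (by linarith) (by linarith) (by linarith) (by linarith)
    (by linarith) (by linarith) cwv cvo (by linarith) (by linarith) hSr hκR hRg hRs hR₁s hdφ hNr
  obtain ⟨hdef, hdrop⟩ := hgr (2 * r) (by positivity) (by linarith)
  obtain ⟨C₀, htm⟩ := h.tm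
  have hEφ : E ≤ φ := by
    have h1 : ((d : ℝ) + 1) ^ 2 * E ≤ D * E := by
      refine mul_le_mul_of_nonneg_right ?_ hE0.le
      rw [hD]
      have h2 : (1 : ℝ) ≤ (n + 1) * (Sg + 1) := by nlinarith
      have h3 : 0 ≤ ((d : ℝ) + 1) ^ 2 := by positivity
      nlinarith
    have h4 : ((d : ℝ) + 1) ^ 2 * E ≤ ((d : ℝ) + 1) ^ 2 * φ := by linarith
    exact le_of_mul_le_mul_left h4 (by positivity)
  have ww : (i.a : ℝ) < w := by linarith
  have ob : (oq : ℝ) < i.b := by linarith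
  have hx1 : ∀ l < d, sn l x' - sn l (whG G A s oq) ≤ 3 * E := by
    intro l hl
    have h1 := (abs_le.1 (HB.sl _ co _ hx' (by linarith) (by linarith) (by linarith) l hl)).2
    rw [← hE] at h1
    linarith
  have hsum := sum_lo (sn := sn) (d := d) hE0.le hφ0.le hx1
  have nif := ni_fix ((h.vch hA).cut hadm.ha hadm.hb) lam0 hadm.ed
    ((h.tgc hA).cut hadm.ha hadm.hb) hadm.tg (hN i hadm) (w := w) (v := v) (o := oq) ww wv vo ob
    (by linarith) (hbox.nrD rfl rfl) (hbox.tgN rfl rfl) (fun l hl => ?_) (fun p p1 p2 => ?_)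
    (fun l hl p hp p1 p2 => ?_) hx' x1'
  · have hnix : NiX S c d k sn T nH nV (whG G A s w) ((w : ℝ) + s) ((v : ℝ) + s) (whG G A s v)
        (whG G A s oq) (X / 2) := by
      intro ε hε
      obtain ⟨κ₁, hκ₁, e₀, he₀, H⟩ := nif ε hε
      refine ⟨κ₁, hκ₁, e₀, he₀, fun K => Bas.mono 0 (H K) ?_⟩
      intro J _ F A' H V z V' z' hz hz' u u₁ pa hu hu₁ hpa
      refine (H V z V' z' hz hz' u u₁ pa hu hu₁ hpa).trans ?_
      have h1 := hdef w v oq (by linarith) wv vo (by linarith)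
      have h2 := hdrop w oq (by linarith) (wv.trans vo) (by linarith)
      have h3 : e / 16 * (2 * r) = X / 8 := by rw [hX]; ring
      rw [h3] at h1 h2
      refine add_le_add le_rfl (mul_le_mul_of_nonneg_right ?_ (Nat.cast_nonneg J))
      linarith
    refine NiW.mono ?_ (ni_real (φ := φ) (R := R) (κ₀ := κ₀) (X := X) (Sg := Sg) (E := E) htm h.pos
      h.ch h.att hbox (zw := (w : ℝ) + s) (zv := (v : ℝ) + s) (by linarith) (by linarith)
      (by linarith) (h.rn w (by linarith) (by linarith)) (h.rn v (by linarith) (by linarith)) hnix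
      (ε := X / 4) (by linarith))
    · have h5 : (n : ℝ) * (2 * (Sg * E) + E) ≤ 2 * (n * ((Sg + 1) * E)) := by
        have h6 : 0 ≤ (n : ℝ) * E := by positivity
        nlinarith
      linarith
  · have h1 := hadm.ed.nat w ww (by linarith) l hl
    have h2 := hNr.kv l hl
    have h3 := hbox.fl l hl _ (show whG G A s w ∈ ({b, whG G A s w, whG G A s oq} : Set ℝ) by simp)
      b (by simp)
    have h4 := hLvl l hl
    have h5 := hadm.ed.σ0
    linarith
  · obtain ⟨u, hu, u1, u2⟩ := HB.gap p (by linarith) (by linarith)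
    rw [← hE] at u1
    refine ⟨u, hu, ?_⟩
    rw [abs_le]
    constructor <;> linarith
  · have h1 := abs_le.1 (HB.sl p hp _ co (by linarith) p2 (by linarith) l hl)
    rw [← hE] at h1
    rw [abs_le]
    constructor <;> linarith [h1.1, h1.2]

end Pool.LP30
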