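import Pool.Agent.H30.LP.Nie

/-!
# No look-ahead given the near path, almost everywhere

`ni_ae`: in a subclass, `NiG` holds at almost every window of `G` where the levels of the chain have
the slope one and the levels of the targets have slopes between one and `Sg`.
-/

set_option autoImplicit false

namespace Pool.LP30

open Finset Real MvPolynomial MeasureTheory
open Pool.Agent.H49.Ent Pool.Agent.H32.Dense Pool.STK Pool.KA Pool.KSAT Pool.K2S Pool.PB Pool.S6C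
  Pool.GEN Pool.RCD Pool.LA91
open Pool.OWN83 (TwoRelS TRelS yX kn0_yX ae_shift)
open Pool.AVG96 (fl fl_mem fl_mono le_fl whG)

variable {m : ℕ} {S : PCl m} {c : ℕ → Fin m} {d : ℕ} {s A B : ℝ} {sn : ℕ → ℝ → ℝ}
  {G : Set ℝ} {n : ℕ} {k : Fin n → Fin m} {T : Fin n → ℝ → ℝ}

theorem NiC.sub (h : NiC S c d k sn T G s A B) {S' : PCl m} (hne : S'.Ne)
    (hs : ∀ (τ : ℝ) (J : ℕ) (F : Fam m J) (A : F.Ω → Prop), S'.St τ J F A → S.St τ J F A) :
    NiC S' c d k sn T G s A B where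
  ne := hne
  pos := fun τ J F A hA => h.pos τ J F A (hs τ J F A hA)
  tm := by
    obtain ⟨C₀, hC⟩ := h.tm
    exact ⟨C₀, fun τ J F A hτ hA => hC τ J F A hτ (hs τ J F A hA)⟩
  rn := fun w a b => by
    obtain ⟨η, hη⟩ := h.rn w a b
    exact ⟨η, hη.sub hs⟩
  cl := h.cl
  ch := h.ch.sub hs
  mn := h.mn
  att := fun i w hw => by
    obtain ⟨rk, h1, h2⟩ := h.att i w hw
    exact ⟨rk, h1, h2.sub hs⟩
  mT := h.mT
  B1 := h.B1

/-- **No look-ahead given the near path, at almost every window**, in a subclass. -/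
theorem ni_ae (h : NiC S c d k sn T G s A B) :
    ∃ S' : PCl m, S'.Ne ∧
      (∀ (τ : ℝ) (J : ℕ) (F : Fam m J) (A : F.Ω → Prop), S'.St τ J F A → S.St τ J F A) ∧
      ∀ᵐ g : ℝ, g ∈ G → A < g → g < B → (∀ l < d, sn l g < 1) → ∀ Sg : ℝ, 0 ≤ Sg →
        SlB sn d T G g Sg → TgB T g Sg → NiG S' c d k sn T G g := by
  by_cases hne : (G ∩ Set.Icc A B).Nonempty
  swap
  · refine ⟨S, h.ne, fun _ _ _ _ h => h, Filter.Eventually.of_forall fun g h1 h2 h3 => ?_⟩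
    exact absurd ⟨g, h1, h2.le, h3.le⟩ hne
  obtain ⟨u₀, hu₀⟩ : ∃ u₀, u₀ = sInf (G ∩ Set.Icc A B) := ⟨_, rfl⟩
  have hbd : BddBelow (G ∩ Set.Icc A B) := ⟨A, fun x hx => hx.2.1⟩
  have hum : u₀ ∈ G ∩ Set.Icc A B := by
    rw [hu₀]
    exact (h.cl.inter isClosed_Icc).csInf_mem hne hbd
  obtain ⟨a, ha⟩ : ∃ a, a = u₀ - s := ⟨_, rfl⟩
  have hA : ∃ u ∈ G, A ≤ u ∧ u ≤ a + s := ⟨u₀, hum.1, hum.2.1, by rw [ha]; linarith⟩
  obtain ⟨S', g1, g2, θ₀, θ, hN⟩ := ndq_cls (h.vch hA) (h.tgc hA)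
  refine ⟨S', g1, g2, ?_⟩
  have h' := h.sub g1 g2
  have h3 := ndq_ae (h'.vch hA) (h'.tgc hA) hN
  have h4 := ae_shift h3 s
  have h5 : ∀ᵐ g : ℝ, g ≠ u₀ := (measure_eq_zero_iff_ae_notMem.1 (measure_singleton u₀)).mono
    fun g hg he => hg (by rw [he]; exact Set.mem_singleton u₀)
  filter_upwards [h4, h5] with g h6 h7 hgG hAg hgB s1 Sg hSg hsl htg
  have h8 : u₀ < g := lt_of_le_of_ne (by
    rw [hu₀]
    exact csInf_le hbd ⟨hgG, hAg.le, hgB.le⟩) (Ne.symm h7)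
  exact ni_box h' hA hN hgG hAg hgB s1 hSg hsl htg fun e he =>
    h6 (cr_of h.cl hgG hAg (hgB.trans h.B1) s1 hSg hsl (by rw [ha]; linarith) (by linarith)) e he

end Pool.LP30
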