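import Pool.Agent.H30.LP.Ipa

/-!
# No look-ahead given the near path

`NrD`: the digits of the near path. `ni_fix`: given the near path over the charts of the window `w`,
the record at the window `v` does not see the velocities of the targets behind the natural digits of
`v`, up to the defects of the numbers.
-/

set_option autoImplicit false

namespace Pool.LP30

open Finset Real MvPolynomial
open Pool.Agent.H49.Ent Pool.Agent.H32.Dense Pool.STK Pool.KA Pool.KSAT Pool.K2S Pool.PB Pool.S6C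
  Pool.GEN Pool.RCD Pool.LA91
open Pool.OWN83 (TwoRelS TRelS yX kn0_yX)
open Pool.OWN68 (cl2_vg)

variable {m : ℕ} {S : PCl m}

/-- **The digits of the near path** over the charts of the index `w`, up to the index `o`: `lv l` is
the excess of the coordinate `l`. -/
structure NrD (wh : ℚ → ℝ) (sn : ℕ → ℝ → ℝ) (d : ℕ) (nH nV lv : ℕ → ℝ) (σ₀ φ : ℝ) (w o : ℚ) :
    Prop where
  σ0 : 0 < σ₀
  φ0 : 0 < φ
  lv0 : ∀ l < d, 0 < lv l
  h : ∀ l < d, sn l (wh o) + lv l + σ₀ ≤ nH l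
  v : ∀ l < d, sn l (wh o) + lv l + σ₀ ≤ nV l + wh o
  r : ∀ l < d, sn l (wh o) + lv l + σ₀ ≤ sn l (wh w) + (1 - wh o)
  s : ∀ l < d, ∀ l' < l, sn l (wh o) + lv l + σ₀ ≤ sn l (wh w) + lv l'
  h1 : ∀ l < d, nH l ≤ 1
  t0 : ∀ l < d, nH l - sn l (wh w) + 20 * ((d : ℝ) + 1) * φ ≤ 1 - wh w
  t1 : ∀ l < d, ∀ l' < l, nH l - sn l (wh w) + 20 * ((d : ℝ) + 1) * φ ≤ 1 - sn l' (wh w)

/-- The targets are behind the near path. -/
structure TgN (wh : ℚ → ℝ) (d : ℕ) (lv : ℕ → ℝ) (σ₀ : ℝ) {n : ℕ} (tl : Fin n → ℚ → ℝ) (w o : ℚ) :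
    Prop where
  t1 : ∀ i, tl i o + σ₀ ≤ tl i w + (1 - wh o)
  t2 : ∀ i, ∀ l < d, tl i o + σ₀ ≤ tl i w + lv l

section

variable {c : ℕ → Fin m} {d : ℕ} {s a b lam : ℝ} {wh : ℚ → ℝ} {sn : ℕ → ℝ → ℝ} {G : Set ℝ}
  {n : ℕ} {k : Fin n → Fin m} {tl : Fin n → ℚ → ℝ}

theorem NrD.htN {nH nV lv : ℕ → ℝ} {σ₀ φ : ℝ} {w o : ℚ} (h : NrD wh sn d nH nV lv σ₀ φ w o)
    (mn : ∀ l < d, sn l (wh w) ≤ sn l (wh o)) :
    HtN d (fun l => sn l (wh w)) (wh w) φ (fun l => sn l (wh w)) nH where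
  hp := fun i _ => by linarith [h.φ0]
  lo := fun i hi => by linarith [h.φ0, h.h i hi, mn i hi, h.lv0 i hi, h.σ0]
  hi := h.h1
  t0 := h.t0
  t1 := h.t1

/-- **The velocities of the targets given the near path** and the record at `o`. -/
theorem few_tgN (h : VCh S (fun J F => ptr F J) (yX ((range d).image c)) c d s a b wh sn G)
    (hT : TgC S c d wh a b k tl) {w v o : ℚ} (hw : a < w) (hwv : w ≤ v) (hvo : v ≤ o)
    (ho : (o : ℝ) < b) {nH nV lv : ℕ → ℝ} {σ₀ φ : ℝ} (hr : NrD wh sn d nH nV lv σ₀ φ w o)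
    (ht : TgN wh d lv σ₀ tl w o) :
    Few S (fun J F => ptr F J) (vg ((o : ℝ) + s)) (fun _ F => F.W)
      (paQ m c d (wh w) (fun l => sn l (wh w)) nH nV) (tgQ m c d k wh tl w v) := by
  have hwv' : (w : ℝ) ≤ v := by exact_mod_cast hwv
  have hvo' : (v : ℝ) ≤ o := by exact_mod_cast hvo
  have oa : a < o := by linarith
  obtain ⟨C₀, htm⟩ := h.tm
  have hg := (h.wg o oa ho)
  refine Few.up h.pos (fun J F => ⟨fun x => x, fun _ => rfl⟩)
    (fun J F => vg_mono hg.2 (by linarith [h.b1]) J F)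
    (fun J F => ⟨fun x => x, fun _ => rfl⟩) (few_pi h.pos fun i => ?_)
  obtain ⟨rk, x1, x2⟩ := hT.att i o oa ho
  have e1 := hT.mono i v o (by linarith) hvo ho
  have e2 := hT.mono i w o hw (hwv.trans hvo) ho
  have e3 := h.wm w o hw (hwv.trans hvo) ho
  have e4 := ht.t1 i
  exact few_tgW htm h.pos h.ch (fun J F => ⟨fun x => x, fun _ => rfl⟩) kn_W hg.1 e3 x1 x2
    hr.σ0 hr.lv0 (fun l hl => h.mn l hl w o hw (hwv.trans hvo) ho) hr.h hr.v hr.r hr.s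
    (by linarith) (by linarith) (by linarith) fun l hl => by linarith [ht.t2 i l hl]

/-- **No look-ahead given the near path**, at given windows. -/
theorem ni_fix (h : VCh S (fun J F => ptr F J) (yX ((range d).image c)) c d s a b wh sn G)
    {N lv₀ : ℕ → ℝ} {σ₁ : ℝ} (hlam : 0 < lam) (hE : EdS wh sn d N lv₀ σ₁ a b lam)
    (hT : TgC S c d wh a b k tl) (hS : TgS wh d lv₀ σ₁ a b lam tl) {θ₀ : ℚ → ℝ}
    {θ : ℚ → ℚ → ℝ} (hR : TRelS S (fun J F => ptr F J) (yX ((range d).image c)) s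
      (vlQ m c d wh sn N) (tgQ m c d k wh tl) a b lam θ₀ θ)
    {w v o : ℚ} (hw : a < w) (hwv : w ≤ v) (hvo : v ≤ o) (ho : (o : ℝ) < b)
    (hl : (o : ℝ) < w + lam) {nH nV lv : ℕ → ℝ} {σ₀ φ : ℝ}
    (hr : NrD wh sn d nH nV lv σ₀ φ w o) (ht : TgN wh d lv σ₀ tl w o)
    (hNV : ∀ l < d, nV l ≤ N l)
    (hgap : ∀ x, wh w ≤ x → x ≤ wh o → ∃ v' ∈ G, |v' - x| ≤ φ)
    (hfl : ∀ i < d, ∀ x ∈ G, wh w ≤ x → x ≤ wh o → |(sn i x - x) - (sn i (wh o) - wh o)| ≤ 2 * φ)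
    {x' : ℝ} (hx' : x' ∈ G) (hox' : (o : ℝ) + s ≤ x') :
    ∀ ε : ℝ, 0 < ε → ∃ κ : ℝ, 0 < κ ∧ ∃ e₀ : ℝ, 0 < e₀ ∧ ∀ K : ℕ, Bas S (fun J F A =>
      ∀ (V : Type) (z : F.Ω → V) (V' : Type) (z' : F.Ω → V'),
      Mx (fun J F => ptr F J) (vg ((w : ℝ) + s)) κ F A z →
      Mx (fun J F => ptr F J) (vg ((v : ℝ) + s)) κ F A z' →
      ∀ u u₁ pa, (tgQ m c d k wh tl w o).P K e₀ J F A u →
      (tgQ m c d k wh tl w v).P K e₀ J F A u₁ →
      (paQ m c d (wh w) (fun l => sn l (wh w)) nH nV).P K e₀ J F A pa →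
      CH (Pool.Agent.H49.Ent.cond F.p A True) u (fun ω => (u₁ ω, (pa ω, (z ω, F.W ω)))) ≤
        CH (Pool.Agent.H49.Ent.cond F.p A True) u (fun ω => (pa ω, (z' ω, F.W ω))) +
          ((θ w o - θ w v - θ v o) + (θ₀ w - θ₀ o) +
            ∑ i ∈ range d, (sn i x' - sn i (wh o) + 8 * ((i : ℝ) + 1) * φ) * Real.log 2 + ε) * J) := by
  intro cc hcc
  obtain ⟨ε, hε, hεc⟩ : ∃ ε : ℝ, 0 < ε ∧ 20 * ε = cc := ⟨cc / 20, by positivity, by ring⟩
  have hwv' : (w : ℝ) ≤ v := by exact_mod_cast hwv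
  have hvo' : (v : ℝ) ≤ o := by exact_mod_cast hvo
  have hwo := hwv.trans hvo
  have oa : a < o := by linarith
  have va : a < v := by linarith
  have vb : (v : ℝ) < b := by linarith
  have wb : (w : ℝ) < b := by linarith
  have ob1 : (o : ℝ) + s < 1 := by linarith [h.b1]
  have gw := h.wg w hw wb
  have go := h.wg o oa ho
  have wo := h.wm w o hw hwo ho
  obtain ⟨C₀, htm⟩ := h.tm
  obtain ⟨u₂, rd, hrd, hch⟩ := h.ch.ch _ gw.1
  have hfp : ∀ (J : ℕ) (F : Fam m J), ∃ χ : PtT F → PtT F, ∀ ω, ptr F J ω = χ (ptr F J ω) :=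
    fun J F => ⟨fun x => x, fun _ => rfl⟩
  have hHt := hr.htN fun l hl => h.mn l hl w o hw hwo ho
  -- the numbers
  obtain ⟨k1, hk1, e1, he1, H1⟩ := (rel_V h hlam hE hT hS).la h.pos hR hw hwv hvo ho hl ε hε
  obtain ⟨k2, hk2, e2, he2, H2⟩ := hR.n₀ w hw wb ε hε
  obtain ⟨k3, hk3, e3, he3, H3⟩ := hR.n₀ o oa ho ε hε
  -- the near path
  have q4 := few_pa h hlam hE hw wb (nV := nV) hr.φ0 hHt hNV
  obtain ⟨e4, he4, H4⟩ := q4.mx h.pos ε hε
  have q5 := Few.up h.pos (f' := fun J F => ptr F J) (g' := vg ((v : ℝ) + s))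
    (y' := yX ((range d).image c)) (fun J F => ⟨fun x => x, fun _ => rfl⟩)
    (fun J F => vg_mono (by linarith) (by linarith) J F) (fun J F => ⟨fun x => x, fun _ => rfl⟩) q4
  obtain ⟨e5, he5, H5⟩ := q5.mx h.pos ε hε
  obtain ⟨e6, he6, H6⟩ := (few_tgN h hT hw hwo le_rfl ho hr ht).mx h.pos ε hε
  obtain ⟨e7, he7, H7⟩ := (few_tgN h hT hw hwv hvo ho hr ht).mx h.pos ε hε
  -- the positions
  have q8 := FewC.up h.pos (f' := fun J F => ptr F J) (g' := vg ((w : ℝ) + s)) (y' := fun _ F => F.W)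
    (fun J F => ⟨fun x => x, fun _ => rfl⟩)
    (fun J F => vg_mono gw.2 (by linarith) J F) (fun J F => ⟨fun x => x, fun _ => rfl⟩)
    (fewC_jPos (f := fun J F => ptr F J) (y := fun _ F => F.W) htm h.pos hfp kn_W hch hr.φ0 hHt
      le_rfl)
  obtain ⟨e8, he8, H8⟩ := q8.mx h.pos ε hε
  have q9 := fewC_ht (f := fun J F => ptr F J) (y := fun _ F => F.W) htm h.pos h.ch hfp kn_W gw.1
    go.1 wo go.2 (by linarith) hr.φ0 hgap hfl (p := fun l => sn l (wh w)) (n := nH)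
    (fun i _ => by linarith [hr.φ0]) (fun i hi => by linarith [hr.h i hi, hr.lv0 i hi, hr.σ0])
  obtain ⟨e9, he9, H9⟩ := q9.mx h.pos ε hε
  have H10 := ful_x h.pos h.ch hx' hox' hε
  -- the velocities at the last window
  obtain ⟨e11, he11, H11⟩ := (V_back h hE hw hwo ho hl).mx h.pos ε hε
  obtain ⟨e₀, he₀, l1, l2, l3, l4, l5, l6, l7, l8, l9, l11⟩ : ∃ e₀ : ℝ, 0 < e₀ ∧ e₀ ≤ e1 ∧
      e₀ ≤ e2 ∧ e₀ ≤ e3 ∧ e₀ ≤ e4 ∧ e₀ ≤ e5 ∧ e₀ ≤ e6 ∧ e₀ ≤ e7 ∧ e₀ ≤ e8 ∧ e₀ ≤ e9 ∧ e₀ ≤ e11 := by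
    refine ⟨min (min (min e1 e2) (min e3 e4)) (min (min (min e5 e6) (min e7 e8)) (min e9 e11)),
      by positivity, ?_, ?_, ?_, ?_, ?_, ?_, ?_, ?_, ?_, ?_⟩ <;> simp
  obtain ⟨κ, hκ, m1, m2, m3, m4⟩ : ∃ κ : ℝ, 0 < κ ∧ κ ≤ k1 ∧ κ ≤ k2 ∧ κ ≤ k3 ∧ κ ≤ ε / 2 :=
    ⟨min (min k1 k2) (min k3 (ε / 2)), by positivity, by simp, by simp, by simp, by simp⟩
  obtain ⟨K₁, M₁, X1⟩ := exs_vl h hw wb N e₀ he₀
  obtain ⟨K₂, M₂, X2⟩ := exs_vl h oa ho N e₀ he₀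
  refine ⟨κ, hκ, e₀, he₀, fun K => ?_⟩
  obtain ⟨L, hL0, hL1, hL2⟩ : ∃ L : ℕ, K ≤ L ∧ K₁ ≤ L ∧ K₂ ≤ L :=
    ⟨max K (max K₁ K₂), le_max_left _ _, (le_max_left _ _).trans (le_max_right _ _),
      (le_max_right _ _).trans (le_max_right _ _)⟩
  obtain ⟨η, hη⟩ := h.rn o oa ho
  refine Bas.mono 0 (((((H1 L).and (H2 L)).and ((H3 L).and (H4 L))).and
    (((H5 L).and (H6 L)).and ((H7 L).and (H8 L)))).and
    ((((H9 L).and H10).and (mx_ex h.pos hη κ hκ)).and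
      (((H11 L).and (pos_bas h.pos)).and (X1.and X2)))) ?_
  rintro J - F A ⟨⟨⟨⟨H1, H2⟩, H3, H4⟩, ⟨H5, H6⟩, H7, H8⟩, ⟨⟨H9, H10⟩, Vo, zo, hzo⟩, ⟨H11, hA⟩,
    ⟨e, he, -⟩, eo, heo, -⟩ V z V' z' hz hz' u u₁ pa hu hu₁ hpa
  have hcl := isLaw_cond F.isLaw hA
  have hJ0 : (0 : ℝ) ≤ J := Nat.cast_nonneg J
  have he := (vlQ m c d wh sn N w).mono hL1 le_rfl he
  have heo := (vlQ m c d wh sn N o).mono hL2 le_rfl heo
  have hu := (tgQ m c d k wh tl w o).mono hL0 le_rfl hu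
  have hu₁ := (tgQ m c d k wh tl w v).mono hL0 le_rfl hu₁
  have hpa := (paQ m c d (wh w) (fun l => sn l (wh w)) nH nV).mono hL0 le_rfl hpa
  have hht := htO_P hpa
  -- the record at the last window
  have hZ : Mx (fun J F => ptr F J) (vg ((o : ℝ) + s)) κ F A (fun ω => (z ω, zo ω)) :=
    hz.join hA ⟨fun x => x, fun _ => rfl⟩ (vg_mono (by linarith) (by linarith) J F) hzo
  have r1 := H1 V z V' z' (hz.le' m1) (hz'.le' m1) e u u₁
    ((vlQ m c d wh sn N w).mono le_rfl l1 he) ((tgQ m c d k wh tl w o).mono le_rfl l1 hu)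
    ((tgQ m c d k wh tl w v).mono le_rfl l1 hu₁)
  have r2 := (abs_le.1 (H2 V z (hz.le' m2) e ((vlQ m c d wh sn N w).mono le_rfl l2 he))).2
  have r3 := (abs_le.1 (H3 _ _ (hZ.le' m3) eo ((vlQ m c d wh sn N o).mono le_rfl l3 heo))).1
  have r4 := H4 V z (hz.le' m4) e pa ((vlQ m c d wh sn N w).mono le_rfl l4 he)
    ((paQ m c d _ _ nH nV).mono le_rfl l4 hpa)
  have r5 := H5 V' z' (hz'.le' m4) e pa ((vlQ m c d wh sn N w).mono le_rfl l5 he)
    ((paQ m c d _ _ nH nV).mono le_rfl l5 hpa)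
  have r6 := H6 _ _ (hZ.le' m4) pa u ((paQ m c d _ _ nH nV).mono le_rfl l6 hpa)
    ((tgQ m c d k wh tl w o).mono le_rfl l6 hu)
  have r7 := H7 _ _ (hZ.le' m4) pa u₁ ((paQ m c d _ _ nH nV).mono le_rfl l7 hpa)
    ((tgQ m c d k wh tl w v).mono le_rfl l7 hu₁)
  have r8 := H8 V z (hz.le' m4) (fun ω => htO (pa ω)) (fun ω => fun l : Fin d => F.X J ω (c l))
    ((htQ m c d _ _ nH).mono le_rfl l8 hht) (fun ω _ => rfl)
  have r9 := H9 _ _ (hZ.le' m4) (fun _ => ()) (fun ω => htO (pa ω)) (fun ω _ => rfl)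
    ((htQ m c d _ _ nH).mono le_rfl l9 hht)
  have r10 := H10 _ _ hZ.1
  have r11 := H11 _ _ (hZ.le' m4) e eo ((vlQ m c d wh sn N w).mono le_rfl l11 he)
    ((vlQ m c d wh sn N o).mono le_rfl l11 heo)
  have r9' : CH (Pool.Agent.H49.Ent.cond F.p A True) (fun ω => htO (pa ω))
      (fun ω => ((z ω, zo ω), F.W ω)) ≤
      CH (Pool.Agent.H49.Ent.cond F.p A True) (fun ω => htO (pa ω))
        (fun ω => ((), ((z ω, zo ω), F.W ω))) :=
    CH_mono_cond hcl.nonneg fun ω ω' _ _ hh => Prod.ext rfl hh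
  have t1 : CH (Pool.Agent.H49.Ent.cond F.p A True) e
      (fun ω => (z ω, yX ((range d).image c) J F ω)) ≤ (θ₀ w + ε) * J := by linarith
  have t2 : (θ₀ o - ε) * J ≤ CH (Pool.Agent.H49.Ent.cond F.p A True) eo
      (fun ω => ((z ω, zo ω), yX ((range d).image c) J F ω)) := by linarith
  have key := ni_ent hcl.nonneg (q := Pool.Agent.H49.Ent.cond F.p A True) (u := u) (u₁ := u₁)
    (e := e) (eo := eo) (pa := pa) (hh := fun ω => htO (pa ω))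
    (x := fun ω => fun l : Fin d => F.X J ω (c l)) (y := yX ((range d).image c) J F) (w := F.W)
    (z := z) (z' := z') (zo := zo) (fun ω ω' _ _ hh => congrArg htO hh) ?_ ?_ r1 r4 r5 r6 r7 r8 r10
    (r9'.trans r9) t1 t2 r11
  · refine key.trans (le_of_sub_nonneg ?_)
    have s1 : (∑ i ∈ range d, (sn i x' - sn i (wh o) + 8 * ((i : ℝ) + 1) * φ) * Real.log 2) * J =
        (∑ i ∈ range d, (1 - nH i) * Real.log 2) * J -
        ∑ i ∈ range d, (1 - sn i x') * Real.log 2 * J +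
        (∑ i ∈ range d, (nH i - sn i (wh o) + 8 * ((i : ℝ) + 1) * φ) * Real.log 2) * J := by
      simp only [Finset.sum_mul]
      rw [← Finset.sum_sub_distrib, ← Finset.sum_add_distrib]
      refine Finset.sum_congr rfl fun i _ => ?_
      ring
    have s2 : 0 ≤ ε * J := by positivity
    have s3 : cc * J = 20 * (ε * J) := by rw [← hεc]; ring
    generalize (∑ i ∈ range d, (sn i x' - sn i (wh o) + 8 * ((i : ℝ) + 1) * φ) * Real.log 2) = T at *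
    generalize (∑ i ∈ range d, (1 - nH i) * Real.log 2) = T₁ at *
    generalize (∑ i ∈ range d, (1 - sn i x') * Real.log 2 * J) = T₂ at *
    generalize (∑ i ∈ range d, (nH i - sn i (wh o) + 8 * ((i : ℝ) + 1) * φ) * Real.log 2) = T₃ at *
    have s4 : (θ w o - θ w v - θ v o + (θ₀ w - θ₀ o) + T + cc) * J =
      (θ w o - θ w v - θ v o) * J + θ₀ w * J - θ₀ o * J + T * J + cc * J := by ring
    have s5 : (θ w o - θ w v - θ v o + ε) * J = (θ w o - θ w v - θ v o) * J + ε * J := by ring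
    have s6 : (T₁ + ε) * J = T₁ * J + ε * J := by ring
    have s7 : (T₃ + ε) * J = T₃ * J + ε * J := by ring
    have s8 : (θ₀ w + ε) * J = θ₀ w * J + ε * J := by ring
    have s9 : (θ₀ o - ε) * J = θ₀ o * J - ε * J := by ring
    have s10 : 5 * (ε * J) = 5 * (ε * J) := rfl
    rw [s4, s5, s6, s7, s8, s9, s1, s3]
    linarith
  · intro ω ω' _ _ hh
    have h1 := Prod.ext_iff.mp hh
    refine Prod.ext (funext fun i => ?_) h1.2
    show (if i ∈ (range d).image c then F.X J ω i else 0) =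
      if i ∈ (range d).image c then F.X J ω' i else 0
    split_ifs with hi
    · obtain ⟨l, hl, rfl⟩ := mem_image.1 hi
      exact congrFun h1.1 ⟨l, mem_range.1 hl⟩
    · rfl
  · intro ω ω' _ _ hh
    have h1 := Prod.ext_iff.mp hh
    refine Prod.ext (funext fun l => ?_) h1.2
    have h2 := congrFun h1.1 (c l)
    have h3 : (if c l ∈ (range d).image c then F.X J ω (c l) else 0) =
      if c l ∈ (range d).image c then F.X J ω' (c l) else 0 := h2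
    rw [if_pos (mem_image_of_mem c (mem_range.2 l.2)),
      if_pos (mem_image_of_mem c (mem_range.2 l.2))] at h3
    exact h3

end

end Pool.LP30
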