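import Pool.Agent.H30.LP.Ipn
import Pool.Agent.H96.AVG.Gch

/-!
# Good data near a point of slopes one

`SlB`: near `g` the levels of the chain have the slope one on `G`, the levels of the targets have
bounded slopes, and `G` has small gaps. `bx_fl`: the windows of the charts of the indices. `cr_of`:
there are good data on arbitrarily small intervals.
-/

set_option autoImplicit false

namespace Pool.LP30

open Finset Real MvPolynomial
open Pool.Agent.H49.Ent Pool.Agent.H32.Dense Pool.STK Pool.KA Pool.KSAT Pool.K2S Pool.PB Pool.S6C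
  Pool.GEN Pool.RCD Pool.LA91
open Pool.AVG96 (fl fl_mem fl_mono le_fl whG)

/-- **The levels in a box** of radius `t` around `g`, error `η t`. -/
structure Bx0 (sn : ℕ → ℝ → ℝ) (d : ℕ) {n : ℕ} (T : Fin n → ℝ → ℝ) (G : Set ℝ) (g Sg η t : ℝ) :
    Prop where
  sl : ∀ w ∈ G, ∀ v ∈ G, g - t ≤ w → w ≤ v → v ≤ g + t → ∀ l < d,
    |sn l v - sn l w - (v - w)| ≤ η * t
  tg : ∀ w ∈ G, ∀ v ∈ G, g - t ≤ w → w ≤ v → v ≤ g + t → ∀ i, T i v - T i w ≤ Sg * (v - w) + η * t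
  gap : ∀ x, g - t ≤ x → x ≤ g + t → ∃ u ∈ G, x - η * t ≤ u ∧ u ≤ x

/-- The levels near `g`. -/
def SlB (sn : ℕ → ℝ → ℝ) (d : ℕ) {n : ℕ} (T : Fin n → ℝ → ℝ) (G : Set ℝ) (g Sg : ℝ) : Prop :=
  ∀ η : ℝ, 0 < η → ∃ ρ : ℝ, 0 < ρ ∧ ∀ t : ℝ, 0 < t → t < ρ → Bx0 sn d T G g Sg η t

section

variable {sn : ℕ → ℝ → ℝ} {d n : ℕ} {T : Fin n → ℝ → ℝ} {G : Set ℝ} {A s g Sg η t : ℝ}

/-- The window of the charts of the index `w`. -/
theorem bx_fl (hG : IsClosed G) (h : Bx0 sn d T G g Sg η t) (hη : η ≤ 1) (ht : 0 < t)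
    (hA : A ≤ g - 2 * t) {w : ℚ} (h1 : g - t ≤ (w : ℝ) + s) (h2 : (w : ℝ) + s ≤ g + t) :
    whG G A s w ∈ G ∧ (w : ℝ) + s - η * t ≤ whG G A s w ∧ whG G A s w ≤ w + s := by
  obtain ⟨u, hu, u1, u2⟩ := h.gap _ h1 h2
  have u3 : η * t ≤ 1 * t := mul_le_mul_of_nonneg_right hη ht.le
  have u4 : A ≤ u := by linarith
  obtain ⟨m1, m2, m3⟩ := fl_mem (x := (w : ℝ) + s) hG ⟨u, hu, u4, u2⟩
  have m4 : u ≤ fl G A ((w : ℝ) + s) := le_fl hu u4 u2
  exact ⟨m1, by show _ ≤ fl G A ((w : ℝ) + s); linarith, m3⟩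

theorem bx_mono (h : Bx0 sn d T G g Sg η t) (hη : η ≤ 1) (ht : 0 < t)
    (hA : A ≤ g - 2 * t) {w v : ℚ} (h1 : g - t ≤ (w : ℝ) + s) (h2 : (w : ℝ) + s ≤ g + t)
    (hwv : w ≤ v) : whG G A s w ≤ whG G A s v := by
  obtain ⟨u, hu, u1, u2⟩ := h.gap _ h1 h2
  have u3 : η * t ≤ 1 * t := mul_le_mul_of_nonneg_right hη ht.le
  have u4 : A ≤ u := by linarith
  have : (w : ℝ) ≤ v := by exact_mod_cast hwv
  exact fl_mono ⟨u, hu, u4, u2⟩ (by linarith)

/-- **Good data on arbitrarily small intervals.** -/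
theorem cr_of {a b : ℝ} (hG : IsClosed G) (hgG : g ∈ G) (hA : A < g) (g1 : g < 1)
    (s1 : ∀ l < d, sn l g < 1) (hSg : 0 ≤ Sg) (h : SlB sn d T G g Sg) (ha : a < g - s)
    (hb : g - s < b) :
    CrE (whG G A s) sn d (fun i w => T i (whG G A s w)) a b (g - s) := by
  intro ε hε δ₀ hδ₀
  have hl2 : 0 < Real.log 2 := Real.log_pos one_lt_two
  have hd0 : (0 : ℝ) ≤ d := Nat.cast_nonneg d
  -- the constants
  obtain ⟨κ, hκ, hκ1, hκ2⟩ : ∃ κ : ℝ, 0 < κ ∧ κ ≤ 1 ∧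
      d * (Real.log 2 * ((4 * d + 4) * κ)) ≤ ε := by
    refine ⟨min 1 (ε / (d * (Real.log 2 * (4 * d + 4)) + 1)), by positivity, min_le_left _ _, ?_⟩
    have e1 := min_le_right 1 (ε / (d * (Real.log 2 * (4 * d + 4)) + 1))
    have e2 : 0 ≤ d * (Real.log 2 * (4 * d + 4)) := by positivity
    have e3 := mul_le_mul_of_nonneg_left e1 e2
    have e4 : d * (Real.log 2 * (4 * d + 4)) * (ε / (d * (Real.log 2 * (4 * d + 4)) + 1)) ≤ ε := by
      rw [mul_div_assoc', div_le_iff₀ (by positivity)]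
      nlinarith
    have e5 : d * (Real.log 2 * ((4 * d + 4) * min 1 (ε / (d * (Real.log 2 * (4 * d + 4)) + 1)))) =
        d * (Real.log 2 * (4 * d + 4)) * min 1 (ε / (d * (Real.log 2 * (4 * d + 4)) + 1)) := by ring
    rw [e5]
    exact e3.trans e4
  obtain ⟨η, hη, hηκ⟩ : ∃ η : ℝ, 0 < η ∧ 1000 * ((Sg + 1) * η) = κ :=
    ⟨κ / (1000 * (Sg + 1)), by positivity, by field_simp⟩
  have hη1 : η ≤ 1 := by nlinarith
  obtain ⟨ρ, hρ, H⟩ := h η hη
  -- the room at `g`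
  obtain ⟨R, hR, hRg, hRs⟩ : ∃ R : ℝ, 0 < R ∧ R ≤ 1 - g ∧ ∀ l < d, R ≤ 1 - sn l g := by
    have : ∀ D ≤ d, ∃ R : ℝ, 0 < R ∧ R ≤ 1 - g ∧ ∀ l < D, R ≤ 1 - sn l g := by
      intro D
      induction D with
      | zero => exact fun _ => ⟨1 - g, by linarith, le_rfl, fun l hl => absurd hl (Nat.not_lt_zero l)⟩
      | succ D ih =>
        intro hD
        obtain ⟨R, r1, r2, r3⟩ := ih (by omega)
        refine ⟨min R (1 - sn D g), lt_min r1 (by linarith [s1 D (by omega)]),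
          (min_le_left _ _).trans r2, fun l hl => ?_⟩
        rcases Nat.lt_succ_iff_lt_or_eq.1 hl with hl | rfl
        · exact (min_le_left _ _).trans (r3 l hl)
        · exact min_le_right _ _
    exact this d le_rfl
  obtain ⟨δ, hδ, k0, k1, k2, k3, k4, k5⟩ : ∃ δ : ℝ, 0 < δ ∧ δ ≤ δ₀ ∧ 3 * δ < ρ ∧ a ≤ g - s - 2 * δ ∧
      g - s + 2 * δ ≤ b ∧ A ≤ g - 6 * δ ∧ (8 * d + 20) * δ ≤ R := by
    refine ⟨min (min δ₀ (ρ / 4)) (min (min ((g - s - a) / 2) ((b - (g - s)) / 2))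
      (min ((g - A) / 6) (R / (8 * d + 20)))), ?_, ?_, ?_, ?_, ?_, ?_, ?_⟩
    · have x1 : 0 < g - s - a := by linarith
      have x2 : 0 < b - (g - s) := by linarith
      have x3 : 0 < g - A := by linarith
      positivity
    · exact (min_le_left _ _).trans (min_le_left _ _)
    · have := (min_le_left (min δ₀ (ρ / 4)) (min (min ((g - s - a) / 2) ((b - (g - s)) / 2))
        (min ((g - A) / 6) (R / (8 * d + 20))))).trans (min_le_right _ _)
      linarith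
    · have := (min_le_right (min δ₀ (ρ / 4)) (min (min ((g - s - a) / 2) ((b - (g - s)) / 2))
        (min ((g - A) / 6) (R / (8 * d + 20))))).trans ((min_le_left _ _).trans (min_le_left _ _))
      linarith
    · have := (min_le_right (min δ₀ (ρ / 4)) (min (min ((g - s - a) / 2) ((b - (g - s)) / 2))
        (min ((g - A) / 6) (R / (8 * d + 20))))).trans ((min_le_left _ _).trans (min_le_right _ _))
      linarith
    · have := (min_le_right (min δ₀ (ρ / 4)) (min (min ((g - s - a) / 2) ((b - (g - s)) / 2))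
        (min ((g - A) / 6) (R / (8 * d + 20))))).trans ((min_le_right _ _).trans (min_le_left _ _))
      linarith
    · have := (min_le_right (min δ₀ (ρ / 4)) (min (min ((g - s - a) / 2) ((b - (g - s)) / 2))
        (min ((g - A) / 6) (R / (8 * d + 20))))).trans ((min_le_right _ _).trans (min_le_right _ _))
      calc _ ≤ (8 * d + 20) * (R / (8 * d + 20)) := mul_le_mul_of_nonneg_left this (by positivity)
        _ = R := by field_simp
  have HB := H (3 * δ) (by positivity) k1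
  obtain ⟨μ, hμ⟩ : ∃ μ : ℝ, μ = κ * δ := ⟨_, rfl⟩
  have hμ0 : 0 < μ := by rw [hμ]; positivity
  have hμδ : μ ≤ δ := by rw [hμ]; nlinarith
  obtain ⟨E, hE⟩ : ∃ E : ℝ, E = η * (3 * δ) := ⟨_, rfl⟩
  have hE0 : 0 < E := by rw [hE]; positivity
  have hSE : 1000 * ((Sg + 1) * E) = 3 * μ := by
    rw [hE, hμ, ← hηκ]
    ring
  have hE1 : 1000 * E ≤ 3 * μ := by nlinarith
  have hSE' : 1000 * (Sg * E) ≤ 3 * μ := by nlinarith
  obtain ⟨x, hx, hxμ⟩ : ∃ x : ℝ, 0 < x ∧ 8 * ((Sg + 1) * x) = μ :=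
    ⟨μ / (8 * (Sg + 1)), by positivity, by field_simp⟩
  obtain ⟨lam, lam0, lam1⟩ := exists_rat_btwn hx
  obtain ⟨σ₀, σ00, σ01⟩ := exists_rat_btwn (show (0 : ℝ) < μ / 100 by positivity)
  obtain ⟨aq, a1, a2⟩ := exists_rat_btwn (show g - s - 2 * δ < g - s - δ by linarith)
  obtain ⟨bq, b1, b2⟩ := exists_rat_btwn (show g - s + δ < g - s + 2 * δ by linarith)
  have hlv : ∀ l : Fin d, ∃ q : ℚ, 4 * ((d : ℝ) - l) * μ < q ∧ (q : ℝ) < 4 * ((d : ℝ) - l) * μ + μ / 8 :=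
    fun l => exists_rat_btwn (by linarith)
  choose lv lv1 lv2 using hlv
  have hN : ∀ l : Fin d, ∃ q : ℚ, sn l g - g + lv l + μ / 2 < q ∧ (q : ℝ) < sn l g - g + lv l + μ :=
    fun l => exists_rat_btwn (by linarith)
  choose N N1 N2 using hN
  have hSl : Sg * lam ≤ μ / 8 := by nlinarith
  have hlm : (lam : ℝ) ≤ μ / 8 := by nlinarith
  -- the windows of the charts
  have W : ∀ w : ℚ, (aq : ℝ) < w → (w : ℝ) < bq → whG G A s w ∈ G ∧
      (w : ℝ) + s - E ≤ whG G A s w ∧ whG G A s w ≤ w + s ∧ g - 3 * δ ≤ whG G A s w ∧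
      whG G A s w ≤ g + 3 * δ := by
    intro w h1 h2
    obtain ⟨m1, m2, m3⟩ := bx_fl (A := A) (s := s) hG HB hη1 (by positivity) (by linarith) (w := w)
      (by linarith) (by linarith)
    rw [← hE] at m2
    exact ⟨m1, m2, m3, by linarith, by linarith⟩
  have WM : ∀ w v : ℚ, (aq : ℝ) < w → w ≤ v → (v : ℝ) < bq → whG G A s w ≤ whG G A s v := by
    intro w v h1 h2 h3
    have h2' : (w : ℝ) ≤ v := by exact_mod_cast h2
    exact bx_mono (A := A) (s := s) HB hη1 (by positivity) (by linarith) (w := w) (by linarith)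
      (by linarith) h2
  -- the levels of the chain
  have hsl : ∀ w v : ℚ, (aq : ℝ) < w → w ≤ v → (v : ℝ) < bq → ∀ l < d,
      sn l (whG G A s v) - sn l (whG G A s w) ≤ (whG G A s v - whG G A s w) + E := by
    intro w v h1 h2 h3 l hl
    have h2' : (w : ℝ) ≤ v := by exact_mod_cast h2
    obtain ⟨w1, w2, w3, w4, w5⟩ := W w h1 (by linarith)
    obtain ⟨v1, v2, v3, v4, v5⟩ := W v (by linarith) h3
    have := (abs_le.1 (HB.sl _ w1 _ v1 w4 (WM w v h1 h2 h3) v5 l hl)).2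
    rw [← hE] at this
    linarith
  have hnl : ∀ w : ℚ, (aq : ℝ) < w → (w : ℝ) < bq → ∀ l < d,
      |sn l (whG G A s w) - whG G A s w - (sn l g - g)| ≤ E := by
    intro w h1 h2 l hl
    obtain ⟨w1, w2, w3, w4, w5⟩ := W w h1 h2
    rcases le_total (whG G A s w) g with hle | hle
    · have h4 := abs_le.1 (HB.sl _ w1 _ hgG w4 hle (by linarith) l hl)
      rw [← hE] at h4
      rw [abs_le]
      constructor <;> linarith [h4.1, h4.2]
    · have h4 := abs_le.1 (HB.sl _ hgG _ w1 (by linarith) hle w5 l hl)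
      rw [← hE] at h4
      rw [abs_le]
      constructor <;> linarith [h4.1, h4.2]
  have hst : ∀ w v : ℚ, (aq : ℝ) < w → w ≤ v → (v : ℝ) < bq → (v : ℝ) < w + lam →
      whG G A s v - whG G A s w ≤ lam + E := by
    intro w v h1 h2 h3 h4
    have h2' : (w : ℝ) ≤ v := by exact_mod_cast h2
    obtain ⟨w1, w2, w3, w4, w5⟩ := W w h1 (by linarith)
    obtain ⟨v1, v2, v3, v4, v5⟩ := W v (by linarith) h3
    linarith
  have hlvb : ∀ l : Fin d, 4 * μ < lv l ∧ (lv l : ℝ) ≤ (4 * d + 1) * μ := by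
    intro l
    have e1 : ((l : ℕ) : ℝ) + 1 ≤ d := by exact_mod_cast l.2
    have e2 : (0 : ℝ) ≤ (l : ℕ) := Nat.cast_nonneg _
    have e3 : 4 * 1 * μ ≤ 4 * ((d : ℝ) - (l : ℕ)) * μ :=
      mul_le_mul_of_nonneg_right (by linarith) hμ0.le
    have e4 : 4 * ((d : ℝ) - (l : ℕ)) * μ ≤ 4 * d * μ :=
      mul_le_mul_of_nonneg_right (by linarith) hμ0.le
    constructor
    · linarith [lv1 l]
    · linarith [lv2 l]
  have hlvs : ∀ l l' : Fin d, (l' : ℕ) < l → (lv l : ℝ) + 3 * μ ≤ lv l' := by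
    intro l l' hl
    have e1 : ((l' : ℕ) : ℝ) + 1 ≤ (l : ℕ) := by exact_mod_cast hl
    have e2 : 4 * ((d : ℝ) - (l : ℕ)) * μ + 4 * μ ≤ 4 * ((d : ℝ) - (l' : ℕ)) * μ := by
      have : 4 * ((d : ℝ) - (l : ℕ)) * μ + 4 * μ = 4 * ((d : ℝ) - (l : ℕ) + 1) * μ := by ring
      rw [this]
      exact mul_le_mul_of_nonneg_right (by linarith) hμ0.le
    linarith [lv1 l', lv2 l]
  have hRδ : (4 * d + 10) * δ ≤ R := by nlinarith
  have hdμ : (4 * d + 1) * μ ≤ (4 * d + 1) * δ := mul_le_mul_of_nonneg_left hμδ (by positivity)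
  have hEδ : 1000 * E ≤ 3 * δ := by linarith
  have hlow : ∀ v : ℚ, (aq : ℝ) < v → (v : ℝ) < bq → ∀ l : Fin d,
      lv l + 3 * δ ≤ 1 - whG G A s v ∧ ∀ l' < d, lv l + 3 * δ ≤ 1 - sn l' (whG G A s v) := by
    intro v h1 h2 l
    obtain ⟨v1, v2, v3, v4, v5⟩ := W v h1 h2
    have e1 := (hlvb l).2
    refine ⟨by linarith, fun l' hl' => ?_⟩
    have e2 := (abs_le.1 (hnl v h1 h2 l' hl')).2
    have e3 := hRs l' hl'
    linarith
  refine ⟨δ, hδ, k0, ⟨N, lv, σ₀, aq, bq, lam⟩, ⟨⟨by exact_mod_cast σ00, fun l hl => ?_,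
    fun v h1 h2 l hl => ⟨?_, ?_, fun l' hl' => ?_⟩, fun v h1 h2 l hl => ?_,
    fun w v h1 h2 h3 h4 l hl => ?_, fun w v h1 h2 h3 h4 l hl => ?_,
    fun w v h1 h2 h3 h4 l hl l' hl' => ?_, fun w v h1 h2 h3 h4 l hl l' hl' => ?_⟩,
    ⟨fun i w o h1 h2 h3 h4 => ?_, fun i w o h1 h2 h3 h4 l hl => ?_⟩, by exact_mod_cast lam0,
    by simp only; linarith, by simp only; linarith⟩, a2, b1, fun w h1 h2 => ?_⟩
  · simp only [exN_lt _ hl]
    linarith [(hlvb ⟨l, hl⟩).1]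
  · simp only [exN_lt _ hl] at *
    have := (hlow v h1 h2 ⟨l, hl⟩).2 l hl
    linarith
  · simp only [exN_lt _ hl] at *
    have := (hlow v h1 h2 ⟨l, hl⟩).1
    linarith
  · simp only [exN_lt _ hl] at *
    have := (hlow v h1 h2 ⟨l, hl⟩).2 l' (by omega)
    linarith
  · simp only [exN_lt _ hl] at *
    have e1 := (abs_le.1 (hnl v h1 h2 l hl)).2
    have e2 := N1 ⟨l, hl⟩
    simp only at e2
    linarith
  · simp only [exN_lt _ hl] at *
    have e1 := hsl w v h1 h2 h3 l hl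
    have e2 := hst w v h1 h2 h3 h4
    have e3 := (hlow v (by have : (w : ℝ) ≤ v := by exact_mod_cast h2
                           linarith) h3 ⟨l, hl⟩).1
    linarith
  · simp only [exN_lt _ hl] at *
    have h2' : (w : ℝ) ≤ v := by exact_mod_cast h2
    have e1 := (abs_le.1 (hnl w h1 (by linarith) l hl)).1
    have e2 := hst w v h1 h2 h3 h4
    have e3 := (hlow v (by linarith) h3 ⟨l, hl⟩).1
    have e4 := N2 ⟨l, hl⟩
    simp only at e4
    linarith
  · have hl'd : l' < d := by omega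
    simp only [exN_lt _ hl, exN_lt _ hl'd] at *
    have e1 := hsl w v h1 h2 h3 l hl
    have e2 := hst w v h1 h2 h3 h4
    have e3 := hlvs ⟨l, hl⟩ ⟨l', hl'd⟩ hl'
    linarith
  · have hl'd : l' < d := by omega
    simp only [exN_lt _ hl, exN_lt _ hl'd] at *
    have h2' : (w : ℝ) ≤ v := by exact_mod_cast h2
    have e1 := (abs_le.1 (hnl w h1 (by linarith) l hl)).1
    have e2 := hst w v h1 h2 h3 h4
    have e3 := hlvs ⟨l, hl⟩ ⟨l', hl'd⟩ hl'
    have e4 := N2 ⟨l, hl⟩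
    simp only at e4
    linarith
  · have h2' : (w : ℝ) ≤ o := by exact_mod_cast h2
    obtain ⟨w1, w2, w3, w4, w5⟩ := W w h1 (by linarith)
    obtain ⟨v1, v2, v3, v4, v5⟩ := W o (by linarith) h3
    have e1 := HB.tg _ w1 _ v1 w4 (WM w o h1 h2 h3) v5 i
    rw [← hE] at e1
    have e2 := hst w o h1 h2 h3 h4
    have e3 := mul_le_mul_of_nonneg_left e2 hSg
    have e4 : Sg * (lam + E) = Sg * lam + Sg * E := by ring
    have e5 : 0 ≤ (8 * d) * δ := by positivity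
    simp only at *
    linarith
  · simp only [exN_lt _ hl] at *
    have h2' : (w : ℝ) ≤ o := by exact_mod_cast h2
    obtain ⟨w1, w2, w3, w4, w5⟩ := W w h1 (by linarith)
    obtain ⟨v1, v2, v3, v4, v5⟩ := W o (by linarith) h3
    have e1 := HB.tg _ w1 _ v1 w4 (WM w o h1 h2 h3) v5 i
    rw [← hE] at e1
    have e2 := hst w o h1 h2 h3 h4
    have e3 := mul_le_mul_of_nonneg_left e2 hSg
    have e4 : Sg * (lam + E) = Sg * lam + Sg * E := by ring
    have e5 := (hlvb ⟨l, hl⟩).1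
    linarith
  · have e1 : ∀ l : Fin d, Real.log 2 * (exN N l - (sn l (whG G A s w) - whG G A s w)) ≤
        Real.log 2 * ((4 * d + 4) * μ) := by
      intro l
      refine mul_le_mul_of_nonneg_left ?_ hl2.le
      rw [exN_lt _ l.2]
      have e2 := (abs_le.1 (hnl w (by exact_mod_cast h1) (by exact_mod_cast h2) l l.2)).1
      have e3 := (hlvb l).2
      have e4 := N2 l
      have e5 : (⟨(l : ℕ), l.2⟩ : Fin d) = l := rfl
      rw [e5]
      linarith
    refine (Finset.sum_le_sum fun l _ => e1 l).trans ?_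
    rw [Finset.sum_const, Finset.card_univ, Fintype.card_fin, nsmul_eq_mul, hμ]
    have e6 : (d : ℝ) * (Real.log 2 * ((4 * d + 4) * (κ * δ))) =
        (d * (Real.log 2 * ((4 * d + 4) * κ))) * δ := by ring
    rw [e6]
    exact mul_le_mul_of_nonneg_right hκ2 hδ.le

end

end Pool.LP30
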