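import Mathlib

/-!
# A family of decreasing functions with small total variation near each point

`drop_ae`: if near every point of `Z`, on arbitrarily small intervals, one of countably many
decreasing functions (of a rational variable) varies little compared with the length, then at almost
every point of `Z`, for every `e > 0` one of the functions has at most the rate `e` at this point.
-/

set_option autoImplicit false

namespace Pool.LP30

open MeasureTheory Set Filter Topology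

/-- **One monotone function**: its rate is small outside a set whose measure is controlled by the
variation. -/
theorem rate_bad {f : ℝ → ℝ} (hf : Monotone f) {e : ℝ} (he : 0 < e) {u v M : ℝ}
    (hM : f v - f u ≤ M) :
    volume {g : ℝ | g ∈ Ioo u v ∧ ¬ ∃ r₀ : ℝ, 0 < r₀ ∧ ∀ r : ℝ, 0 < r → r < r₀ →
      f (g + r) - f (g - r) ≤ e * r} ≤ ENNReal.ofReal (4 * M / e) := by
  obtain ⟨μ, hμ⟩ : ∃ μ : Measure ℝ, μ = hf.stieltjesFunction.measure := ⟨_, rfl⟩
  have h1 := hf.ae_hasDerivAt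
  rw [← hμ] at h1
  have hsub : {g : ℝ | g ∈ Ioo u v ∧ ¬ ∃ r₀ : ℝ, 0 < r₀ ∧ ∀ r : ℝ, 0 < r → r < r₀ →
      f (g + r) - f (g - r) ≤ e * r} ⊆
      {g | ¬ HasDerivAt f (μ.rnDeriv volume g).toReal g} ∪
        {g | g ∈ Ioo u v ∧ ENNReal.ofReal (e / 4) ≤ μ.rnDeriv volume g} := by
    rintro g ⟨hg, hb⟩
    by_cases hd : HasDerivAt f (μ.rnDeriv volume g).toReal g
    · right
      refine ⟨hg, ?_⟩
      by_contra hlt
      rw [not_le] at hlt
      apply hb
      obtain ⟨ρ, hρ⟩ : ∃ ρ, ρ = (μ.rnDeriv volume g).toReal := ⟨_, rfl⟩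
      have hρ4 : ρ ≤ e / 4 := by
        rw [hρ]
        exact ENNReal.toReal_le_of_le_ofReal (by positivity) hlt.le
      rw [← hρ] at hd
      have h2 := hd.isLittleO
      rw [Asymptotics.isLittleO_iff] at h2
      have h3 := h2 (show (0 : ℝ) < e / 4 by positivity)
      rw [Metric.eventually_nhds_iff] at h3
      obtain ⟨δ, hδ, h3⟩ := h3
      refine ⟨δ, hδ, fun r hr hrδ => ?_⟩
      have e1 := h3 (y := g + r) (by rw [Real.dist_eq]; simpa [abs_of_pos hr] using hrδ)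
      have e2 := h3 (y := g - r) (by rw [Real.dist_eq]; simpa [abs_of_pos hr] using hrδ)
      simp only [add_sub_cancel_left, Real.norm_eq_abs, smul_eq_mul, abs_of_pos hr] at e1
      have e3 : g - r - g = -r := by ring
      rw [e3] at e2
      simp only [Real.norm_eq_abs, smul_eq_mul, abs_neg, abs_of_pos hr] at e2
      have e4 := (abs_le.1 e1).2
      have e5 := (abs_le.1 e2).1
      have e6 : ρ * r ≤ e / 4 * r := mul_le_mul_of_nonneg_right hρ4 hr.le
      linarith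
    · left
      exact hd
  refine (measure_mono hsub).trans ((measure_union_le _ _).trans ?_)
  have h4 : volume {g | ¬ HasDerivAt f (μ.rnDeriv volume g).toReal g} = 0 := h1
  rw [h4, zero_add]
  have h5 : volume {g | g ∈ Ioo u v ∧ ENNReal.ofReal (e / 4) ≤ μ.rnDeriv volume g} ≤
      (∫⁻ a in Ioo u v, μ.rnDeriv volume a) / ENNReal.ofReal (e / 4) := by
    have h6 := meas_ge_le_lintegral_div (μ := volume.restrict (Ioo u v))
      (f := μ.rnDeriv volume) (Measure.measurable_rnDeriv _ _).aemeasurable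
      (ε := ENNReal.ofReal (e / 4)) (by
        rw [Ne, ENNReal.ofReal_eq_zero, not_le]
        positivity) ENNReal.ofReal_ne_top
    refine le_trans ?_ h6
    have h7 := Measure.le_restrict_apply (μ := volume) (Ioo u v)
      {x | ENNReal.ofReal (e / 4) ≤ μ.rnDeriv volume x}
    refine le_trans (measure_mono ?_) h7
    rintro g ⟨a, b⟩
    exact ⟨b, a⟩
  refine h5.trans ?_
  have h8 : ∫⁻ a in Ioo u v, μ.rnDeriv volume a ≤ ENNReal.ofReal M := by
    refine (Measure.setLIntegral_rnDeriv_le _).trans ?_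
    rw [hμ, StieltjesFunction.measure_Ioo]
    refine ENNReal.ofReal_le_ofReal ?_
    have a1 : f u ≤ hf.stieltjesFunction u := by
      rw [hf.stieltjesFunction_eq]
      exact hf.le_rightLim le_rfl
    have a2 : Function.leftLim hf.stieltjesFunction v ≤ f v := by
      refine le_of_tendsto (hf.stieltjesFunction.mono.tendsto_leftLim v) ?_
      filter_upwards [self_mem_nhdsWithin] with x hx
      rw [hf.stieltjesFunction_eq]
      exact hf.rightLim_le hx
    linarith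
  refine (ENNReal.div_le_div_right h8 _).trans ?_
  rw [← ENNReal.ofReal_div_of_pos (by positivity)]
  refine ENNReal.ofReal_le_ofReal (le_of_eq ?_)
  field_simp

/-- The monotone extension of a decreasing function of a rational variable, cut at `p` and `q`. -/
noncomputable def ext (θ : ℚ → ℝ) (p q : ℚ) (x : ℝ) : ℝ :=
  sSup ((fun w : ℚ => -θ w) '' {w : ℚ | p ≤ w ∧ w ≤ q ∧ ((w : ℝ) ≤ x ∨ w = p)})

section

variable {θ : ℚ → ℝ} {p q : ℚ}

theorem ext_bdd (hθ : ∀ w v : ℚ, p ≤ w → w ≤ v → v ≤ q → θ v ≤ θ w) (x : ℝ) :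
    BddAbove ((fun w : ℚ => -θ w) '' {w : ℚ | p ≤ w ∧ w ≤ q ∧ ((w : ℝ) ≤ x ∨ w = p)}) := by
  refine ⟨-θ q, ?_⟩
  rintro _ ⟨w, ⟨h1, h2, -⟩, rfl⟩
  have := hθ w q h1 h2 le_rfl
  simp only
  linarith

theorem ext_mono (hpq : p ≤ q) (hθ : ∀ w v : ℚ, p ≤ w → w ≤ v → v ≤ q → θ v ≤ θ w) :
    Monotone (ext θ p q) := by
  intro x y hxy
  refine csSup_le_csSup (ext_bdd hθ y) ⟨_, ⟨p, ⟨le_rfl, hpq, Or.inr rfl⟩, rfl⟩⟩ ?_
  rintro _ ⟨w, ⟨h1, h2, h3⟩, rfl⟩
  refine ⟨w, ⟨h1, h2, ?_⟩, rfl⟩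
  rcases h3 with h3 | h3
  · exact Or.inl (h3.trans hxy)
  · exact Or.inr h3

theorem ext_rat (hθ : ∀ w v : ℚ, p ≤ w → w ≤ v → v ≤ q → θ v ≤ θ w) {w : ℚ} (h1 : p ≤ w)
    (h2 : w ≤ q) : ext θ p q w = -θ w := by
  refine le_antisymm (csSup_le ⟨_, ⟨w, ⟨h1, h2, Or.inl le_rfl⟩, rfl⟩⟩ ?_)
    (le_csSup (ext_bdd hθ _) ⟨w, ⟨h1, h2, Or.inl le_rfl⟩, rfl⟩)
  rintro _ ⟨v, ⟨h3, h4, h5⟩, rfl⟩
  have h6 : v ≤ w := by
    rcases h5 with h5 | h5
    · exact_mod_cast h5
    · rw [h5]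
      exact h1
  have := hθ v w h3 h6 h2
  simp only
  linarith

end

/-- **Countably many decreasing functions.** -/
theorem drop_ae {ι : Type} [Countable ι] (a b : ι → ℝ) (θ : ι → ℚ → ℝ)
    (anti : ∀ i, ∀ w v : ℚ, a i < w → w ≤ v → (v : ℝ) < b i → θ i v ≤ θ i w) (Z : Set ℝ)
    (hZ : ∀ g ∈ Z, ∀ ε : ℝ, 0 < ε → ∀ δ₀ : ℝ, 0 < δ₀ → ∃ δ : ℝ, 0 < δ ∧ δ ≤ δ₀ ∧ ∃ i,
      a i < g - δ ∧ g + δ < b i ∧ ∀ w v : ℚ, g - δ ≤ w → w ≤ v → (v : ℝ) ≤ g + δ →
        θ i w - θ i v ≤ ε * δ) :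
    ∀ᵐ g : ℝ, g ∈ Z → ∀ e : ℝ, 0 < e → ∃ i, a i < g ∧ g < b i ∧ ∃ r₀ : ℝ, 0 < r₀ ∧
      ∀ r : ℝ, 0 < r → r < r₀ → ∀ w v : ℚ, g - r ≤ w → w ≤ v → (v : ℝ) ≤ g + r →
        θ i w - θ i v ≤ e * r := by
  -- one `e`
  have key : ∀ e : ℝ, 0 < e → ∀ᵐ g : ℝ, g ∈ Z → ∃ i, a i < g ∧ g < b i ∧ ∃ r₀ : ℝ, 0 < r₀ ∧
      ∀ r : ℝ, 0 < r → r < r₀ → ∀ w v : ℚ, g - r ≤ w → w ≤ v → (v : ℝ) ≤ g + r →
        θ i w - θ i v ≤ e * r := by
    intro e he
    obtain ⟨N, hN⟩ : ∃ N : Set ℝ, N = {g | g ∈ Z ∧ ¬ ∃ i, a i < g ∧ g < b i ∧ ∃ r₀ : ℝ, 0 < r₀ ∧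
      ∀ r : ℝ, 0 < r → r < r₀ → ∀ w v : ℚ, g - r ≤ w → w ≤ v → (v : ℝ) ≤ g + r →
        θ i w - θ i v ≤ e * r} := ⟨_, rfl⟩
    suffices hz : volume N = 0 by
      rw [ae_iff]
      refine measure_mono_null ?_ hz
      intro g hg
      rw [hN]
      simp only [Set.mem_ofPred_eq, Classical.not_imp] at hg ⊢
      exact hg
    have hden := Besicovitch.ae_tendsto_measure_inter_div (volume : Measure ℝ) N
    -- no point of `N` is a point of density
    have hno : ∀ g ∈ N, ¬ Tendsto (fun r => volume (N ∩ Metric.closedBall g r) /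
        volume (Metric.closedBall g r)) (𝓝[>] 0) (𝓝 1) := by
      intro g hg hlim
      have hgZ : g ∈ Z := by
        rw [hN] at hg
        exact hg.1
      have h1 : ∀ᶠ r in 𝓝[>] (0 : ℝ), (1 / 2 : ENNReal) < volume (N ∩ Metric.closedBall g r) /
          volume (Metric.closedBall g r) :=
        hlim.eventually (lt_mem_nhds (ENNReal.half_lt_self one_ne_zero ENNReal.one_ne_top))
      rw [eventually_nhdsWithin_iff, Metric.eventually_nhds_iff] at h1
      obtain ⟨δ₀, hδ₀, h1⟩ := h1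
      obtain ⟨δ, hδ, hδ1, i, hi1, hi2, hi3⟩ := hZ g hgZ (e / 32) (by positivity) δ₀ hδ₀
      have h2 := h1 (y := δ / 3) (by
        rw [Real.dist_eq, sub_zero, abs_of_pos (by positivity)]
        linarith) (show (0 : ℝ) < δ / 3 by positivity)
      obtain ⟨p, hp1, hp2⟩ : ∃ p : ℚ, g - δ < p ∧ (p : ℝ) < g - δ / 2 :=
        exists_rat_btwn (by linarith)
      obtain ⟨q, hq1, hq2⟩ : ∃ q : ℚ, g + δ / 2 < q ∧ (q : ℝ) < g + δ :=
        exists_rat_btwn (by linarith)
      have hpq : p ≤ q := by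
        have : (p : ℝ) ≤ q := by linarith
        exact_mod_cast this
      have hθ : ∀ w v : ℚ, p ≤ w → w ≤ v → v ≤ q → θ i v ≤ θ i w := by
        intro w v x1 x2 x3
        have y1 : (p : ℝ) ≤ w := by exact_mod_cast x1
        have y3 : (v : ℝ) ≤ q := by exact_mod_cast x3
        exact anti i w v (by linarith) x2 (by linarith)
      have hmono := ext_mono hpq hθ
      have hvar : ext (θ i) p q (g + δ / 2) - ext (θ i) p q (g - δ / 2) ≤ e / 32 * δ := by
        have t1 := hmono hq1.le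
        have t2 := hmono hp2.le
        rw [ext_rat hθ hpq le_rfl] at t1
        rw [ext_rat hθ le_rfl hpq] at t2
        have t3 := hi3 p q hp1.le hpq hq2.le
        linarith
      have hb := rate_bad hmono he (u := g - δ / 2) (v := g + δ / 2) (M := e / 32 * δ) hvar
      have hsub : N ∩ Metric.closedBall g (δ / 3) ⊆ {x : ℝ | x ∈ Ioo (g - δ / 2) (g + δ / 2) ∧
          ¬ ∃ r₀ : ℝ, 0 < r₀ ∧ ∀ r : ℝ, 0 < r → r < r₀ →
            ext (θ i) p q (x + r) - ext (θ i) p q (x - r) ≤ e * r} := by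
        rintro x ⟨hx, hxb⟩
        rw [Real.closedBall_eq_Icc, mem_Icc] at hxb
        refine ⟨⟨by linarith [hxb.1], by linarith [hxb.2]⟩, ?_⟩
        rintro ⟨r₀, hr₀, H⟩
        rw [hN] at hx
        apply hx.2
        refine ⟨i, by linarith [hxb.1], by linarith [hxb.2], min r₀ (δ / 12),
          lt_min hr₀ (by positivity), fun r hr hrr w v w1 w2 w3 => ?_⟩
        have k1 := H r hr (lt_of_lt_of_le hrr (min_le_left _ _))
        have k2 : r < δ / 12 := lt_of_lt_of_le hrr (min_le_right _ _)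
        have w2' : (w : ℝ) ≤ v := by exact_mod_cast w2
        have hwp : p ≤ w := by
          have : (p : ℝ) ≤ w := by linarith [hxb.1]
          exact_mod_cast this
        have hvq : v ≤ q := by
          have : (v : ℝ) ≤ q := by linarith [hxb.2]
          exact_mod_cast this
        have k3 := hmono w3
        have k4 := hmono w1
        rw [ext_rat hθ (hwp.trans w2) hvq] at k3
        rw [ext_rat hθ hwp (w2.trans hvq)] at k4
        linarith
      have h3 : volume (N ∩ Metric.closedBall g (δ / 3)) ≤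
          ENNReal.ofReal (4 * (e / 32 * δ) / e) := (measure_mono hsub).trans hb
      have e1 : 4 * (e / 32 * δ) / e = δ / 8 := by
        field_simp
        norm_num
      rw [e1] at h3
      rw [Real.volume_closedBall] at h2
      have h4 : volume (N ∩ Metric.closedBall g (δ / 3)) / ENNReal.ofReal (2 * (δ / 3)) ≤
          ENNReal.ofReal (δ / 8) / ENNReal.ofReal (2 * (δ / 3)) := ENNReal.div_le_div_right h3 _
      have h5 : ENNReal.ofReal (δ / 8) / ENNReal.ofReal (2 * (δ / 3)) = ENNReal.ofReal (3 / 16) := by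
        rw [← ENNReal.ofReal_div_of_pos (by positivity)]
        congr 1
        field_simp
        norm_num
      rw [h5] at h4
      have h6 : (1 / 2 : ENNReal) < ENNReal.ofReal (3 / 16) := lt_of_lt_of_le h2 h4
      have h7 : (1 / 2 : ENNReal) = ENNReal.ofReal (1 / 2) := by
        rw [ENNReal.ofReal_div_of_pos two_pos, ENNReal.ofReal_one, ENNReal.ofReal_ofNat]
      rw [h7, ENNReal.ofReal_lt_ofReal_iff (by norm_num)] at h6
      norm_num at h6
    have h8 : volume ({x | ¬ Tendsto (fun r => volume (N ∩ Metric.closedBall x r) /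
        volume (Metric.closedBall x r)) (𝓝[>] 0) (𝓝 1)} ∩ N) = 0 := by
      have h9 := Measure.le_restrict_apply (μ := volume) N
        {x | ¬ Tendsto (fun r => volume (N ∩ Metric.closedBall x r) /
          volume (Metric.closedBall x r)) (𝓝[>] 0) (𝓝 1)}
      have h10 : (volume.restrict N) {x | ¬ Tendsto (fun r =>
        volume (N ∩ Metric.closedBall x r) / volume (Metric.closedBall x r)) (𝓝[>] 0) (𝓝 1)} = 0 :=
        hden
      rw [h10] at h9
      exact le_antisymm h9 bot_le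
    refine measure_mono_null ?_ h8
    intro g hg
    exact ⟨hno g hg, hg⟩
  have hall : ∀ᵐ g : ℝ, ∀ n : ℕ, g ∈ Z → ∃ i, a i < g ∧ g < b i ∧ ∃ r₀ : ℝ, 0 < r₀ ∧
      ∀ r : ℝ, 0 < r → r < r₀ → ∀ w v : ℚ, g - r ≤ w → w ≤ v → (v : ℝ) ≤ g + r →
        θ i w - θ i v ≤ 1 / ((n : ℝ) + 1) * r := by
    rw [ae_all_iff]
    exact fun n => key _ (by positivity)
  filter_upwards [hall] with g hg hgZ e he
  obtain ⟨n, hn⟩ := exists_nat_one_div_lt he
  obtain ⟨i, h1, h2, r₀, h3, h4⟩ := hg n hgZ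
  exact ⟨i, h1, h2, r₀, h3, fun r hr hrr w v x1 x2 x3 =>
    (h4 r hr hrr w v x1 x2 x3).trans (mul_le_mul_of_nonneg_right hn.le hr.le)⟩

end Pool.LP30
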