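import Pool.Agent.H32.Dense.EntX

/-!
# From exact positions and near velocities to the near path: entropies

`ni_ent`: the record `z'` does not see the quantity `u` behind `u₁` given the near path `pa`, if it
does not see it given the exact positions `x` and the velocities `e`, and if a later record `zo` sees
nothing of `x` and `e` behind the heights of `pa`.
-/

set_option autoImplicit false

namespace Pool.LP30

open Finset Real
open Pool.Agent.H49.Ent Pool.Agent.H32.Dense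

variable {Ω U U₁ E E' P H₀ X Y W Z Z' Zo : Type} [Fintype Ω] {q : Ω → ℝ}

/-- The information about `e` of the condition `p`, which contains `h`. -/
theorem ent_swap {G : Type} (h0 : ∀ ω, 0 ≤ q ω) (e : Ω → E) (p : Ω → P) (h : Ω → H₀) (c : Ω → G)
    (hp : Det q p h) :
    CH q e (fun ω => (p ω, c ω)) = CH q e (fun ω => (h ω, c ω)) +
      CH q p (fun ω => (e ω, (h ω, c ω))) - CH q p (fun ω => (h ω, c ω)) := by
  have e1 := CH_chain h0 e p (fun ω => (h ω, c ω))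
  have e2 := CH_chain h0 p e (fun ω => (h ω, c ω))
  have e3 : CH q (fun ω => (e ω, p ω)) (fun ω => (h ω, c ω)) =
      CH q (fun ω => (p ω, e ω)) (fun ω => (h ω, c ω)) := by
    refine CH_congr h0 ?_ ?_ (fun _ _ _ _ hh => hh) (fun _ _ _ _ hh => hh) <;>
    · intro ω ω' _ _ hh
      simp only [Prod.mk.injEq] at hh ⊢
      exact ⟨hh.1.2, hh.1.1⟩
  have e4 : CH q e (fun ω => (p ω, (h ω, c ω))) = CH q e (fun ω => (p ω, c ω)) := by
    refine CH_congr h0 (fun _ _ _ _ hh => (Prod.ext_iff.mp hh).1)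
      (fun _ _ _ _ hh => (Prod.ext_iff.mp hh).1) ?_ ?_
    · intro ω ω' _ _ hh
      simp only [Prod.mk.injEq] at hh ⊢
      exact ⟨hh.1, hh.2.2⟩
    · intro ω ω' a b hh
      simp only [Prod.mk.injEq] at hh ⊢
      exact ⟨hh.1, hp ω ω' a b hh.1, hh.2⟩
  linarith

/-- **Near path instead of exact positions**, entropies. -/
theorem ni_ent (h0 : ∀ ω, 0 ≤ q ω) {u : Ω → U} {u₁ : Ω → U₁} {e : Ω → E} {eo : Ω → E'}
    {pa : Ω → P} {hh : Ω → H₀} {x : Ω → X} {y : Ω → Y} {w : Ω → W} {z : Ω → Z} {z' : Ω → Z'}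
    {zo : Ω → Zo} {A₁ k B₁ B₂ B₃ T₁ T₂ : ℝ}
    (hd : Det q pa hh) (hy1 : Det q (fun ω => (x ω, w ω)) y)
    (hy2 : Det q y (fun ω => (x ω, w ω)))
    (la : CH q u (fun ω => (u₁ ω, (e ω, (z ω, y ω)))) ≤
      CH q u (fun ω => (e ω, (z' ω, y ω))) + A₁)
    (f1 : CH q pa (fun ω => (e ω, (z ω, y ω))) ≤ k)
    (f2 : CH q pa (fun ω => (e ω, (z' ω, y ω))) ≤ k)
    (f3 : CH q u (fun ω => (pa ω, ((z ω, zo ω), w ω))) ≤ k)
    (f4 : CH q u₁ (fun ω => (pa ω, ((z ω, zo ω), w ω))) ≤ k)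
    (b1 : CH q x (fun ω => (hh ω, (z ω, w ω))) ≤ B₁)
    (b2 : B₂ ≤ CH q x (fun ω => ((z ω, zo ω), w ω)))
    (b3 : CH q hh (fun ω => ((z ω, zo ω), w ω)) ≤ B₃)
    (t1 : CH q e (fun ω => (z ω, y ω)) ≤ T₁)
    (t2 : T₂ ≤ CH q eo (fun ω => ((z ω, zo ω), y ω)))
    (f5 : CH q eo (fun ω => (e ω, ((z ω, zo ω), y ω))) ≤ k) :
    CH q u (fun ω => (u₁ ω, (pa ω, (z ω, w ω)))) ≤ CH q u (fun ω => (pa ω, (z' ω, w ω))) + A₁ +
      5 * k + (B₁ - B₂ + B₃) + (T₁ - T₂) := by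
  -- one
  have s1 := CH_chain h0 u (fun ω => (e ω, x ω)) (fun ω => (u₁ ω, (pa ω, (z ω, w ω))))
  have s1' := CH_chain h0 (fun ω => (e ω, x ω)) u (fun ω => (u₁ ω, (pa ω, (z ω, w ω))))
  have s1'' : CH q (fun ω => (u ω, (e ω, x ω))) (fun ω => (u₁ ω, (pa ω, (z ω, w ω)))) =
      CH q (fun ω => ((e ω, x ω), u ω)) (fun ω => (u₁ ω, (pa ω, (z ω, w ω)))) := by
    refine CH_congr h0 ?_ ?_ (fun _ _ _ _ hh => hh) (fun _ _ _ _ hh => hh) <;>
    · intro ω ω' _ _ hh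
      simp only [Prod.mk.injEq] at hh ⊢
      tauto
  -- two
  have s2 : CH q u (fun ω => ((e ω, x ω), (u₁ ω, (pa ω, (z ω, w ω))))) ≤
      CH q u (fun ω => (u₁ ω, (e ω, (z ω, y ω)))) := by
    refine CH_mono_cond h0 fun ω ω' a b h => ?_
    simp only [Prod.mk.injEq] at h ⊢
    exact ⟨h.2.1, h.1.1, h.2.2.2.1, hy1 ω ω' a b (Prod.ext h.1.2 h.2.2.2.2)⟩
  -- three
  have s3 : CH q (fun ω => (e ω, x ω)) (fun ω => (u₁ ω, (pa ω, (z ω, w ω)))) ≤
      CH q (fun ω => (e ω, x ω)) (fun ω => (pa ω, (z ω, w ω))) :=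
    CH_mono_cond h0 fun _ _ _ _ h => (Prod.ext_iff.mp h).2
  have s3' := ent_swap h0 (fun ω => (e ω, x ω)) pa hh (fun ω => (z ω, w ω)) hd
  -- four
  have s4 : CH q (fun ω => (e ω, x ω)) (fun ω => ((u ω, u₁ ω), (pa ω, ((z ω, zo ω), w ω)))) ≤
      CH q (fun ω => (e ω, x ω)) (fun ω => (u ω, (u₁ ω, (pa ω, (z ω, w ω))))) := by
    refine CH_mono_cond h0 fun ω ω' a b h => ?_
    simp only [Prod.mk.injEq] at h ⊢
    exact ⟨h.1.1, h.1.2, h.2.1, h.2.2.1.1, h.2.2.2⟩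
  have s4' := CH_le_add h0 (fun ω => (e ω, x ω)) (fun ω => (u ω, u₁ ω))
    (fun ω => (pa ω, ((z ω, zo ω), w ω)))
  have s4'' := CH_subadd h0 u u₁ (fun ω => (pa ω, ((z ω, zo ω), w ω)))
  have s4''' := ent_swap h0 (fun ω => (e ω, x ω)) pa hh (fun ω => ((z ω, zo ω), w ω)) hd
  have s4o := CH_nonneg h0 pa (fun ω => ((e ω, x ω), (hh ω, ((z ω, zo ω), w ω))))
  -- five
  have s5 : CH q pa (fun ω => (hh ω, ((z ω, zo ω), w ω))) ≤ CH q pa (fun ω => (hh ω, (z ω, w ω))) := by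
    refine CH_mono_cond h0 fun ω ω' a b h => ?_
    simp only [Prod.mk.injEq] at h ⊢
    exact ⟨h.1, h.2.1.1, h.2.2⟩
  -- six
  have s6 : CH q pa (fun ω => ((e ω, x ω), (hh ω, (z ω, w ω)))) ≤
      CH q pa (fun ω => (e ω, (z ω, y ω))) := by
    refine CH_mono_cond h0 fun ω ω' a b h => ?_
    simp only [Prod.mk.injEq] at h ⊢
    exact ⟨h.1.1, h.2.2.1, hy1 ω ω' a b (Prod.ext h.1.2 h.2.2.2)⟩
  -- seven
  have s7 := CH_chain h0 e x (fun ω => (hh ω, (z ω, w ω)))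
  have s7' : CH q e (fun ω => (x ω, (hh ω, (z ω, w ω)))) ≤ CH q e (fun ω => (z ω, y ω)) := by
    refine CH_mono_cond h0 fun ω ω' a b h => ?_
    simp only [Prod.mk.injEq] at h ⊢
    exact ⟨h.2.2.1, hy1 ω ω' a b (Prod.ext h.1 h.2.2.2)⟩
  -- eight
  have s8 := CH_le_add h0 (fun ω => (e ω, x ω)) hh (fun ω => ((z ω, zo ω), w ω))
  have s8' := CH_chain h0 e x (fun ω => ((z ω, zo ω), w ω))
  have s8'' : CH q e (fun ω => ((z ω, zo ω), y ω)) ≤ CH q e (fun ω => (x ω, ((z ω, zo ω), w ω))) := by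
    refine CH_mono_cond h0 fun ω ω' a b h => ?_
    have h1 := Prod.ext_iff.mp h
    have h2 := Prod.ext_iff.mp (hy2 ω ω' a b h1.2)
    exact Prod.ext h2.1 (Prod.ext h1.1 h2.2)
  have s8''' := CH_le_add h0 eo e (fun ω => ((z ω, zo ω), y ω))
  -- nine
  have s9 := CH_le_add h0 u pa (fun ω => (e ω, (z' ω, y ω)))
  have s9' : CH q u (fun ω => (pa ω, (e ω, (z' ω, y ω)))) ≤ CH q u (fun ω => (pa ω, (z' ω, w ω))) := by
    refine CH_mono_cond h0 fun ω ω' a b h => ?_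
    simp only [Prod.mk.injEq] at h ⊢
    exact ⟨h.1, h.2.2.1, (Prod.ext_iff.mp (hy2 ω ω' a b h.2.2.2)).2⟩
  linarith

end Pool.LP30
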