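import Pool.Agent.H30.LP.Nig

/-!
# No look-ahead given the near path, at real windows: one box

`BoxW`: the indices `w ≤ v ≤ o` near the real windows `x ≤ y ≤ o`, with all levels up to `E`.
`ni_real`: from the statement at the indices to the statement at the real windows.
-/

set_option autoImplicit false

namespace Pool.LP30

open Finset Real MvPolynomial
open Pool.Agent.H49.Ent Pool.Agent.H32.Dense Pool.STK Pool.KA Pool.KSAT Pool.K2S Pool.PB Pool.S6C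
  Pool.GEN Pool.RCD Pool.LA91
open Pool.OWN83 (TwoRelS TRelS yX kn0_yX ae_shift)
open Pool.OWN68 (cl2_vg)
open Pool.AVG96 (fl fl_mem fl_mono le_fl whG)

variable {m : ℕ} {S : PCl m}

/-- **The numbers of a box**: the windows of the charts `b` and `wc` (index `w`), the windows
`x ≤ y ≤ o`, the windows `vc`, `oc` of the charts of the indices `v` and `oq`; error `E`. -/
structure BoxW (sn : ℕ → ℝ → ℝ) (d : ℕ) {n : ℕ} (T : Fin n → ℝ → ℝ) (G : Set ℝ)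
    (nH nV lv : ℕ → ℝ) (b x y o wc vc oc E X Sg φ R κ₀ : ℝ) : Prop where
  E0 : 0 < E
  X0 : 0 < X
  φ0 : 0 < φ
  Sg0 : 0 ≤ Sg
  hbx : b ≤ x
  hxy : x ≤ y
  hyo : y ≤ o
  wx : wc ≤ x
  xw : x ≤ wc + 2 * E
  vy : vc ≤ y + E
  oo : oc ≤ o + 2 * E
  oo' : o ≤ oc + E
  wv : wc ≤ vc
  vo : vc ≤ oc
  gb : b ∈ G
  gw : wc ∈ G
  go : oc ∈ G
  /-- the levels of the chain -/
  mn : ∀ l < d, ∀ p ∈ ({b, wc, oc} : Set ℝ), ∀ q ∈ ({b, wc, oc} : Set ℝ), p ≤ q → sn l p ≤ sn l q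
  fl : ∀ l < d, ∀ p ∈ ({b, wc, oc} : Set ℝ), ∀ q ∈ ({b, wc, oc} : Set ℝ),
    (sn l q - q) ≤ (sn l p - p) + E
  /-- the levels of the targets -/
  tu : ∀ i, ∀ p ∈ ({b, wc, vc, oc, y, o} : Set ℝ), ∀ q ∈ ({b, wc, vc, oc, y, o} : Set ℝ),
    p ≤ q → T i q ≤ T i p + Sg * (q - p) + E
  td : ∀ i, ∀ p ∈ ({b, wc, vc, oc, y, o} : Set ℝ), ∀ q ∈ ({b, wc, vc, oc, y, o} : Set ℝ),
    p ≤ q → T i p + (q - p) ≤ T i q + E
  /-- the errors -/
  EX : 100 * ((Sg + 1) * E) ≤ X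
  /-- the room -/
  RX : X ≤ R
  Rb : (o - b) ≤ R
  RS : (Sg + 1) * (o - b) ≤ R
  Rk : κ₀ ≤ R
  R1 : ∀ p ∈ ({b, wc, oc, x, o} : Set ℝ), 16 * R ≤ 1 - p
  R2 : ∀ l < d, ∀ p ∈ ({b, wc, oc} : Set ℝ), 16 * R ≤ 1 - sn l p
  Rφ : 20 * ((d : ℝ) + 1) * φ ≤ X
  nr : NrW sn d T nH nV lv b o X κ₀

section

variable {sn : ℕ → ℝ → ℝ} {d n : ℕ} {T : Fin n → ℝ → ℝ} {G : Set ℝ} {nH nV lv : ℕ → ℝ}
  {b x y o wc vc oc E X Sg φ R κ₀ : ℝ}

theorem BoxW.e1 (h : BoxW sn d T G nH nV lv b x y o wc vc oc E X Sg φ R κ₀) : 100 * E ≤ X := by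
  have h1 := h.EX
  have h2 := mul_nonneg h.Sg0 h.E0.le
  nlinarith

theorem BoxW.e2 (h : BoxW sn d T G nH nV lv b x y o wc vc oc E X Sg φ R κ₀) :
    100 * (Sg * E) ≤ X := by
  have h1 := h.EX
  have h2 := h.E0
  nlinarith

theorem BoxW.lvk (h : BoxW sn d T G nH nV lv b x y o wc vc oc E X Sg φ R κ₀) {l : ℕ}
    (hl : l < d) : lv l ≤ κ₀ := by
  linarith [h.nr.h l hl, h.nr.kh l hl, h.hbx, h.hxy, h.hyo, h.X0]

/-- The level of the window `wc`. -/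
theorem BoxW.sw (h : BoxW sn d T G nH nV lv b x y o wc vc oc E X Sg φ R κ₀) {l : ℕ}
    (hl : l < d) : sn l b ≤ sn l wc + 3 * E := by
  rcases le_total b wc with hle | hle
  · have := h.mn l hl b (by simp) wc (by simp) hle
    linarith [h.E0]
  · have := h.fl l hl wc (by simp) b (by simp)
    linarith [h.xw, h.hbx]

theorem BoxW.so (h : BoxW sn d T G nH nV lv b x y o wc vc oc E X Sg φ R κ₀) {l : ℕ}
    (hl : l < d) : sn l oc ≤ sn l b + (o - b) + 3 * E := by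
  rcases le_total b oc with hle | hle
  · have := h.fl l hl b (by simp) oc (by simp)
    linarith [h.oo]
  · have := h.mn l hl oc (by simp) b (by simp) hle
    linarith [h.hbx, h.hxy, h.hyo, h.E0]

theorem BoxW.sow (h : BoxW sn d T G nH nV lv b x y o wc vc oc E X Sg φ R κ₀) {l : ℕ}
    (hl : l < d) : sn l oc ≤ sn l wc + (o - b) + 5 * E := by
  have := h.fl l hl wc (by simp) oc (by simp)
  linarith [h.oo, h.xw, h.hbx]

/-- The last of the two windows of charts. -/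
theorem BoxW.mx (h : BoxW sn d T G nH nV lv b x y o wc vc oc E X Sg φ R κ₀) :
    ∃ W ∈ G, W ∈ ({b, wc, oc} : Set ℝ) ∧ b ≤ W ∧ wc ≤ W ∧ W ≤ x := by
  rcases le_total b wc with hle | hle
  · exact ⟨wc, h.gw, by simp, hle, le_rfl, h.wx⟩
  · exact ⟨b, h.gb, by simp, le_rfl, hle, h.hbx⟩

theorem BoxW.nrB (h : BoxW sn d T G nH nV lv b x y o wc vc oc E X Sg φ R κ₀) {W : ℝ}
    (hW : W ∈ ({b, wc, oc} : Set ℝ)) (h1 : b ≤ W) (h3 : W ≤ x) :
    NrC sn d nH nV lv (X / 2) b W := by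
  have e1 := h.e1
  have hR := h.R1 W (by
    rcases hW with rfl | rfl | rfl <;> simp)
  have hs : ∀ l < d, sn l W ≤ sn l b + (o - b) + E := fun l hl => by
    have := h.fl l hl b (by simp) W hW
    linarith [h.hxy, h.hyo]
  exact
  { σ0 := by linarith [h.X0]
    bW := h1
    lv0 := h.nr.lv0
    mn := fun l hl => h.mn l hl b (by simp) W hW h1
    h := fun l hl => by linarith [hs l hl, h.nr.h l hl, h.X0]
    v := fun l hl => by linarith [h.fl l hl b (by simp) W hW, h.nr.v l hl, h.X0]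
    r := fun l hl => by linarith [hs l hl, h.lvk hl, h.X0, h.Rb, h.Rk, h.RX]
    s := fun l hl l' hl' => by linarith [hs l hl, h.nr.s l hl l' hl', h.X0] }

theorem BoxW.nrW (h : BoxW sn d T G nH nV lv b x y o wc vc oc E X Sg φ R κ₀) {W : ℝ}
    (hW : W ∈ ({b, wc, oc} : Set ℝ)) (h2 : wc ≤ W) (h3 : W ≤ x) :
    NrC sn d nH nV lv (X / 2) wc W := by
  have e1 := h.e1
  have hR := h.R1 W (by
    rcases hW with rfl | rfl | rfl <;> simp)
  have hs : ∀ l < d, sn l W ≤ sn l b + (o - b) + E := fun l hl => by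
    have := h.fl l hl b (by simp) W hW
    linarith [h.hxy, h.hyo]
  exact
  { σ0 := by linarith [h.X0]
    bW := h2
    lv0 := h.nr.lv0
    mn := fun l hl => h.mn l hl wc (by simp) W hW h2
    h := fun l hl => by linarith [hs l hl, h.nr.h l hl, h.X0]
    v := fun l hl => by linarith [h.fl l hl b (by simp) W hW, h.nr.v l hl, h.X0]
    r := fun l hl => by linarith [hs l hl, h.lvk hl, h.X0, h.Rb, h.Rk, h.RX, h.sw hl]
    s := fun l hl l' hl' => by linarith [hs l hl, h.nr.s l hl l' hl', h.X0, h.sw hl] }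

/-- The levels of the targets: a small step. -/
theorem BoxW.tc (h : BoxW sn d T G nH nV lv b x y o wc vc oc E X Sg φ R κ₀) (i : Fin n) {p q : ℝ}
    (hp : p ∈ ({b, wc, vc, oc, y, o} : Set ℝ)) (hq : q ∈ ({b, wc, vc, oc, y, o} : Set ℝ))
    (hpq : q ≤ p + 2 * E) : T i q - q ≤ T i p - p + (2 * (Sg * E) + E) ∧
      T i q ≤ T i p + (2 * (Sg * E) + E) := by
  have hSE : 0 ≤ Sg * E := mul_nonneg h.Sg0 h.E0.le
  rcases le_total p q with hle | hle
  · have h1 := h.tu i p hp q hq hle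
    have h2 : Sg * (q - p) ≤ Sg * (2 * E) := mul_le_mul_of_nonneg_left (by linarith) h.Sg0
    constructor <;> linarith
  · have h1 := h.td i q hq p hp hle
    constructor <;> linarith [h.E0]

/-- The conditions of the change of charts for the targets. -/
theorem BoxW.tt (h : BoxW sn d T G nH nV lv b x y o wc vc oc E X Sg φ R κ₀) {W : ℝ}
    (hW : W ∈ ({b, wc, oc} : Set ℝ)) (h3 : W ≤ x) (i : Fin n) {M : ℝ} (hM : M ≤ T i o - o ∨
      M ≤ T i y - y) :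
    M + W + X / 2 ≤ min (T i b) (T i wc) + (1 - W) ∧
    ∀ l < d, M + W + X / 2 ≤ min (T i b) (T i wc) + lv l := by
  have hR := h.R1 W (by
    rcases hW with rfl | rfl | rfl <;> simp)
  have e1 := h.e1
  have e2 := h.e2
  have h4 := (h.tc i (p := wc) (q := b) (by simp) (by simp) (by linarith [h.xw, h.hbx])).2
  have h5 := h.td i y (by simp) o (by simp) h.hyo
  have h6 : M + W ≤ T i o + E := by
    rcases hM with hM | hM
    · linarith [h.hxy, h.hyo, h.E0]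
    · linarith [h.hxy, h.hyo, h.E0]
  have h7 : T i b - (2 * (Sg * E) + E) ≤ min (T i b) (T i wc) :=
    le_min (by linarith [mul_nonneg h.Sg0 h.E0.le, h.E0]) (by linarith)
  have h8 := h.tu i b (by simp) o (by simp) (by linarith [h.hbx, h.hxy, h.hyo])
  have h9 : Sg * (o - b) ≤ R := by
    have : (0 : ℝ) ≤ o - b := by linarith [h.hbx, h.hxy, h.hyo]
    nlinarith [h.RS]
  constructor
  · linarith [h.RX, h.X0]
  · intro l hl
    linarith [h.nr.t i l hl, h.X0]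

/-- The conditions of the change of charts for the near path. -/
theorem BoxW.pp (h : BoxW sn d T G nH nV lv b x y o wc vc oc E X Sg φ R κ₀) {W : ℝ}
    (hW : W ∈ ({b, wc, oc} : Set ℝ)) (h3 : W ≤ x) :
    (∀ l < d, nH l + X / 2 ≤ min (sn l b) (sn l wc) + (1 - W) ∧
      nV l + W + X / 2 ≤ min (sn l b) (sn l wc) + (1 - W)) ∧
    ∀ l < d, ∀ l' < l, nH l + X / 2 ≤ min (sn l b) (sn l wc) + lv l' ∧
      nV l + W + X / 2 ≤ min (sn l b) (sn l wc) + lv l' := by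
  have hR := h.R1 W (by
    rcases hW with rfl | rfl | rfl <;> simp)
  have e1 := h.e1
  have h7 : ∀ l < d, sn l b - 3 * E ≤ min (sn l b) (sn l wc) := fun l hl =>
    le_min (by linarith [h.E0]) (by linarith [h.sw hl])
  refine ⟨fun l hl => ⟨?_, ?_⟩, fun l hl l' hl' => ⟨?_, ?_⟩⟩
  · linarith [h7 l hl, h.nr.kh l hl, h.Rk, h.RX, h.X0]
  · linarith [h7 l hl, h.nr.kv l hl, h.Rk, h.RX, h.X0, h.Rb, h.hxy, h.hyo]
  · linarith [h7 l hl, h.nr.sh l hl l' hl', h.X0]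
  · linarith [h7 l hl, h.nr.sv l hl l' hl', h.X0, h.hxy, h.hyo]

/-- **The statement at the indices**: the records at `zw ≤ x` and `zv ≥ y`, the charts at `wc`. -/
def NiX (S : PCl m) (c : ℕ → Fin m) (d : ℕ) {n : ℕ} (k : Fin n → Fin m) (sn : ℕ → ℝ → ℝ)
    (T : Fin n → ℝ → ℝ) (nH nV : ℕ → ℝ) (wc zw zv vc oc κ : ℝ) : Prop :=
  ∀ ε : ℝ, 0 < ε → ∃ κ₁ : ℝ, 0 < κ₁ ∧ ∃ e₀ : ℝ, 0 < e₀ ∧ ∀ K : ℕ, Bas S (fun J F A =>
    ∀ (V : Type) (z : F.Ω → V) (V' : Type) (z' : F.Ω → V'),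
    Mx (fun J F => ptr F J) (vg zw) κ₁ F A z → Mx (fun J F => ptr F J) (vg zv) κ₁ F A z' →
    ∀ u u₁ pa, (tgR m c d k T wc oc).P K e₀ J F A u → (tgR m c d k T wc vc).P K e₀ J F A u₁ →
    (paQ m c d wc (fun l => sn l wc) nH nV).P K e₀ J F A pa →
    CH (Pool.Agent.H49.Ent.cond F.p A True) u (fun ω => (u₁ ω, (pa ω, (z ω, F.W ω)))) ≤
      CH (Pool.Agent.H49.Ent.cond F.p A True) u (fun ω => (pa ω, (z' ω, F.W ω))) + (κ + ε) * J)

/-- **From the indices to the real windows.** -/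
theorem ni_real {c : ℕ → Fin m} {k : Fin n → Fin m} {C₀ : ℝ} (htm : TmC S C₀)
    (hpos : ∀ (τ : ℝ) (J : ℕ) (F : Fam m J) (A : F.Ω → Prop), S.St τ J F A → 0 < Pe F.p A)
    (hW : ChG S c d sn G)
    (att : ∀ i, ∀ w ∈ G, ∃ rk : ℝ, 0 ≤ rk ∧ Att S ((range d).image c) (k i) w (T i w) rk)
    (h : BoxW sn d T G nH nV lv b x y o wc vc oc E X Sg φ R κ₀) {zw zv κ : ℝ} (hzw : zw ≤ x)
    (hzv : y ≤ zv) (hzv1 : zv ≤ 1) (hη : ∃ η, RNum S (fun J F => ptr F J) (vg zw) η)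
    (hη' : ∃ η, RNum S (fun J F => ptr F J) (vg zv) η)
    (hni : NiX S c d k sn T nH nV wc zw zv vc oc κ) {ε : ℝ} (hε : 0 < ε) :
    NiW S c d k sn T nH nV b x y o (κ + 3 * (n * (2 * (Sg * E) + E)) + ε) := by
  obtain ⟨δ, hδ, hδε⟩ : ∃ δ : ℝ, 0 < δ ∧ 8 * δ = ε := ⟨ε / 8, by positivity, by ring⟩
  obtain ⟨W, hWG, hWm, bW, wW, Wx⟩ := h.mx
  have hfp : ∀ (J : ℕ) (F : Fam m J), ∃ χ : PtT F → PtT F, ∀ ω, ptr F J ω = χ (ptr F J ω) :=
    fun J F => ⟨fun x => x, fun _ => rfl⟩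
  have nb := h.nrB hWm bW Wx
  have nw := h.nrW hWm wW Wx
  have hl2 : 0 < Real.log 2 := Real.log_pos one_lt_two
  have hl21 : Real.log 2 ≤ 1 := by
    have := Real.log_two_lt_d9
    linarith
  have hSE : 0 ≤ 2 * (Sg * E) + E := by
    have := mul_nonneg h.Sg0 h.E0.le
    linarith [h.E0]
  have hlog : ∀ {t : ℝ}, t ≤ 2 * (Sg * E) + E → 0 ≤ t → Real.log 2 * t ≤ 2 * (Sg * E) + E := by
    intro t h1 h2
    nlinarith
  have hx1 : x ≤ 1 := h.hxy.trans (hzv.trans hzv1)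
  have hxz : x ≤ zv := h.hxy.trans hzv
  obtain ⟨pp3, pp4⟩ := h.pp hWm Wx
  have pp3' : ∀ l < d, nH l + X / 2 ≤ min (sn l wc) (sn l b) + (1 - W) ∧
      nV l + W + X / 2 ≤ min (sn l wc) (sn l b) + (1 - W) := fun l hl => by
    rw [min_comm]
    exact pp3 l hl
  have pp4' : ∀ l < d, ∀ l' < l, nH l + X / 2 ≤ min (sn l wc) (sn l b) + lv l' ∧
      nV l + W + X / 2 ≤ min (sn l wc) (sn l b) + lv l' := fun l hl => by
    rw [min_comm]
    exact pp4 l hl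
  -- up
  have up : ∀ {U U' : Type} {Q : Qt m U} {Q' : Qt m U'} {a v : ℝ}, W ≤ v → v ≤ 1 →
      FewC S (fun J F => ptr F J) (vg W) (fun _ F => F.W) Q Q' a →
      FewC S (fun J F => ptr F J) (vg v) (fun _ F => F.W) Q Q' a := fun h1 h2 h3 =>
    FewC.up hpos (fun J F => ⟨fun x => x, fun _ => rfl⟩) (fun J F => vg_mono h1 h2 J F)
      (fun J F => ⟨fun x => x, fun _ => rfl⟩) h3
  have mem_b : b ∈ ({b, wc, vc, oc, y, o} : Set ℝ) := by simp
  have mem_w : wc ∈ ({b, wc, vc, oc, y, o} : Set ℝ) := by simp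
  have mem_v : vc ∈ ({b, wc, vc, oc, y, o} : Set ℝ) := by simp
  have mem_oc : oc ∈ ({b, wc, vc, oc, y, o} : Set ℝ) := by simp
  have mem_y : y ∈ ({b, wc, vc, oc, y, o} : Set ℝ) := by simp
  have mem_o : o ∈ ({b, wc, vc, oc, y, o} : Set ℝ) := by simp
  -- the velocities
  have q1 := up Wx hx1 (fewC_tg (f := fun J F => ptr F J) (y := fun _ F => F.W) htm hpos hW hfp kn_W
    hWG nb (k := k) (w₁ := wc) (w₂ := b) (p₁ := fun i => T i wc) (p₂ := fun i => T i b)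
    (N₁ := fun i => T i oc - oc) (N₂ := fun i => T i o - o)
    (M := fun i => min (T i oc - oc) (T i o - o)) (c₀ := 2 * (Sg * E) + E) wW bW
    (fun i => min_le_left _ _) (fun i => min_le_right _ _) (fun i => by
      have h1 := (h.tc i mem_oc mem_o (by linarith [h.oo', h.E0])).1
      rcases min_choice (T i oc - oc) (T i o - o) with h2 | h2
      · refine hlog ?_ ?_
        · rw [h2]
          linarith
        · linarith [min_le_right (T i oc - oc) (T i o - o)]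
      · rw [h2, sub_self, mul_zero]
        exact hSE)
    (fun i => by
      rw [min_comm (T i wc)]
      exact (h.tt hWm Wx i (Or.inl (min_le_right _ _))).1)
    (fun i => by
      rw [min_comm (T i wc)]
      exact (h.tt hWm Wx i (Or.inl (min_le_right _ _))).2))
  have q2 := up Wx hx1 (fewC_tg (f := fun J F => ptr F J) (y := fun _ F => F.W) htm hpos hW hfp kn_W
    hWG nb (k := k) (w₁ := b) (w₂ := wc) (p₁ := fun i => T i b) (p₂ := fun i => T i wc)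
    (N₁ := fun i => T i y - y) (N₂ := fun i => T i vc - vc)
    (M := fun i => min (T i y - y) (T i vc - vc)) (c₀ := 2 * (Sg * E) + E) bW wW
    (fun i => min_le_left _ _) (fun i => min_le_right _ _) (fun i => by
      have h1 := (h.tc i mem_y mem_v (by linarith [h.vy, h.E0])).1
      rcases min_choice (T i y - y) (T i vc - vc) with h2 | h2
      · refine hlog ?_ ?_
        · rw [h2]
          linarith
        · linarith [min_le_right (T i y - y) (T i vc - vc)]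
      · rw [h2, sub_self, mul_zero]
        exact hSE)
    (fun i => (h.tt hWm Wx i (Or.inr (min_le_left _ _))).1)
    (fun i => (h.tt hWm Wx i (Or.inr (min_le_left _ _))).2))
  have q6 := up (Wx.trans hxz) hzv1 (fewC_tg (f := fun J F => ptr F J) (y := fun _ F => F.W) htm hpos
    hW hfp kn_W hWG nb (k := k) (w₁ := b) (w₂ := wc) (p₁ := fun i => T i b) (p₂ := fun i => T i wc)
    (N₁ := fun i => T i o - o) (N₂ := fun i => T i oc - oc)
    (M := fun i => min (T i o - o) (T i oc - oc)) (c₀ := 2 * (Sg * E) + E) bW wW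
    (fun i => min_le_left _ _) (fun i => min_le_right _ _) (fun i => by
      have h1 := (h.tc i mem_o mem_oc (by linarith [h.oo, h.E0])).1
      rcases min_choice (T i o - o) (T i oc - oc) with h2 | h2
      · refine hlog ?_ ?_
        · rw [h2]
          linarith
        · linarith [min_le_right (T i o - o) (T i oc - oc)]
      · rw [h2, sub_self, mul_zero]
        exact hSE)
    (fun i => (h.tt hWm Wx i (Or.inl (min_le_left _ _))).1)
    (fun i => (h.tt hWm Wx i (Or.inl (min_le_left _ _))).2))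
  -- the near path
  have q3 := up Wx hx1 (few_paC (f := fun J F => ptr F J) (y := fun _ F => F.W) htm hpos hW hfp kn_W
    hWG nb wW pp3 pp4).fewC
  have q5 := up (Wx.trans hxz) hzv1 (few_paC (f := fun J F => ptr F J) (y := fun _ F => F.W) htm hpos
    hW hfp kn_W hWG nw bW pp3' pp4').fewC
  obtain ⟨k0, hk0, e0, he0, H0⟩ := hni δ hδ
  obtain ⟨e1, he1, H1⟩ := q1.mx hpos δ hδ
  obtain ⟨e2, he2, H2⟩ := q2.mx hpos δ hδ
  obtain ⟨e3, he3, H3⟩ := q3.mx hpos δ hδ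
  obtain ⟨e5, he5, H5⟩ := q5.mx hpos δ hδ
  obtain ⟨e6, he6, H6⟩ := q6.mx hpos δ hδ
  obtain ⟨e₀, he₀, l0, l1, l2, l3, l5, l6⟩ : ∃ e₀ : ℝ, 0 < e₀ ∧ e₀ ≤ e0 ∧ e₀ ≤ e1 ∧ e₀ ≤ e2 ∧
      e₀ ≤ e3 ∧ e₀ ≤ e5 ∧ e₀ ≤ e6 := by
    refine ⟨min (min (min e0 e1) (min e2 e3)) (min e5 e6), by positivity, ?_, ?_, ?_, ?_, ?_, ?_⟩ <;>
      simp
  obtain ⟨κ₁, hκ₁, m1, m2⟩ : ∃ κ₁ : ℝ, 0 < κ₁ ∧ κ₁ ≤ k0 ∧ κ₁ ≤ δ / 2 :=
    ⟨min k0 (δ / 2), by positivity, min_le_left _ _, min_le_right _ _⟩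
  have xw : ∀ v : ℝ, Exs S (tgR m c d k T wc v) := fun v => exs_pi fun i => by
    obtain ⟨rk, r1, r2⟩ := att i wc h.gw
    exact exs_jet r1 r2
  obtain ⟨K₁, M₁, X1⟩ := xw oc e₀ he₀
  obtain ⟨K₂, M₂, X2⟩ := xw vc e₀ he₀
  obtain ⟨K₃, M₃, X3⟩ := exs_pa hW h.gw nH nV e₀ he₀
  obtain ⟨η, hη⟩ := hη
  obtain ⟨η', hη'⟩ := hη'
  refine ⟨κ₁, hκ₁, e₀, he₀, fun K => ?_⟩
  obtain ⟨L, hL0, hL1, hL2, hL3⟩ : ∃ L : ℕ, K ≤ L ∧ K₁ ≤ L ∧ K₂ ≤ L ∧ K₃ ≤ L :=
    ⟨max (max K K₁) (max K₂ K₃), (le_max_left _ _).trans (le_max_left _ _),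
      (le_max_right _ _).trans (le_max_left _ _), (le_max_left _ _).trans (le_max_right _ _),
      (le_max_right _ _).trans (le_max_right _ _)⟩
  refine Bas.mono 0 (((((H0 L).and (H1 L)).and ((H2 L).and (H3 L))).and ((H5 L).and (H6 L))).and
    (((mx_ex hpos hη κ₁ hκ₁).and (mx_ex hpos hη' κ₁ hκ₁)).and
      ((pos_bas hpos).and (X1.and (X2.and X3))))) ?_
  rintro J - F A ⟨⟨⟨⟨H0, H1⟩, H2, H3⟩, H5, H6⟩, ⟨⟨Vw, zq, hzq⟩, Vv, zr, hzr⟩, hA,
    ⟨v, hv, -⟩, ⟨v₁, hv₁, -⟩, pb, hpb, -⟩ V z V' z' hz hz' u u₁ pa hu hu₁ hpa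
  have hcl := isLaw_cond F.isLaw hA
  have hJ0 : (0 : ℝ) ≤ J := Nat.cast_nonneg J
  have hv := (tgR m c d k T wc oc).mono hL1 le_rfl hv
  have hv₁ := (tgR m c d k T wc vc).mono hL2 le_rfl hv₁
  have hpb := (paQ m c d wc (fun l => sn l wc) nH nV).mono hL3 le_rfl hpb
  have hu := (tgR m c d k T b o).mono hL0 le_rfl hu
  have hu₁ := (tgR m c d k T b y).mono hL0 le_rfl hu₁
  have hpa := (paQ m c d b (fun l => sn l b) nH nV).mono hL0 le_rfl hpa
  -- the records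
  have hz2 := hz.le' m2
  have hzr2 := hzr.le' m2
  have r0 := H0 _ zq _ zr (hzq.le' m1) (hzr.le' m1) v v₁ pb
    ((tgR m c d k T wc oc).mono le_rfl l0 hv) ((tgR m c d k T wc vc).mono le_rfl l0 hv₁)
    ((paQ m c d _ _ nH nV).mono le_rfl l0 hpb)
  have r1 := H1 _ z hz2 (fun ω => (pa ω, v ω)) u
    ⟨(paQ m c d _ _ nH nV).mono le_rfl l1 hpa, (tgR m c d k T wc oc).mono le_rfl l1 hv⟩
    ((tgR m c d k T b o).mono le_rfl l1 hu)
  have r2 := H2 _ z hz2 (fun ω => (pa ω, u₁ ω)) v₁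
    ⟨(paQ m c d _ _ nH nV).mono le_rfl l2 hpa, (tgR m c d k T b y).mono le_rfl l2 hu₁⟩
    ((tgR m c d k T wc vc).mono le_rfl l2 hv₁)
  have r3 := H3 _ z hz2 pa pb ((paQ m c d _ _ nH nV).mono le_rfl l3 hpa)
    ((paQ m c d _ _ nH nV).mono le_rfl l3 hpb)
  have r5 := H5 _ zr hzr2 pb pa ((paQ m c d _ _ nH nV).mono le_rfl l5 hpb)
    ((paQ m c d _ _ nH nV).mono le_rfl l5 hpa)
  have r6 := H6 _ zr hzr2 (fun ω => (pa ω, u ω)) v
    ⟨(paQ m c d _ _ nH nV).mono le_rfl l6 hpa, (tgR m c d k T b o).mono le_rfl l6 hu⟩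
    ((tgR m c d k T wc oc).mono le_rfl l6 hv)
  have r4 := hz.2 _ zq (cl2_vg (f := fun J F => ptr F J) hzw hx1 hzq.1)
  have r7 := hzr.2 _ z' (cl2_vg (f := fun J F => ptr F J) hzv hzv1 hz'.1)
  have hδJ : 0 ≤ δ * J := by positivity
  have hκJ : κ₁ * J ≤ (0 + δ) * J := mul_le_mul_of_nonneg_right (by linarith) hJ0
  have key := ni_swap hcl.nonneg (q := Pool.Agent.H49.Ent.cond F.p A True) (u := u) (u₁ := u₁)
    (v := v) (v₁ := v₁) (pa := pa) (pb := pb) (w := F.W) (x := z) (x' := z') (z := zq) (z' := zr)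
    r0 r1 r2 r3 (r4.trans hκJ) r5 r6 (r7.trans hκJ)
  refine key.trans (le_of_eq ?_)
  rw [← hδε]
  ring

end

end Pool.LP30
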