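import Pool.Agent.H30.LP.Nir

/-!
# No look-ahead given the near path, at real windows

`NrW`: the digits of the near path over the charts of the window `b ∈ G`, for windows up to `o`.
`NiG`: in small boxes around `g`, given the near path over the charts of `b`, the record at the
window `y` does not see the velocities of the targets behind the natural digits of `y`. `ni_box`: it
holds if the numbers are good at `g`. `ni_ae`: at almost every window, in a subclass.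
-/

set_option autoImplicit false

namespace Pool.LP30

open Finset Real MvPolynomial
open Pool.Agent.H49.Ent Pool.Agent.H32.Dense Pool.STK Pool.KA Pool.KSAT Pool.K2S Pool.PB Pool.S6C
  Pool.GEN Pool.RCD Pool.LA91
open Pool.OWN83 (TwoRelS TRelS yX kn0_yX ae_shift)
open Pool.OWN68 (cl2_vg)
open Pool.AVG96 (fl fl_mem fl_mono le_fl whG)

variable {m : ℕ} {S : PCl m}

/-- **The digits of the near path** over the charts of `b`, for windows up to `o`. -/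
structure NrW (sn : ℕ → ℝ → ℝ) (d : ℕ) {n : ℕ} (T : Fin n → ℝ → ℝ) (nH nV lv : ℕ → ℝ)
    (b o τ κ₀ : ℝ) : Prop where
  lv0 : ∀ l < d, 0 < lv l
  h : ∀ l < d, sn l b + (o - b) + lv l + τ ≤ nH l
  v : ∀ l < d, sn l b + lv l + τ ≤ nV l + b
  s : ∀ l < d, ∀ l' < l, (o - b) + lv l + τ ≤ lv l'
  sh : ∀ l < d, ∀ l' < l, nH l + τ ≤ sn l b + lv l'
  sv : ∀ l < d, ∀ l' < l, nV l + o + τ ≤ sn l b + lv l'
  t : ∀ i, ∀ l < d, T i o + τ ≤ T i b + lv l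
  kh : ∀ l < d, nH l ≤ sn l b + κ₀
  kv : ∀ l < d, nV l + b ≤ sn l b + κ₀

/-- **The velocities of the targets** over the charts of `b`, to the natural digits of `o`. -/
noncomputable def tgR (m : ℕ) (c : ℕ → Fin m) (d : ℕ) {n : ℕ} (k : Fin n → Fin m)
    (T : Fin n → ℝ → ℝ) (b o : ℝ) : Qt m (Fin n → ℤ) :=
  Qt.pi fun i : Fin n => qJet m ((range d).image c) (k i) 1 b (T i b) (T i o - o)

/-- **No look-ahead given the near path**, between the windows `x ≤ y`, digits of `o`. -/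
def NiW (S : PCl m) (c : ℕ → Fin m) (d : ℕ) {n : ℕ} (k : Fin n → Fin m) (sn : ℕ → ℝ → ℝ)
    (T : Fin n → ℝ → ℝ) (nH nV : ℕ → ℝ) (b x y o κ : ℝ) : Prop :=
  ∃ κ₁ : ℝ, 0 < κ₁ ∧ ∃ e₀ : ℝ, 0 < e₀ ∧ ∀ K : ℕ, Bas S (fun J F A =>
    ∀ (V : Type) (z : F.Ω → V) (V' : Type) (z' : F.Ω → V'),
    Mx (fun J F => ptr F J) (vg x) κ₁ F A z → Mx (fun J F => ptr F J) (vg y) κ₁ F A z' →
    ∀ u u₁ pa, (tgR m c d k T b o).P K e₀ J F A u → (tgR m c d k T b y).P K e₀ J F A u₁ →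
    (paQ m c d b (fun l => sn l b) nH nV).P K e₀ J F A pa →
    CH (Pool.Agent.H49.Ent.cond F.p A True) u (fun ω => (u₁ ω, (pa ω, (z ω, F.W ω)))) ≤
      CH (Pool.Agent.H49.Ent.cond F.p A True) u (fun ω => (pa ω, (z' ω, F.W ω))) + κ * J)

/-- **No look-ahead given the near path**, in small boxes around `g`. -/
def NiG (S : PCl m) (c : ℕ → Fin m) (d : ℕ) {n : ℕ} (k : Fin n → Fin m) (sn : ℕ → ℝ → ℝ)
    (T : Fin n → ℝ → ℝ) (G : Set ℝ) (g : ℝ) : Prop :=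
  ∀ e : ℝ, 0 < e → ∃ κ₀ : ℝ, 0 < κ₀ ∧ ∃ r₀ : ℝ, 0 < r₀ ∧ ∀ r : ℝ, 0 < r → r < r₀ →
    ∀ b ∈ G, ∀ x y o : ℝ, g - r ≤ b → b ≤ x → x ≤ y → y ≤ o → o ≤ g + r →
    ∀ nH nV lv : ℕ → ℝ, NrW sn d T nH nV lv b o (e * r) κ₀ →
      NiW S c d k sn T nH nV b x y o (e * r)

theorem NiW.sub {S' : PCl m} (hs : ∀ (τ : ℝ) (J : ℕ) (F : Fam m J) (A : F.Ω → Prop),
    S'.St τ J F A → S.St τ J F A) {c : ℕ → Fin m} {d n : ℕ} {k : Fin n → Fin m}
    {sn : ℕ → ℝ → ℝ} {T : Fin n → ℝ → ℝ} {nH nV : ℕ → ℝ} {b x y o κ : ℝ}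
    (h : NiW S c d k sn T nH nV b x y o κ) : NiW S' c d k sn T nH nV b x y o κ := by
  obtain ⟨k₁, hk, e, he, H⟩ := h
  exact ⟨k₁, hk, e, he, fun K => (H K).sub hs⟩

theorem NiG.sub {S' : PCl m} (hs : ∀ (τ : ℝ) (J : ℕ) (F : Fam m J) (A : F.Ω → Prop),
    S'.St τ J F A → S.St τ J F A) {c : ℕ → Fin m} {d n : ℕ} {k : Fin n → Fin m}
    {sn : ℕ → ℝ → ℝ} {T : Fin n → ℝ → ℝ} {G : Set ℝ} {g : ℝ}
    (h : NiG S c d k sn T G g) : NiG S' c d k sn T G g := by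
  intro e he
  obtain ⟨κ₀, hκ, r₀, hr, H⟩ := h e he
  exact ⟨κ₀, hκ, r₀, hr, fun r h1 h2 b hb x y o a1 a2 a3 a4 a5 nH nV lv hN =>
    (H r h1 h2 b hb x y o a1 a2 a3 a4 a5 nH nV lv hN).sub hs⟩

/-- **The levels of the targets** on the reals: slopes between `1` and `Sg`. -/
def TgB {n : ℕ} (T : Fin n → ℝ → ℝ) (g Sg : ℝ) : Prop :=
  ∀ η : ℝ, 0 < η → ∃ ρ : ℝ, 0 < ρ ∧ ∀ t : ℝ, 0 < t → t < ρ → ∀ i, ∀ w v : ℝ, g - t ≤ w → w ≤ v →
    v ≤ g + t → (v - w) - η * t ≤ T i v - T i w ∧ T i v - T i w ≤ Sg * (v - w) + η * t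

section

variable {c : ℕ → Fin m} {d : ℕ} {s a b₀ A g Sg : ℝ} {sn : ℕ → ℝ → ℝ} {G : Set ℝ}
  {n : ℕ} {k : Fin n → Fin m} {T : Fin n → ℝ → ℝ}

/-- The class at real windows. -/
structure NiC (S : PCl m) (c : ℕ → Fin m) (d : ℕ) {n : ℕ} (k : Fin n → Fin m) (sn : ℕ → ℝ → ℝ)
    (T : Fin n → ℝ → ℝ) (G : Set ℝ) (s A B : ℝ) : Prop where
  ne : S.Ne
  pos : ∀ (τ : ℝ) (J : ℕ) (F : Fam m J) (A : F.Ω → Prop), S.St τ J F A → 0 < Pe F.p A
  tm : ∃ C₀, TmC S C₀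
  rn : ∀ w : ℚ, A < (w : ℝ) + s → (w : ℝ) + s < B → ∃ η, RNum S (fun J F => ptr F J) (vg ((w : ℝ) + s)) η
  cl : IsClosed G
  ch : ChG S c d sn G
  mn : ∀ l < d, ∀ w ∈ G, ∀ v ∈ G, w ≤ v → sn l w ≤ sn l v
  att : ∀ i, ∀ w ∈ G, ∃ rk : ℝ, 0 ≤ rk ∧ Att S ((range d).image c) (k i) w (T i w) rk
  mT : ∀ i, ∀ w ∈ G, ∀ v ∈ G, w ≤ v → T i w - w ≤ T i v - v
  B1 : B < 1

theorem kn_yX (c : ℕ → Fin m) (d : ℕ) : Kn ((range 0).image c) 1 1 (yX (m := m) ((range d).image c)) := by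
  intro J F
  refine ⟨fun v => (v.2.1, fun _ => 0, fun _ => 0), fun ω => ?_⟩
  simp only [range_zero, image_empty, notMem_empty, if_false]
  rfl

theorem knP_yX (c : ℕ → Fin m) (d : ℕ) : KnP c d (yX (m := m) ((range d).image c)) := by
  intro J F
  refine ⟨fun v l => v.1 (c l), fun ω => funext fun l => ?_⟩
  show (if c l ∈ (range d).image c then F.X J ω (c l) else 0) = _
  rw [if_pos (mem_image_of_mem c (mem_range.2 l.2))]

/-- The class at the indices. -/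
theorem NiC.vch {B : ℝ} (h : NiC S c d k sn T G s A B) {a : ℝ}
    (hA : ∃ u ∈ G, A ≤ u ∧ u ≤ a + s) :
    VCh S (fun J F => ptr F J) (yX ((range d).image c)) c d s a (B - s) (whG G A s) sn G := by
  obtain ⟨u, hu, hu1, hu2⟩ := hA
  have hne : ∀ w : ℚ, a < w → (G ∩ Set.Icc A ((w : ℝ) + s)).Nonempty := fun w hw =>
    ⟨u, hu, hu1, by linarith⟩
  have hm : ∀ w : ℚ, a < w → whG G A s w ∈ G ∧ A ≤ whG G A s w ∧ whG G A s w ≤ w + s :=
    fun w hw => fl_mem h.cl (hne w hw)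
  have hmo : ∀ w v : ℚ, a < w → w ≤ v → whG G A s w ≤ whG G A s v := fun w v e1 e2 => by
    have : (w : ℝ) ≤ v := by exact_mod_cast e2
    exact fl_mono (hne w e1) (by linarith)
  exact
  { ne := h.ne
    pos := h.pos
    tm := h.tm
    rn := fun w e1 e2 => h.rn w (by linarith) (by linarith)
    ch := h.ch
    wg := fun w e1 e2 => ⟨(hm w e1).1, (hm w e1).2.2⟩
    wm := fun w v e1 e2 e3 => hmo w v e1 e2
    mn := fun l hl w v e1 e2 e3 => h.mn l hl _ (hm w e1).1 _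
      (hm v (lt_of_lt_of_le e1 (by exact_mod_cast e2))).1 (hmo w v e1 e2)
    pt := fun J F => ⟨fun x => x, fun _ => rfl⟩
    kn := kn_yX c d
    kx := knP_yX c d
    b1 := by linarith [h.B1] }

theorem NiC.tgc {B : ℝ} (h : NiC S c d k sn T G s A B) {a : ℝ}
    (hA : ∃ u ∈ G, A ≤ u ∧ u ≤ a + s) :
    TgC S c d (whG G A s) a (B - s) k (fun i w => T i (whG G A s w)) := by
  have hv := h.vch hA
  exact
  { att := fun i w e1 e2 => h.att i _ (hv.wg w e1 e2).1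
    mono := fun i w v e1 e2 e3 => h.mT i _ (hv.wg w e1 (lt_of_le_of_lt (by exact_mod_cast e2) e3)).1 _
      (hv.wg v (lt_of_lt_of_le e1 (by exact_mod_cast e2)) e3).1 (hv.wm w v e1 e2 e3) }

end

end Pool.LP30
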