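import Pool.Agent.H30.LP.Crq

/-!
# Change of the charts for the near path and for the targets

`NrC`: the digits of the near path over the charts of `b` are enough for charts of windows up to
`W`. `few_tgC`, `fewC_tg`: the velocities of the targets; `few_paC`: the near path. `ni_swap`: no
look-ahead for other charts and other windows, entropies.
-/

set_option autoImplicit false

namespace Pool.LP30

open Finset Real MvPolynomial
open Pool.Agent.H49.Ent Pool.Agent.H32.Dense Pool.STK Pool.KA Pool.KSAT Pool.K2S Pool.PB Pool.S6C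
  Pool.GEN Pool.RCD Pool.LA91

variable {m : ℕ} {U U' : Type} {α β γ : ∀ J : ℕ, Fam m J → Type}
  {f : ∀ (J : ℕ) (F : Fam m J), F.Ω → α J F} {g : ∀ (J : ℕ) (F : Fam m J), F.Ω → β J F}
  {y : ∀ (J : ℕ) (F : Fam m J), F.Ω → γ J F} {S : PCl m}

/-- **The digits of the near path** over the charts of `b` are enough up to the window `W`. -/
structure NrC (sn : ℕ → ℝ → ℝ) (d : ℕ) (nH nV lv : ℕ → ℝ) (σ₀ b W : ℝ) : Prop where
  σ0 : 0 < σ₀
  bW : b ≤ W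
  lv0 : ∀ l < d, 0 < lv l
  mn : ∀ l < d, sn l b ≤ sn l W
  h : ∀ l < d, sn l W + lv l + σ₀ ≤ nH l
  v : ∀ l < d, sn l W + lv l + σ₀ ≤ nV l + W
  r : ∀ l < d, sn l W + lv l + σ₀ ≤ sn l b + (1 - W)
  s : ∀ l < d, ∀ l' < l, sn l W + lv l + σ₀ ≤ sn l b + lv l'

section

variable {c : ℕ → Fin m} {d : ℕ} {sn : ℕ → ℝ → ℝ} {G : Set ℝ}

/-- **The velocity of a target over other charts**, given the near path. -/
theorem few_tgC {C₀ : ℝ} (htm : TmC S C₀) (hW : ChG S c d sn G)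
    (hf : ∀ (J : ℕ) (F : Fam m J), ∃ φ : α J F → PtT F, ∀ ω, ptr F J ω = φ (f J F ω))
    (hy : Kn ((range 0).image c) 1 1 y) {b W : ℝ} (hWG : W ∈ G) {nH nV lv : ℕ → ℝ} {σ₀ : ℝ}
    (hr : NrC sn d nH nV lv σ₀ b W) {k : Fin m} {w₁ w₂ p₁ p₂ N₁ N₂ : ℝ} (h1 : w₁ ≤ W)
    (h2 : w₂ ≤ W) (hN : N₂ ≤ N₁) (t1 : N₂ + W + σ₀ ≤ min p₁ p₂ + (1 - W))
    (t2 : ∀ l < d, N₂ + W + σ₀ ≤ min p₁ p₂ + lv l) :
    Few S f (vg W) y ((paQ m c d b (fun l => sn l b) nH nV).prod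
      (qJet m ((range d).image c) k 1 w₁ p₁ N₁)) (qJet m ((range d).image c) k 1 w₂ p₂ N₂) := by
  obtain ⟨u₁, rd, hrd, hch⟩ := hW.ch W hWG
  have e0 : min (1 : ℝ) (1 - W) = 1 - W := min_eq_right (by linarith [hch.w0])
  refine few_jetN (f := f) (y := y) htm hch (k := k) (j := 1) (wv := fun _ _ => b)
    (pv := fun l _ => sn l b) (Nv := fun l j => if j = 0 then nH l else nV l) (lv := lv)
    (w₁ := w₁) (w₂ := w₂) (p₁ := p₁) (p₂ := p₂) (N₁ := N₁) (N₂ := N₂) (p₀ := 1) (lam := 1)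
    (σ₀ := σ₀) (fun _ _ _ _ _ => hr.bW) h1 h2 hch.u0 le_rfl one_pos hr.σ0
    (fun l _ hl => hr.lv0 l hl)
    (fun l _ hl j' hj' => ?_) (fun l _ hl j' hj' => ?_) (fun l _ hl j' hj' l' _ hl' => ?_)
    hN ?_ (fun l _ hl => ?_) hf hy
  · rcases Nat.eq_zero_or_pos j' with rfl | hj
    · simp only [if_true, Nat.cast_zero, zero_mul, add_zero]
      exact hr.h l hl
    · obtain rfl : j' = 1 := by omega
      simp only [one_ne_zero, if_false, Nat.cast_one, one_mul]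
      exact hr.v l hl
  · rw [e0, min_eq_left (hr.mn l hl)]
    exact hr.r l hl
  · rw [min_eq_left (hr.mn l hl)]
    exact hr.s l hl l' hl'
  · rw [e0]
    push_cast
    linarith
  · push_cast
    linarith [t2 l hl]

/-- The same, any digits. -/
theorem fewC_tgC {C₀ : ℝ} (htm : TmC S C₀)
    (hpos : ∀ (τ : ℝ) (J : ℕ) (F : Fam m J) (A : F.Ω → Prop), S.St τ J F A → 0 < Pe F.p A)
    (hW : ChG S c d sn G)
    (hf : ∀ (J : ℕ) (F : Fam m J), ∃ φ : α J F → PtT F, ∀ ω, ptr F J ω = φ (f J F ω))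
    (hy : Kn ((range 0).image c) 1 1 y) {b W : ℝ} (hWG : W ∈ G) {nH nV lv : ℕ → ℝ} {σ₀ : ℝ}
    (hr : NrC sn d nH nV lv σ₀ b W) {k : Fin m} {w₁ w₂ p₁ p₂ N₁ N₂ M c₀ : ℝ} (h1 : w₁ ≤ W)
    (h2 : w₂ ≤ W) (hM1 : M ≤ N₁) (hM2 : M ≤ N₂) (hc : Real.log 2 * (N₂ - M) ≤ c₀)
    (t1 : M + W + σ₀ ≤ min p₁ p₂ + (1 - W))
    (t2 : ∀ l < d, M + W + σ₀ ≤ min p₁ p₂ + lv l) :
    FewC S f (vg W) y ((paQ m c d b (fun l => sn l b) nH nV).prod
      (qJet m ((range d).image c) k 1 w₁ p₁ N₁)) (qJet m ((range d).image c) k 1 w₂ p₂ N₂) c₀ :=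
  (few_more hpos hM2 (few_tgC htm hW hf hy hWG hr h1 h2 hM1 t1 t2)).mono hc

/-- **The velocities of the targets over other charts.** -/
theorem fewC_tg {C₀ : ℝ} (htm : TmC S C₀)
    (hpos : ∀ (τ : ℝ) (J : ℕ) (F : Fam m J) (A : F.Ω → Prop), S.St τ J F A → 0 < Pe F.p A)
    (hW : ChG S c d sn G)
    (hf : ∀ (J : ℕ) (F : Fam m J), ∃ φ : α J F → PtT F, ∀ ω, ptr F J ω = φ (f J F ω))
    (hy : Kn ((range 0).image c) 1 1 y) {b W : ℝ} (hWG : W ∈ G) {nH nV lv : ℕ → ℝ} {σ₀ : ℝ}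
    (hr : NrC sn d nH nV lv σ₀ b W) {n : ℕ} {k : Fin n → Fin m} {w₁ w₂ c₀ : ℝ}
    {p₁ p₂ N₁ N₂ M : Fin n → ℝ} (h1 : w₁ ≤ W)
    (h2 : w₂ ≤ W) (hM1 : ∀ i, M i ≤ N₁ i) (hM2 : ∀ i, M i ≤ N₂ i)
    (hc : ∀ i, Real.log 2 * (N₂ i - M i) ≤ c₀)
    (t1 : ∀ i, M i + W + σ₀ ≤ min (p₁ i) (p₂ i) + (1 - W))
    (t2 : ∀ i, ∀ l < d, M i + W + σ₀ ≤ min (p₁ i) (p₂ i) + lv l) :
    FewC S f (vg W) y ((paQ m c d b (fun l => sn l b) nH nV).prod
      (Qt.pi fun i : Fin n => qJet m ((range d).image c) (k i) 1 w₁ (p₁ i) (N₁ i)))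
      (Qt.pi fun i : Fin n => qJet m ((range d).image c) (k i) 1 w₂ (p₂ i) (N₂ i)) (n * c₀) := by
  have h4 : ∀ i : Fin n, FewC S f (vg W) y ((paQ m c d b (fun l => sn l b) nH nV).prod
      (Qt.pi fun i : Fin n => qJet m ((range d).image c) (k i) 1 w₁ (p₁ i) (N₁ i)))
      (qJet m ((range d).image c) (k i) 1 w₂ (p₂ i) (N₂ i)) c₀ := by
    intro i
    have h5 := fewC_tgC htm hpos hW hf hy hWG hr (k := k i) h1 h2 (hM1 i) (hM2 i) (hc i) (t1 i)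
      (t2 i)
    refine FewC.pre hpos (fun u : (ℕ → ℕ → ℤ) × (Fin n → ℤ) => (u.1, u.2 i)) ?_ h5
    intro K e J F A u hu
    exact ⟨hu.1, hu.2 i⟩
  have h3 := fewC_pi hpos h4
  refine h3.mono (le_of_eq ?_)
  rw [Finset.sum_const, Finset.card_univ, Fintype.card_fin, nsmul_eq_mul]

/-- **The near path over other charts.** -/
theorem few_paC {C₀ : ℝ} (htm : TmC S C₀)
    (hpos : ∀ (τ : ℝ) (J : ℕ) (F : Fam m J) (A : F.Ω → Prop), S.St τ J F A → 0 < Pe F.p A)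
    (hW : ChG S c d sn G)
    (hf : ∀ (J : ℕ) (F : Fam m J), ∃ φ : α J F → PtT F, ∀ ω, ptr F J ω = φ (f J F ω))
    (hy : Kn ((range 0).image c) 1 1 y) {b W : ℝ} (hWG : W ∈ G) {nH nV lv : ℕ → ℝ} {σ₀ : ℝ}
    (hr : NrC sn d nH nV lv σ₀ b W) {b' : ℝ} (hb' : b' ≤ W)
    (h3 : ∀ l < d, nH l + σ₀ ≤ min (sn l b) (sn l b') + (1 - W) ∧
      nV l + W + σ₀ ≤ min (sn l b) (sn l b') + (1 - W))
    (h3' : ∀ l < d, ∀ l' < l, nH l + σ₀ ≤ min (sn l b) (sn l b') + lv l' ∧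
      nV l + W + σ₀ ≤ min (sn l b) (sn l b') + lv l') :
    Few S f (vg W) y (paQ m c d b (fun l => sn l b) nH nV)
      (paQ m c d b' (fun l => sn l b') nH nV) := by
  obtain ⟨u₁, rd, hrd, hch⟩ := hW.ch W hWG
  have e0 : min (1 : ℝ) (1 - W) = 1 - W := min_eq_right (by linarith [hch.w0])
  refine few_jets (f := f) (y := y) htm hpos hch (j := 1) (wv := fun _ _ => b)
    (pv := fun l _ => sn l b) (Nv := fun l j => if j = 0 then nH l else nV l) (lv := lv)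
    (wv' := fun _ _ => b') (pv' := fun l _ => sn l b')
    (Nv' := fun l j => if j = 0 then nH l else nV l) (p₀ := 1) (lam := 1)
    (σ₀ := σ₀) (fun _ _ _ _ _ => hr.bW) (fun _ _ _ _ _ => hb') hch.u0 le_rfl one_pos hr.σ0
    (fun l _ hl => hr.lv0 l hl)
    (fun l _ hl j' hj' => ?_) (fun l _ hl j' hj' => ?_) (fun l _ hl j' hj' l' _ hl' => ?_)
    (fun _ _ _ _ _ => le_rfl) (fun l _ hl j' hj' => ?_) (fun l _ hl j' hj' l' _ hl' => ?_) hf hy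
  · rcases Nat.eq_zero_or_pos j' with rfl | hj
    · simp only [if_true, Nat.cast_zero, zero_mul, add_zero]
      exact hr.h l hl
    · obtain rfl : j' = 1 := by omega
      simp only [one_ne_zero, if_false, Nat.cast_one, one_mul]
      exact hr.v l hl
  · rw [e0, min_eq_left (hr.mn l hl)]
    exact hr.r l hl
  · rw [min_eq_left (hr.mn l hl)]
    exact hr.s l hl l' hl'
  · rw [e0]
    rcases Nat.eq_zero_or_pos j' with rfl | hj
    · simp only [if_true, Nat.cast_zero, zero_mul, add_zero]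
      exact (h3 l hl).1
    · obtain rfl : j' = 1 := by omega
      simp only [one_ne_zero, if_false, Nat.cast_one, one_mul]
      exact (h3 l hl).2
  · rcases Nat.eq_zero_or_pos j' with rfl | hj
    · simp only [if_true, Nat.cast_zero, zero_mul, add_zero]
      exact (h3' l hl l' hl').1
    · obtain rfl : j' = 1 := by omega
      simp only [one_ne_zero, if_false, Nat.cast_one, one_mul]
      exact (h3' l hl l' hl').2

/-- The near path exists. -/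
theorem exs_pa (hW : ChG S c d sn G) {b : ℝ} (hb : b ∈ G) (nH nV : ℕ → ℝ) :
    Exs S (paQ m c d b (fun l => sn l b) nH nV) := by
  obtain ⟨u₁, rd, hrd, hch⟩ := hW.ch b hb
  exact exs_qjets fun l l0 l1 j' _ => exs_jet (hrd l (by omega)) (hch.att l l0 l1)

end

/-- **Other charts and other windows**, entropies. -/
theorem ni_swap {Ω D D₁ D' D₁' P P' W Z Z' X X' : Type} [Fintype Ω] {q : Ω → ℝ}
    (h0 : ∀ ω, 0 ≤ q ω) {u : Ω → D} {u₁ : Ω → D₁} {v : Ω → D'} {v₁ : Ω → D₁'} {pa : Ω → P}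
    {pb : Ω → P'} {w : Ω → W} {x : Ω → X} {x' : Ω → X'} {z : Ω → Z} {z' : Ω → Z'}
    {E k k₁ k₂ k₃ : ℝ}
    (ni : CH q v (fun ω => (v₁ ω, (pb ω, (z ω, w ω)))) ≤ CH q v (fun ω => (pb ω, (z' ω, w ω))) + E)
    (h1 : CH q u (fun ω => ((pa ω, v ω), (x ω, w ω))) ≤ k₁)
    (h2 : CH q v₁ (fun ω => ((pa ω, u₁ ω), (x ω, w ω))) ≤ k₂)
    (h3 : CH q pb (fun ω => (pa ω, (x ω, w ω))) ≤ k)
    (h4 : CH q z x ≤ k)
    (h5 : CH q pa (fun ω => (pb ω, (z' ω, w ω))) ≤ k)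
    (h6 : CH q v (fun ω => ((pa ω, u ω), (z' ω, w ω))) ≤ k₃)
    (h7 : CH q x' z' ≤ k) :
    CH q u (fun ω => (u₁ ω, (pa ω, (x ω, w ω)))) ≤ CH q u (fun ω => (pa ω, (x' ω, w ω))) +
      E + 4 * k + k₁ + k₂ + k₃ := by
  have s1 := CH_le_add h0 u v (fun ω => (u₁ ω, (pa ω, (x ω, w ω))))
  have s1' : CH q u (fun ω => (v ω, (u₁ ω, (pa ω, (x ω, w ω))))) ≤
      CH q u (fun ω => ((pa ω, v ω), (x ω, w ω))) := by
    refine CH_mono_cond h0 fun ω ω' _ _ h => ?_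
    simp only [Prod.mk.injEq] at h ⊢
    tauto
  have s2 := CH_le_add h0 v (fun ω => (v₁ ω, (pb ω, z ω))) (fun ω => (u₁ ω, (pa ω, (x ω, w ω))))
  have s2' : CH q v (fun ω => ((v₁ ω, (pb ω, z ω)), (u₁ ω, (pa ω, (x ω, w ω))))) ≤
      CH q v (fun ω => (v₁ ω, (pb ω, (z ω, w ω)))) := by
    refine CH_mono_cond h0 fun ω ω' _ _ h => ?_
    simp only [Prod.mk.injEq] at h ⊢
    tauto
  have s3 := CH_subadd h0 v₁ (fun ω => (pb ω, z ω)) (fun ω => (u₁ ω, (pa ω, (x ω, w ω))))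
  have s3' : CH q v₁ (fun ω => (u₁ ω, (pa ω, (x ω, w ω)))) ≤
      CH q v₁ (fun ω => ((pa ω, u₁ ω), (x ω, w ω))) := by
    refine CH_mono_cond h0 fun ω ω' _ _ h => ?_
    simp only [Prod.mk.injEq] at h ⊢
    tauto
  have s4 := CH_subadd h0 pb z (fun ω => (u₁ ω, (pa ω, (x ω, w ω))))
  have s4' : CH q pb (fun ω => (u₁ ω, (pa ω, (x ω, w ω)))) ≤ CH q pb (fun ω => (pa ω, (x ω, w ω))) :=
    CH_mono_cond h0 fun _ _ _ _ h => (Prod.ext_iff.mp h).2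
  have s4'' : CH q z (fun ω => (u₁ ω, (pa ω, (x ω, w ω)))) ≤ CH q z x := by
    refine CH_mono_cond h0 fun ω ω' _ _ h => ?_
    simp only [Prod.mk.injEq] at h
    exact h.2.2.1
  -- the right hand side
  have s5 := CH_le_add h0 v (fun ω => (u ω, (pa ω, x' ω))) (fun ω => (pb ω, (z' ω, w ω)))
  have s5' : CH q v (fun ω => ((u ω, (pa ω, x' ω)), (pb ω, (z' ω, w ω)))) ≤
      CH q v (fun ω => ((pa ω, u ω), (z' ω, w ω))) := by
    refine CH_mono_cond h0 fun ω ω' _ _ h => ?_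
    simp only [Prod.mk.injEq] at h ⊢
    tauto
  have s6 := CH_chain h0 u (fun ω => (pa ω, x' ω)) (fun ω => (pb ω, (z' ω, w ω)))
  have s6' : CH q u (fun ω => ((pa ω, x' ω), (pb ω, (z' ω, w ω)))) ≤
      CH q u (fun ω => (pa ω, (x' ω, w ω))) := by
    refine CH_mono_cond h0 fun ω ω' _ _ h => ?_
    simp only [Prod.mk.injEq] at h ⊢
    tauto
  have s7 := CH_subadd h0 pa x' (fun ω => (pb ω, (z' ω, w ω)))
  have s7' : CH q x' (fun ω => (pb ω, (z' ω, w ω))) ≤ CH q x' z' := by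
    refine CH_mono_cond h0 fun ω ω' _ _ h => ?_
    simp only [Prod.mk.injEq] at h
    exact h.2.1
  linarith

end Pool.LP30
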