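import Pool.Agent.H91.V0F.Fup
import Pool.Agent.H83.OWN.Shf
import Pool.Agent.H30.LP.Dea

/-!
# Velocities over charts, the exact positions of the places of a chain are known

`few_tgX`: change of the charts for the velocity of a coordinate over the charts of a chain, given
the velocities of the chain to `N l` digits; the heights of the chain are known from the exact
positions. `VCh`: the class and the chain; `EdS`: the digits `N l` on an interval, steps less than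
`lam`. `rel_V`: the velocities of several coordinates over the chain are a relative two-parameter
family. `V_back`: the number of the velocities of the chain decreases. `V_bits`: it is at most the
number of digits behind the natural ones.
-/

set_option autoImplicit false

namespace Pool.LP30

open Finset Real MvPolynomial
open Pool.Agent.H49.Ent Pool.Agent.H32.Dense Pool.STK Pool.KA Pool.KSAT Pool.K2S Pool.PB Pool.S6C
  Pool.GEN Pool.RCD Pool.LA91
open Pool.OWN83 (TwoRelS TRelS)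

variable {m : ℕ} {U U' : Type} {α β γ : ∀ J : ℕ, Fam m J → Type}
  {f : ∀ (J : ℕ) (F : Fam m J), F.Ω → α J F} {g : ∀ (J : ℕ) (F : Fam m J), F.Ω → β J F}
  {y : ∀ (J : ℕ) (F : Fam m J), F.Ω → γ J F} {S : PCl m}

/-- `y` knows the exact positions of the first `d` places. -/
def KnP (c : ℕ → Fin m) (d : ℕ) (y : ∀ (J : ℕ) (F : Fam m J), F.Ω → γ J F) : Prop :=
  ∀ (J : ℕ) (F : Fam m J), ∃ χ : γ J F → Fin d → ℤ, ∀ ω,
    χ (y J F ω) = fun l : Fin d => F.X J ω (c l)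

/-- What is few bits given the positions is few bits given `y`. -/
theorem few0_ofPos
    (hpos : ∀ (τ : ℝ) (J : ℕ) (F : Fam m J) (A : F.Ω → Prop), S.St τ J F A → 0 < Pe F.p A)
    {c : ℕ → Fin m} {d r : ℕ} (hr : r ≤ d) (hk : KnP c d y) {Q' : Qt m U'}
    (h : Few S f g y (qPos m c r) Q') : Few0 S f g y Q' := by
  intro a ha
  obtain ⟨e, he, H⟩ := h a ha
  refine ⟨e, he, fun K => Bas.mono 0 ((H K).and (pos_bas hpos)) ?_⟩
  rintro J - F A ⟨H, hA⟩ u hu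
  obtain ⟨χ, hχ⟩ := hk J F
  obtain ⟨V, z, hz, h1⟩ := H (fun ω (l : Fin r) => F.X J ω (c l)) u (fun _ _ => rfl) hu
  refine ⟨V, z, hz, le_trans (CH_mono_cond (isLaw_cond F.isLaw hA).nonneg ?_) h1⟩
  intro ω ω' _ _ hh
  simp only [Prod.mk.injEq] at hh ⊢
  refine ⟨funext fun l => ?_, hh.1, hh.2⟩
  have h2 := congrFun (hχ ω) ⟨l, by omega⟩
  have h3 := congrFun (hχ ω') ⟨l, by omega⟩
  rw [hh.2] at h2
  exact h2.symm.trans h3

/-- **Change of the charts**, the heights of the chain are known. -/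
theorem few_tgX {C₀ : ℝ} (htm : TmC S C₀)
    (hpos : ∀ (τ : ℝ) (J : ℕ) (F : Fam m J) (A : F.Ω → Prop), S.St τ J F A → 0 < Pe F.p A)
    {c : ℕ → Fin m} {d : ℕ} {sn : ℕ → ℝ → ℝ} {G : Set ℝ} (hW : ChG S c d sn G)
    (hf : ∀ (J : ℕ) (F : Fam m J), ∃ φ : α J F → PtT F, ∀ ω, ptr F J ω = φ (f J F ω))
    (hy : Kn ((range 0).image c) 1 1 y) (hx : KnP c d y) {w v : ℝ} (av : v ∈ G) (b1 : w ≤ v)
    {r : ℕ} (hr : r ≤ d) {k : Fin m} {w₂ w₃ p₂ p₃ N₁ N₂ : ℝ} (b2 : w₂ ≤ v) (b3 : w₃ ≤ v)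
    {N lv : ℕ → ℝ} {σ₀ : ℝ} (hσ : 0 < σ₀) (hlv : ∀ l < r, 0 < lv l)
    (room : ∀ l < r, sn l v + lv l + 2 * σ₀ ≤ 1 ∧ lv l + 2 * σ₀ ≤ 1 - v ∧
      ∀ l' < l, lv l + 2 * σ₀ ≤ 1 - sn l' v)
    (h1 : ∀ l < r, sn l v + lv l + σ₀ ≤ N l + v)
    (h2 : ∀ l < r, sn l v + lv l + σ₀ ≤ min (sn l w) (sn l v) + (1 - v))
    (h2' : ∀ l < r, ∀ l' < l, sn l v + lv l + σ₀ ≤ min (sn l w) (sn l v) + lv l')
    (hN : N₂ ≤ N₁) (h3 : N₂ + v + σ₀ ≤ min p₂ p₃ + (1 - v))
    (h3' : ∀ l < r, N₂ + v + σ₀ ≤ min p₂ p₃ + lv l) :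
    Few S f (vg v) y ((qG m c r sn w (fun l => N l)).prod
      (qJet m ((range r).image c) k 1 w₂ p₂ N₁)) (qJet m ((range r).image c) k 1 w₃ p₃ N₂) := by
  obtain ⟨u₁, rd, hrd, hch⟩ := hW.ch v av
  have hch' := hch.take (Nat.zero_le r) hr
  have hv0 := hch.w0
  have hv1 := hch.u0
  have hr0 : (0 : ℝ) ≤ r := Nat.cast_nonneg r
  -- the heights
  obtain ⟨φ, hφ, hφ0⟩ : ∃ φ : ℝ, 20 * ((r : ℝ) + 1) * φ = σ₀ ∧ 0 < φ := by
    refine ⟨σ₀ / (20 * ((r : ℝ) + 1)), ?_, by positivity⟩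
    field_simp
  have hH : Few0 S f (vg v) y (qJets m c 0 r 0 (fun _ _ => v) (fun l _ => sn l v)
      (fun l _ => sn l v + lv l + σ₀)) := by
    refine few0_ofPos hpos hr hx (few_posJs htm hpos hf hy hch' hφ0
      (n := fun l => sn l v + lv l + σ₀) (p := fun l => sn l v)
      ⟨fun i hi => ?_, fun i hi => ?_, fun i hi => ?_, fun i hi => ?_, fun i hi l hl => ?_⟩)
    · linarith
    · linarith [hlv i hi]
    · linarith [(room i hi).1]
    · linarith [(room i hi).2.1]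
    · linarith [(room i hi).2.2 l hl]
  have hxH : Exs S (qJets m c 0 r 0 (fun _ _ => v) (fun l _ => sn l v)
      (fun l _ => sn l v + lv l + σ₀)) :=
    exs_qjets fun l l0 l1 j' _ => exs_jet (hrd l (by omega)) (hch'.att l l0 l1)
  refine few0_cut hpos hxH hH (Few.pre hpos
    (fun q => ((fun l j' => if hl : l < r ∧ j' ≤ 1 then
      (if j' = 0 then q.2 l 0 else q.1.1 ⟨l, hl.1⟩) else 0), q.1.2)) ?_
    (few_jetN (f := f) (y := y) htm hch' (k := k) (j := 1)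
      (wv := fun _ j' => if j' = 0 then v else w)
      (pv := fun l j' => if j' = 0 then sn l v else sn l w)
      (Nv := fun l j' => if j' = 0 then sn l v + lv l + σ₀ else N l) (lv := lv)
      (w₁ := w₂) (w₂ := w₃) (p₁ := p₂) (p₂ := p₃) (N₁ := N₁) (N₂ := N₂) (p₀ := 1) (lam := 1)
      (σ₀ := σ₀) ?_ b2 b3 hv1 le_rfl one_pos hσ (fun l _ hl => hlv l hl) ?_ ?_ ?_ hN ?_
      (fun l _ hl => by
        have := h3' l hl
        push_cast
        linarith) hf hy))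
  · rintro K e J F A u ⟨⟨hu1, hu2⟩, hu3⟩
    refine ⟨⟨fun l _ hl j' hj' => ?_, fun ω _ l j' hn => ?_⟩, hu2⟩
    · have hlj : l < r ∧ j' ≤ 1 := ⟨hl, hj'⟩
      simp only [dif_pos hlj]
      rcases Nat.eq_zero_or_pos j' with rfl | hj
      · simp only [if_pos]
        exact hu3.1 l (Nat.zero_le _) hl 0 le_rfl
      · obtain rfl : j' = 1 := by omega
        simp only [one_ne_zero, if_false]
        exact hu1 ⟨l, hl⟩
    · exact dif_neg fun h => hn ⟨Nat.zero_le _, h.1, h.2⟩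
  · intro l _ hl j' hj'
    split_ifs
    · exact le_rfl
    · exact b1
  · intro l _ hl j' hj'
    have e1 := h1 l hl
    rcases Nat.eq_zero_or_pos j' with rfl | hj
    · simp
    · obtain rfl : j' = 1 := by omega
      simp only [one_ne_zero, if_false, Nat.cast_one, one_mul]
      exact e1
  · intro l _ hl j' hj'
    have e1 := h2 l hl
    have e2 := (room l hl).2.1
    have e3 : min (1 : ℝ) (1 - v) = 1 - v := min_eq_right (by linarith)
    rw [e3]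
    rcases Nat.eq_zero_or_pos j' with rfl | hj
    · simp only [if_true, min_self]
      linarith
    · obtain rfl : j' = 1 := by omega
      simp only [one_ne_zero, if_false]
      exact e1
  · intro l _ hl j' hj' l' _ hl'
    have e1 := h2' l hl l' hl'
    rcases Nat.eq_zero_or_pos j' with rfl | hj
    · simp only [if_true, min_self]
      have e2 := min_le_right (sn l w) (sn l v)
      linarith
    · obtain rfl : j' = 1 := by omega
      simp only [one_ne_zero, if_false]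
      exact e1
  · have e3 : min (1 : ℝ) (1 - v) = 1 - v := min_eq_right (by linarith)
    rw [e3]
    push_cast
    linarith

/-! ### The class -/

/-- **The class and the chain**: `wh w` is the window of the charts of the index `w`. -/
structure VCh (S : PCl m) (f : ∀ (J : ℕ) (F : Fam m J), F.Ω → α J F)
    (y : ∀ (J : ℕ) (F : Fam m J), F.Ω → γ J F) (c : ℕ → Fin m) (d : ℕ) (s a b : ℝ)
    (wh : ℚ → ℝ) (sn : ℕ → ℝ → ℝ) (G : Set ℝ) : Prop where
  ne : S.Ne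
  pos : ∀ (τ : ℝ) (J : ℕ) (F : Fam m J) (A : F.Ω → Prop), S.St τ J F A → 0 < Pe F.p A
  tm : ∃ C₀, TmC S C₀
  rn : ∀ w : ℚ, a < w → (w : ℝ) < b → ∃ η, RNum S f (vg ((w : ℝ) + s)) η
  ch : ChG S c d sn G
  wg : ∀ w : ℚ, a < w → (w : ℝ) < b → wh w ∈ G ∧ wh w ≤ w + s
  wm : ∀ w v : ℚ, a < w → w ≤ v → (v : ℝ) < b → wh w ≤ wh v
  mn : ∀ l < d, ∀ w v : ℚ, a < w → w ≤ v → (v : ℝ) < b → sn l (wh w) ≤ sn l (wh v)
  pt : ∀ (J : ℕ) (F : Fam m J), ∃ φ : α J F → PtT F, ∀ ω, ptr F J ω = φ (f J F ω)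
  kn : Kn ((range 0).image c) 1 1 y
  kx : KnP c d y
  b1 : b + s < 1

section

variable {c : ℕ → Fin m} {d : ℕ} {s a b lam : ℝ} {wh : ℚ → ℝ} {sn : ℕ → ℝ → ℝ} {G : Set ℝ}

theorem VCh.sub (h : VCh S f y c d s a b wh sn G) {S' : PCl m} (hne : S'.Ne)
    (hs : ∀ (τ : ℝ) (J : ℕ) (F : Fam m J) (A : F.Ω → Prop), S'.St τ J F A → S.St τ J F A) :
    VCh S' f y c d s a b wh sn G where
  ne := hne
  pos := fun τ J F A hA => h.pos τ J F A (hs τ J F A hA)
  tm := by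
    obtain ⟨C₀, hC⟩ := h.tm
    exact ⟨C₀, fun τ J F A hτ hA => hC τ J F A hτ (hs τ J F A hA)⟩
  rn := fun w a b => by
    obtain ⟨η, hη⟩ := h.rn w a b
    exact ⟨η, hη.sub hs⟩
  ch := h.ch.sub hs
  wg := h.wg
  wm := h.wm
  mn := h.mn
  pt := h.pt
  kn := h.kn
  kx := h.kx
  b1 := h.b1

/-- A smaller interval. -/
theorem VCh.cut (h : VCh S f y c d s a b wh sn G) {a' b' : ℝ} (ha : a ≤ a') (hb : b' ≤ b) :
    VCh S f y c d s a' b' wh sn G where
  ne := h.ne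
  pos := h.pos
  tm := h.tm
  rn := fun w e1 e2 => h.rn w (by linarith) (by linarith)
  ch := h.ch
  wg := fun w e1 e2 => h.wg w (by linarith) (by linarith)
  wm := fun w v e1 e2 e3 => h.wm w v (by linarith) e2 (by linarith)
  mn := fun l hl w v e1 e2 e3 => h.mn l hl w v (by linarith) e2 (by linarith)
  pt := h.pt
  kn := h.kn
  kx := h.kx
  b1 := by linarith [h.b1]

/-- From the record at the window of the charts to the record of the index. -/
theorem VCh.up (h : VCh S f y c d s a b wh sn G) {v o : ℚ} (hv : a < v)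
    (hvo : v ≤ o) (ho : (o : ℝ) < b) {Q : Qt m U} {Q' : Qt m U'}
    (hf : Few S f (vg (wh v)) y Q Q') : Few S f (vg ((o : ℝ) + s)) y Q Q' := by
  have h1 := (h.wg v hv (lt_of_le_of_lt (by exact_mod_cast hvo) ho)).2
  have h2 : (v : ℝ) ≤ o := by exact_mod_cast hvo
  exact Few.up h.pos (fun J F => ⟨fun x => x, fun _ => rfl⟩)
    (fun J F => vg_mono (by linarith) (by linarith [h.b1]) J F)
    (fun J F => ⟨fun x => x, fun _ => rfl⟩) hf

/-- **The digits of the velocities of the chain**, steps less than `lam`. -/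
structure EdS (wh : ℚ → ℝ) (sn : ℕ → ℝ → ℝ) (d : ℕ) (N lv : ℕ → ℝ) (σ₀ a b lam : ℝ) : Prop where
  σ0 : 0 < σ₀
  lv0 : ∀ l < d, 0 < lv l
  room : ∀ v : ℚ, a < v → (v : ℝ) < b → ∀ l < d, sn l (wh v) + lv l + 2 * σ₀ ≤ 1 ∧
    lv l + 2 * σ₀ ≤ 1 - wh v ∧ ∀ l' < l, lv l + 2 * σ₀ ≤ 1 - sn l' (wh v)
  nat : ∀ v : ℚ, a < v → (v : ℝ) < b → ∀ l < d, sn l (wh v) + lv l + σ₀ ≤ N l + wh v
  r1 : ∀ w v : ℚ, a < w → w ≤ v → (v : ℝ) < b → (v : ℝ) < w + lam → ∀ l < d,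
    sn l (wh v) + lv l + σ₀ ≤ sn l (wh w) + (1 - wh v)
  r2 : ∀ w v : ℚ, a < w → w ≤ v → (v : ℝ) < b → (v : ℝ) < w + lam → ∀ l < d,
    N l + wh v + σ₀ ≤ sn l (wh w) + (1 - wh v)
  s1 : ∀ w v : ℚ, a < w → w ≤ v → (v : ℝ) < b → (v : ℝ) < w + lam → ∀ l < d, ∀ l' < l,
    sn l (wh v) + lv l + σ₀ ≤ sn l (wh w) + lv l'
  s2 : ∀ w v : ℚ, a < w → w ≤ v → (v : ℝ) < b → (v : ℝ) < w + lam → ∀ l < d, ∀ l' < l,
    N l + wh v + σ₀ ≤ sn l (wh w) + lv l'

/-- **The targets**: coordinates over the whole chain. -/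
structure TgC (S : PCl m) (c : ℕ → Fin m) (d : ℕ) (wh : ℚ → ℝ) (a b : ℝ) {n : ℕ}
    (k : Fin n → Fin m) (tl : Fin n → ℚ → ℝ) : Prop where
  att : ∀ i, ∀ w : ℚ, a < w → (w : ℝ) < b → ∃ rk : ℝ, 0 ≤ rk ∧
    Att S ((range d).image c) (k i) (wh w) (tl i w) rk
  mono : ∀ i, ∀ w v : ℚ, a < w → w ≤ v → (v : ℝ) < b → tl i w - wh w ≤ tl i v - wh v

/-- The steps of the targets. -/
structure TgS (wh : ℚ → ℝ) (d : ℕ) (lv : ℕ → ℝ) (σ₀ a b lam : ℝ) {n : ℕ}
    (tl : Fin n → ℚ → ℝ) : Prop where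
  t1 : ∀ i, ∀ w o : ℚ, a < w → w ≤ o → (o : ℝ) < b → (o : ℝ) < w + lam →
    tl i o + σ₀ ≤ tl i w + (1 - wh o)
  t2 : ∀ i, ∀ w o : ℚ, a < w → w ≤ o → (o : ℝ) < b → (o : ℝ) < w + lam → ∀ l < d,
    tl i o + σ₀ ≤ tl i w + lv l

theorem TgC.sub {S' : PCl m} (hs : ∀ (τ : ℝ) (J : ℕ) (F : Fam m J) (A : F.Ω → Prop),
    S'.St τ J F A → S.St τ J F A) {n : ℕ} {k : Fin n → Fin m} {tl : Fin n → ℚ → ℝ}
    (h : TgC S c d wh a b k tl) : TgC S' c d wh a b k tl where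
  att := fun i w e1 e2 => by
    obtain ⟨rk, h1, h2⟩ := h.att i w e1 e2
    exact ⟨rk, h1, h2.sub hs⟩
  mono := h.mono

theorem TgC.cut {n : ℕ} {k : Fin n → Fin m} {tl : Fin n → ℚ → ℝ} {a' b' : ℝ} (ha : a ≤ a')
    (hb : b' ≤ b) (h : TgC S c d wh a b k tl) : TgC S c d wh a' b' k tl where
  att := fun i w e1 e2 => h.att i w (by linarith) (by linarith)
  mono := fun i w v e1 e2 e3 => h.mono i w v (by linarith) e2 (by linarith)

/-- The velocities of the targets over the charts of the index `w`, to the natural digits of the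
index `o`. -/
noncomputable def tgQ (m : ℕ) (c : ℕ → Fin m) (d : ℕ) {n : ℕ} (k : Fin n → Fin m) (wh : ℚ → ℝ)
    (tl : Fin n → ℚ → ℝ) (w o : ℚ) : Qt m (Fin n → ℤ) :=
  Qt.pi fun i : Fin n => qJet m ((range d).image c) (k i) 1 (wh w) (tl i w) (tl i o - wh o)

/-- The velocities of the chain over the charts of the index `w`. -/
noncomputable def vlQ (m : ℕ) (c : ℕ → Fin m) (d : ℕ) (wh : ℚ → ℝ) (sn : ℕ → ℝ → ℝ)
    (N : ℕ → ℝ) (w : ℚ) : Qt m (Fin d → ℤ) := qG m c d sn (wh w) (fun l => N l)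

/-- The velocities of the chain exist. -/
theorem exs_vl (h : VCh S f y c d s a b wh sn G) {w : ℚ} (hw : a < w) (hwb : (w : ℝ) < b)
    (N : ℕ → ℝ) : Exs S (vlQ m c d wh sn N w) := by
  obtain ⟨u₁, rd, hrd, hch⟩ := h.ch.ch _ (h.wg w hw hwb).1
  exact exs_pi fun i => exs_jet (hrd i i.2) (hch.att i (Nat.zero_le _) i.2)

/-- The velocities of the targets exist. -/
theorem exs_tg {n : ℕ} {k : Fin n → Fin m} {tl : Fin n → ℚ → ℝ} (h : TgC S c d wh a b k tl)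
    {w : ℚ} (hw : a < w) (hwb : (w : ℝ) < b) (o : ℚ) : Exs S (tgQ m c d k wh tl w o) :=
  exs_pi fun i => by
    obtain ⟨rk, h1, h2⟩ := h.att i w hw hwb
    exact exs_jet h1 h2

/-- **Change of the charts for the velocities of the chain**, between two windows `w₁, w₂ ≤ v`. -/
theorem few_vl (h : VCh S f y c d s a b wh sn G) {N lv : ℕ → ℝ} {σ₀ : ℝ}
    (hE : EdS wh sn d N lv σ₀ a b lam) {w₁ w₂ v : ℚ} (hw₁ : a < w₁) (hw₂ : a < w₂)
    (h1 : w₁ ≤ v) (h2 : w₂ ≤ v) (hv : (v : ℝ) < b) (l1 : (v : ℝ) < w₁ + lam)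
    (l2 : (v : ℝ) < w₂ + lam) {N' : ℕ → ℝ} (hN : ∀ l < d, N' l ≤ N l) :
    Few S f (vg (wh v)) y (vlQ m c d wh sn N w₁) (vlQ m c d wh sn N' w₂) := by
  have h1' : (w₁ : ℝ) ≤ v := by exact_mod_cast h1
  have hva : a < v := by linarith
  have hm1 := h.wm w₁ v hw₁ h1 hv
  have hm2 := h.wm w₂ v hw₂ h2 hv
  obtain ⟨C₀, htm⟩ := h.tm
  refine few_pi h.pos fun i => Few.pre h.pos
    (fun (u : Fin d → ℤ) => ((fun l : Fin (i : ℕ) => u ⟨l, by have := i.2; have := l.2; omega⟩),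
      u i)) ?_
    (few_tgX htm h.pos h.ch h.pt h.kn h.kx (h.wg v hva hv).1 hm1 i.2.le (k := c i)
      (w₂ := wh w₁) (w₃ := wh w₂) (p₂ := sn i (wh w₁)) (p₃ := sn i (wh w₂)) (N₁ := N i)
      (N₂ := N' i) hm1 hm2 (N := N) (lv := lv) hE.σ0 (fun l hl => hE.lv0 l (by omega))
      (fun l hl => hE.room v hva hv l (by omega)) (fun l hl => hE.nat v hva hv l (by omega))
      (fun l hl => ?_) (fun l hl l' hl' => ?_) (hN i i.2) ?_ (fun l hl => ?_))
  · intro K e J F A u hu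
    exact ⟨fun l => hu ⟨l, by have := i.2; have := l.2; omega⟩, hu i⟩
  · rw [min_eq_left (h.mn l (by omega) w₁ v hw₁ h1 hv)]
    exact hE.r1 w₁ v hw₁ h1 hv l1 l (by omega)
  · rw [min_eq_left (h.mn l (by omega) w₁ v hw₁ h1 hv)]
    exact hE.s1 w₁ v hw₁ h1 hv l1 l (by omega) l' hl'
  · have e1 := hE.r2 w₁ v hw₁ h1 hv l1 i i.2
    have e2 := hE.r2 w₂ v hw₂ h2 hv l2 i i.2
    have e3 := hN i i.2
    rcases min_choice (sn i (wh w₁)) (sn i (wh w₂)) with e | e <;> rw [e] <;> linarith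
  · have e1 := hE.s2 w₁ v hw₁ h1 hv l1 i i.2 l hl
    have e2 := hE.s2 w₂ v hw₂ h2 hv l2 i i.2 l hl
    have e3 := hN i i.2
    rcases min_choice (sn i (wh w₁)) (sn i (wh w₂)) with e | e <;> rw [e] <;> linarith

/-- **Change of the charts for the velocities of the targets.** -/
theorem few_tg (h : VCh S f y c d s a b wh sn G) {N lv : ℕ → ℝ} {σ₀ : ℝ}
    (hE : EdS wh sn d N lv σ₀ a b lam) {w w₂ w₃ v : ℚ} (hw : a < w) (hw₂ : a < w₂)
    (hw₃ : a < w₃)
    (h1 : w ≤ v) (h2 : w₂ ≤ v) (h3 : w₃ ≤ v) (hv : (v : ℝ) < b) (l1 : (v : ℝ) < w + lam)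
    {k : Fin m} {p₂ p₃ N₁ N₂ : ℝ} (hN : N₂ ≤ N₁) (t1 : N₂ + wh v + σ₀ ≤ min p₂ p₃ + (1 - wh v))
    (t2 : ∀ l < d, N₂ + wh v + σ₀ ≤ min p₂ p₃ + lv l) :
    Few S f (vg (wh v)) y ((vlQ m c d wh sn N w).prod
      (qJet m ((range d).image c) k 1 (wh w₂) p₂ N₁))
      (qJet m ((range d).image c) k 1 (wh w₃) p₃ N₂) := by
  have h1' : (w : ℝ) ≤ v := by exact_mod_cast h1
  have hva : a < v := by linarith
  obtain ⟨C₀, htm⟩ := h.tm
  refine few_tgX htm h.pos h.ch h.pt h.kn h.kx (h.wg v hva hv).1 (h.wm w v hw h1 hv) le_rfl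
    (h.wm w₂ v hw₂ h2 hv) (h.wm w₃ v hw₃ h3 hv) hE.σ0 hE.lv0 (hE.room v hva hv) (hE.nat v hva hv)
    (fun l hl => ?_) (fun l hl l' hl' => ?_) hN t1 t2
  · rw [min_eq_left (h.mn l hl w v hw h1 hv)]
    exact hE.r1 w v hw h1 hv l1 l hl
  · rw [min_eq_left (h.mn l hl w v hw h1 hv)]
    exact hE.s1 w v hw h1 hv l1 l hl l' hl'

/-- **The velocities of the targets are a relative two-parameter family** over the velocities of
the chain. -/
theorem rel_V (h : VCh S f y c d s a b wh sn G) {N lv : ℕ → ℝ} {σ₀ : ℝ} (hlam : 0 < lam)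
    (hE : EdS wh sn d N lv σ₀ a b lam) {n : ℕ} {k : Fin n → Fin m} {tl : Fin n → ℚ → ℝ}
    (hT : TgC S c d wh a b k tl) (hS : TgS wh d lv σ₀ a b lam tl) :
    TwoRelS S f y s (vlQ m c d wh sn N) (tgQ m c d k wh tl) a b lam := by
  have hmono : ∀ i, ∀ w v : ℚ, a < w → w ≤ v → (v : ℝ) < b → tl i w ≤ tl i v :=
    fun i w v e1 e2 e3 => by linarith [hT.mono i w v e1 e2 e3, h.wm w v e1 e2 e3]
  refine
    { exs₀ := fun w e1 e2 => exs_vl h e1 e2 N
      exs := fun w o e1 e2 e3 e4 => exs_tg hT e1 (lt_of_le_of_lt (by exact_mod_cast e2) e3) o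
      tr := fun w v e1 e2 e3 e4 => ?_
      row := fun w v o e1 e2 e3 e4 e5 => ?_
      chg := fun w v o e1 e2 e3 e4 e5 => ?_
      own := fun w v e1 e2 e3 e4 => ?_ }
  · have e2' : (w : ℝ) ≤ v := by exact_mod_cast e2
    have va : a < v := by linarith
    exact h.up va le_rfl e3 (few_vl h hE va e1 le_rfl e2 e3 (by linarith) e4 fun _ _ => le_rfl)
  · have e2' : (w : ℝ) ≤ v := by exact_mod_cast e2
    have e3' : (v : ℝ) ≤ o := by exact_mod_cast e3
    have wb : (w : ℝ) < b := by linarith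
    have va : a < v := by linarith
    refine h.up e1 le_rfl wb (few_pi h.pos fun i => Few.pre h.pos
      (fun (u : (Fin d → ℤ) × (Fin n → ℤ)) => (u.1, u.2 i))
      (fun K e J F A u hu => by exact ⟨hu.1, hu.2 i⟩)
      (few_tg h hE e1 e1 e1 le_rfl le_rfl le_rfl wb (by linarith)
        (p₂ := tl i w) (p₃ := tl i w) (N₁ := tl i o - wh o) (N₂ := tl i v - wh v)
        (hT.mono i v o va e3 e4) ?_ fun l hl => ?_))
    · rw [min_self]
      linarith [hS.t1 i w v e1 e2 (by linarith) (by linarith), h.wm w v e1 e2 (by linarith)]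
    · rw [min_self]
      linarith [hS.t2 i w v e1 e2 (by linarith) (by linarith) l hl, h.wm w v e1 e2 (by linarith)]
  · have e2' : (w : ℝ) ≤ v := by exact_mod_cast e2
    have e3' : (v : ℝ) ≤ o := by exact_mod_cast e3
    have vb : (v : ℝ) < b := by linarith
    have va : a < v := by linarith
    refine h.up va le_rfl vb (few_pi h.pos fun i => Few.pre h.pos
      (fun (u : (Fin d → ℤ) × (Fin n → ℤ)) => (u.1, u.2 i))
      (fun K e J F A u hu => by exact ⟨hu.1, hu.2 i⟩)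
      (few_tg h hE e1 e1 va e2 e2 le_rfl vb (by linarith)
        (p₂ := tl i w) (p₃ := tl i v) (N₁ := tl i o - wh o) (N₂ := tl i o - wh o)
        le_rfl ?_ fun l hl => ?_))
    · rw [min_eq_left (hmono i w v e1 e2 vb)]
      linarith [hS.t1 i w o e1 (e2.trans e3) e4 e5, h.wm v o va e3 e4]
    · rw [min_eq_left (hmono i w v e1 e2 vb)]
      linarith [hS.t2 i w o e1 (e2.trans e3) e4 e5 l hl, h.wm v o va e3 e4]
  · have e2' : (w : ℝ) ≤ v := by exact_mod_cast e2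
    have va : a < v := by linarith
    obtain ⟨C₀, htm⟩ := h.tm
    obtain ⟨u₁, rd, hrd, hch⟩ := h.ch.ch _ (h.wg v va e3).1
    refine h.up va le_rfl e3 (few_pi h.pos fun i => ?_)
    obtain ⟨rk, x1, x2⟩ := hT.att i v va e3
    refine few0_cut h.pos (exs_jet (N := tl i v - wh v) (j := 1) x1 x2)
      (few0_jet htm hch.w0 hch.u0 (by push_cast; linarith) _ _ _) ?_
    refine few_tg h hE e1 va e1 e2 le_rfl e2 e3 e4
        (p₂ := tl i v) (p₃ := tl i w) (N₁ := tl i v - wh v) (N₂ := tl i v - wh v)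
        le_rfl ?_ fun l hl => ?_
    · rw [min_eq_right (hmono i w v e1 e2 e3)]
      linarith [hS.t1 i w v e1 e2 e3 e4]
    · rw [min_eq_right (hmono i w v e1 e2 e3)]
      linarith [hS.t2 i w v e1 e2 e3 e4 l hl]

/-- **The velocities of the chain over the charts of a later window.** -/
theorem V_back (h : VCh S f y c d s a b wh sn G) {N lv : ℕ → ℝ} {σ₀ : ℝ}
    (hE : EdS wh sn d N lv σ₀ a b lam) {w v : ℚ} (hw : a < w) (hwv : w ≤ v)
    (hv : (v : ℝ) < b) (l1 : (v : ℝ) < w + lam) :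
    Few S f (vg ((v : ℝ) + s)) y (vlQ m c d wh sn N w) (vlQ m c d wh sn N v) := by
  have h1' : (w : ℝ) ≤ v := by exact_mod_cast hwv
  have hva : a < v := by linarith
  exact h.up hva le_rfl hv (few_vl h hE hw hva hwv le_rfl hv l1 (by linarith) fun _ _ => le_rfl)

/-- **The number of bits of the velocities of the chain** behind the natural digits. -/
theorem V_bits (h : VCh S f y c d s a b wh sn G) {N lv : ℕ → ℝ} {σ₀ : ℝ}
    (hE : EdS wh sn d N lv σ₀ a b lam) {w : ℚ} (hw : a < w) (hwb : (w : ℝ) < b) :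
    FewC S f (vg ((w : ℝ) + s)) y (tQt m) (vlQ m c d wh sn N w)
      (∑ l : Fin d, Real.log 2 * (N l - (sn l (wh w) - wh w))) := by
  obtain ⟨C₀, htm⟩ := h.tm
  obtain ⟨u₁, rd, hrd, hch⟩ := h.ch.ch _ (h.wg w hw hwb).1
  refine fewC_pi h.pos fun l => few_more h.pos (N := sn l (wh w) - wh w) (N' := N l) ?_
    (Few0.few h.pos (few0_jet htm hch.w0 hch.u0 (by push_cast; linarith) _ _ _))
  linarith [hE.nat w hw hwb l l.2, hE.lv0 l l.2, hE.σ0]

/-- **The number of the velocities of the chain decreases.** -/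
theorem V_anti (h : VCh S f y c d s a b wh sn G) {N lv : ℕ → ℝ} {σ₀ : ℝ} (hlam : 0 < lam)
    (hE : EdS wh sn d N lv σ₀ a b lam) {θ : ℚ → ℝ}
    (hθ : ∀ w : ℚ, a < w → (w : ℝ) < b → NN S f (vg ((w : ℝ) + s)) y (vlQ m c d wh sn N w) (θ w)) :
    ∀ w v : ℚ, a < w → w ≤ v → (v : ℝ) < b → θ v ≤ θ w := by
  intro w₀ v₀ hw₀ hwv₀ hv₀
  refine rel_steps (R := fun w v => θ v ≤ θ w) (x := (w₀ : ℝ)) (z := (v₀ : ℝ)) (d := lam / 2)
    (half_pos hlam) ?_ (fun w v o _ _ _ _ h1 h2 => h2.trans h1) w₀ v₀ le_rfl hwv₀ le_rfl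
  intro w v h1 h2 h3 h4
  have h2' : (w : ℝ) ≤ v := by exact_mod_cast h2
  have wa : a < w := by linarith
  have va : a < v := by linarith
  have vb : (v : ℝ) < b := by linarith
  obtain ⟨η, hη⟩ := h.rn w wa (by linarith)
  obtain ⟨η', hη'⟩ := h.rn v va vb
  exact NN.anti h.ne h.pos (fun J F => ⟨fun x => x, fun _ => rfl⟩)
    (fun J F => vg_mono (by linarith) (by linarith [h.b1]) J F)
    (fun J F => ⟨fun x => x, fun _ => rfl⟩) hη hη' (hθ w wa (by linarith)) (hθ v va vb)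
    (exs_vl h wa (by linarith) N) (exs_vl h va vb N) (V_back h hE wa h2 vb (by linarith))

/-- **The number of the velocities of the chain** is at most the number of bits. -/
theorem V_le (h : VCh S f y c d s a b wh sn G) {N lv : ℕ → ℝ} {σ₀ : ℝ}
    (hE : EdS wh sn d N lv σ₀ a b lam) {θ : ℝ} {w : ℚ} (hw : a < w) (hwb : (w : ℝ) < b)
    (hθ : NN S f (vg ((w : ℝ) + s)) y (vlQ m c d wh sn N w) θ) :
    0 ≤ θ ∧ θ ≤ ∑ l : Fin d, Real.log 2 * (N l - (sn l (wh w) - wh w)) := by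
  obtain ⟨η, hη⟩ := h.rn w hw hwb
  refine ⟨NN.nonneg h.ne h.pos hη hθ (exs_vl h hw hwb N), ?_⟩
  have h0 : NN S f (vg ((w : ℝ) + s)) y (tQt m) 0 := by
    intro a ha
    refine ⟨1, one_pos, 1, one_pos, fun K => Bas.mono 0 (pos_bas h.pos) ?_⟩
    rintro J - F A hA V z hz u hu
    have h1 : CH (Pool.Agent.H49.Ent.cond F.p A True) u (fun ω => (z ω, y J F ω)) = 0 :=
      CH_eq_zero (isLaw_cond F.isLaw hA).nonneg fun _ _ _ _ _ => rfl
    rw [h1, zero_mul, sub_zero, abs_zero]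
    positivity
  have h2 := NN.inc h.ne h.pos hη h0 hθ exs_tQt (exs_vl h hw hwb N) (V_bits h hE hw hwb)
  linarith

end

end Pool.LP30
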